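import Mathlib
import Pool.Agent.PolT.Defs

/-!
# The compact space `P(X)` of regular Borel probability measures: semicontinuity on closed and open
sets, compactness, cluster points.
-/

open MeasureTheory Set Filter
open scoped Topology ENNReal BoundedContinuousFunction CompactlySupported

namespace Pool.Agent.RadT

open Pool.Agent.PolT

section

variable {X : Type} [TopologicalSpace X] [MeasurableSpace X]

/-- the measure of a point of `P(X)` -/
abbrev ms (μ : P X) : Measure X := (μ.1 : Measure X)

instance (μ : P X) : (ms μ).Regular := μ.2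

end

variable {X : Type} [TopologicalSpace X] [CompactSpace X] [T2Space X]
  [MeasurableSpace X] [BorelSpace X]

theorem continuous_int (f : C(X, ℝ)) : Continuous fun μ : P X => ∫ x, f x ∂(ms μ) :=
  (ProbabilityMeasure.continuous_integral_continuousMap f).comp continuous_subtype_val

/-- upper semicontinuity on closed sets -/
theorem isOpen_lt {H : Set X} (hH : IsClosed H) (c : ℝ≥0∞) : IsOpen {μ : P X | ms μ H < c} := by
  rcases eq_or_ne c ⊤ with rfl | hc
  · have : {μ : P X | ms μ H < ⊤} = univ := by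
      ext μ
      simp [measure_lt_top]
    rw [this]
    exact isOpen_univ
  rw [isOpen_iff_mem_nhds]
  intro μ₀ h
  obtain ⟨U, hHU, hU, hμU⟩ := Set.exists_isOpen_lt_of_lt H c h
  obtain ⟨f, hf1, hf2, hf3, hf4⟩ :=
    exists_continuousMap_one_of_isCompact_subset_isOpen hH.isCompact hU hHU
  have hle : ∀ μ : P X, (ms μ).real H ≤ ∫ x, f x ∂(ms μ) := by
    intro μ
    rw [← integral_indicator_one hH.measurableSet]
    refine integral_mono ?_ ?_ ?_
    · exact (integrable_const (1 : ℝ)).indicator hH.measurableSet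
    · exact f.continuous.integrable_of_hasCompactSupport (HasCompactSupport.of_compactSpace _)
    · intro x
      by_cases hx : x ∈ H
      · simp [hx, hf1 hx]
      · simp [hx, (hf4 x).1]
  have hge : ∫ x, f x ∂(ms μ₀) ≤ (ms μ₀).real U := by
    rw [← integral_indicator_one hU.measurableSet]
    refine integral_mono ?_ ?_ ?_
    · exact f.continuous.integrable_of_hasCompactSupport (HasCompactSupport.of_compactSpace _)
    · exact (integrable_const (1 : ℝ)).indicator hU.measurableSet
    · intro x
      by_cases hx : x ∈ U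
      · simp [hx, (hf4 x).2]
      · have : x ∉ tsupport f := fun h => hx (hf3 h)
        simp [hx, image_eq_zero_of_notMem_tsupport this]
  have h1 : ∫ x, f x ∂(ms μ₀) < c.toReal := by
    refine hge.trans_lt ?_
    rw [Measure.real, ENNReal.toReal_lt_toReal (measure_ne_top _ _) hc]
    exact hμU
  have h2 : {μ : P X | ∫ x, f x ∂(ms μ) < c.toReal} ∈ 𝓝 μ₀ :=
    ((continuous_int f).tendsto μ₀).eventually (gt_mem_nhds h1)
  refine mem_of_superset h2 ?_
  intro μ hμ
  have h3 : (ms μ).real H < c.toReal := (hle μ).trans_lt hμ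
  rw [Measure.real, ENNReal.toReal_lt_toReal (measure_ne_top _ _) hc] at h3
  exact h3

/-- lower semicontinuity on open sets -/
theorem isOpen_gt {U : Set X} (hU : IsOpen U) (c : ℝ≥0∞) : IsOpen {μ : P X | c < ms μ U} := by
  have : {μ : P X | c < ms μ U} = {μ : P X | ms μ Uᶜ < 1 - c} := by
    ext μ
    have h1 : ms μ U = 1 - ms μ Uᶜ := by
      have := prob_compl_eq_one_sub (μ := ms μ) hU.measurableSet.compl
      rwa [compl_compl] at this
    simp only [mem_ofPred_eq, h1]
    exact lt_tsub_comm
  rw [this]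
  exact isOpen_lt hU.isClosed_compl _

theorem isClosed_le' {U : Set X} (hU : IsOpen U) (c : ℝ≥0∞) : IsClosed {μ : P X | ms μ U ≤ c} := by
  have : {μ : P X | ms μ U ≤ c} = {μ : P X | c < ms μ U}ᶜ := by
    ext μ; simp
  rw [this]
  exact (isOpen_gt hU c).isClosed_compl

theorem isClosed_ge' {H : Set X} (hH : IsClosed H) (c : ℝ≥0∞) :
    IsClosed {μ : P X | c ≤ ms μ H} := by
  have : {μ : P X | c ≤ ms μ H} = {μ : P X | ms μ H < c}ᶜ := by
    ext μ; simp
  rw [this]
  exact (isOpen_lt hH c).isClosed_compl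

theorem isClosed_zero {U : Set X} (hU : IsOpen U) : IsClosed {μ : P X | ms μ U = 0} := by
  have : {μ : P X | ms μ U = 0} = {μ : P X | ms μ U ≤ 0} := by
    ext μ; simp
  rw [this]
  exact isClosed_le' hU 0

/-- `P(X)` is compact -/
instance compactSpace_P : CompactSpace (P X) := by
  constructor
  rw [isCompact_iff_ultrafilter_le_nhds]
  intro f _
  obtain ⟨μ, _, hμ⟩ := isCompact_iff_ultrafilter_le_nhds.mp
    (isCompact_univ (X := ProbabilityMeasure X)) (f.map Subtype.val) (by simp)
  obtain ⟨ν, hν1, hν2, hν3⟩ := Measure.exists_regular_eq_of_compactSpace (μ : Measure X)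
  have hν4 : IsProbabilityMeasure ν := by
    have h := hν3 (BoundedContinuousFunction.const X (1 : ℝ))
    simp only [BoundedContinuousFunction.const_apply, integral_const, smul_eq_mul, mul_one,
      probReal_univ] at h
    constructor
    have h2 : ν univ = ENNReal.ofReal (ν.real univ) := by
      rw [Measure.real, ENNReal.ofReal_toReal (measure_ne_top _ _)]
    rw [h2, ← h]
    simp
  refine ⟨⟨⟨ν, hν4⟩, hν1⟩, mem_univ _, ?_⟩
  have h1 : Tendsto (fun σ : P X => σ.1) (f : Filter (P X)) (𝓝 μ) := hμ
  have h2 : Tendsto (fun σ : P X => σ.1) (f : Filter (P X)) (𝓝 (⟨ν, hν4⟩ : ProbabilityMeasure X)) := by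
    rw [ProbabilityMeasure.tendsto_iff_forall_integral_tendsto] at h1 ⊢
    intro g
    have := h1 g
    rw [hν3 g] at this
    exact this
  exact tendsto_subtype_rng.mpr h2

/-- cluster points of sequences -/
theorem exists_cluster (u : ℕ → P X) : ∃ ν : P X, ∀ S : Set (P X), IsClosed S →
    (∀ᶠ n in atTop, u n ∈ S) → ν ∈ S := by
  obtain ⟨ν, hν⟩ := exists_clusterPt_of_compactSpace (map u atTop)
  refine ⟨ν, fun S hS hu => ?_⟩
  rw [← hS.closure_eq]
  exact hν.mem_closure_of_mem _ hu

theorem P_ext {μ ν : P X} (h : ∀ U : Set X, IsOpen U → ms μ U = ms ν U) : μ = ν := by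
  have h1 : ms μ = ms ν := Measure.OuterRegular.ext_isOpen h
  exact Subtype.ext (Subtype.ext h1)

/-- it is enough to have one inequality on open sets -/
theorem P_ext_le {μ ν : P X} (h : ∀ U : Set X, IsOpen U → ms ν U ≤ ms μ U) : μ = ν := by
  apply P_ext
  intro U hU
  apply le_antisymm _ (h U hU)
  have hK : ∀ K : Set X, IsCompact K → ms μ K ≤ ms ν K := by
    intro K hK
    have h1 := h Kᶜ hK.isClosed.isOpen_compl
    rw [prob_compl_eq_one_sub hK.measurableSet, prob_compl_eq_one_sub hK.measurableSet] at h1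
    have h2 : ms μ K ≤ 1 := prob_le_one
    have h3 : ms ν K ≤ 1 := prob_le_one
    exact (ENNReal.sub_le_sub_iff_left h2 ENNReal.one_ne_top).mp h1
  rw [hU.measure_eq_iSup_isCompact]
  refine iSup₂_le fun K hKU => iSup_le fun hKc => ?_
  exact (hK K hKc).trans (measure_mono hKU)

/-- a regular measure vanishing outside `x` is the Dirac measure -/
theorem eq_dirac {μ : P X} {x : X} (h : ms μ {x}ᶜ = 0) : μ = dirac x := by
  apply P_ext
  intro U hU
  have h1 : ms (dirac x) = Measure.dirac x := rfl
  rw [h1, Measure.dirac_apply' x hU.measurableSet]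
  by_cases hx : x ∈ U
  · rw [indicator_of_mem hx, Pi.one_apply, ← compl_compl U,
      prob_compl_eq_one_sub hU.measurableSet.compl]
    have : ms μ Uᶜ = 0 := measure_mono_null (by simpa using hx) h
    rw [this, tsub_zero]
  · rw [indicator_of_notMem hx]
    exact measure_mono_null (by simpa using hx) h

/-- a regular measure vanishing on open sets vanishes on their union -/
theorem sUnion_null (μ : P X) {𝓥 : Set (Set X)} (ho : ∀ V ∈ 𝓥, IsOpen V)
    (h0 : ∀ V ∈ 𝓥, ms μ V = 0) : ms μ (⋃₀ 𝓥) = 0 := by
  rw [(isOpen_sUnion ho).measure_eq_iSup_isCompact]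
  refine le_antisymm (iSup₂_le fun K hK => iSup_le fun hKc => ?_) zero_le
  refine le_of_eq (hKc.measure_zero_of_nhdsWithin fun y hy => ?_)
  obtain ⟨V, hV, hyV⟩ := hK hy
  exact ⟨V, mem_nhdsWithin_of_mem_nhds ((ho V hV).mem_nhds hyV), h0 V hV⟩

end Pool.Agent.RadT
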