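import Mathlib

/-!
# Maximal filters of omega-closed sets in a compact space
-/

open Set Filter
open scoped Topology ENNReal

namespace Pool.Agent.RadT

variable {T : Type*} [TopologicalSpace T]

/-- closed under closures of countable subsets -/
def OmegaClosed (F : Set T) : Prop := ∀ C ⊆ F, C.Countable → closure C ⊆ F

theorem OmegaClosed.inter {E F : Set T} (hE : OmegaClosed E) (hF : OmegaClosed F) :
    OmegaClosed (E ∩ F) := fun C hC hCc =>
  subset_inter (hE C (hC.trans inter_subset_left) hCc) (hF C (hC.trans inter_subset_right) hCc)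

theorem omegaClosed_of_isClosed {E : Set T} (h : IsClosed E) : OmegaClosed E :=
  fun _ hC _ => closure_minimal hC h

/-- the points in closures of countable subsets of `A` -/
def omegaHull (A : Set T) : Set T := {y | ∃ B ⊆ A, B.Countable ∧ y ∈ closure B}

theorem omegaClosed_hull (A : Set T) : OmegaClosed (omegaHull A) := by
  intro C hC hCc y hy
  choose! B hB1 hB2 hB3 using fun c (hc : c ∈ C) => hC hc
  refine ⟨⋃ c ∈ C, B c, iUnion₂_subset hB1, hCc.biUnion hB2, ?_⟩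
  refine closure_minimal ?_ isClosed_closure hy
  intro c hc
  exact closure_mono (subset_biUnion_of_mem (u := B) hc) (hB3 c hc)

theorem subset_hull (A : Set T) : A ⊆ omegaHull A := fun a ha =>
  ⟨{a}, singleton_subset_iff.mpr ha, countable_singleton a, subset_closure rfl⟩

/-- a maximal filter with a base of omega-closed sets, closed under countable intersections -/
structure OFilter (G : Filter T) : Prop where
  ne : G.NeBot
  cif : CountableInterFilter G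
  basis : ∀ S ∈ G, ∃ F ∈ G, OmegaClosed F ∧ F ⊆ S
  max : ∀ E, OmegaClosed E → (∀ F ∈ G, (E ∩ F).Nonempty) → E ∈ G

/-- cluster points -/
theorem exists_cluster_seq [CompactSpace T] (u : ℕ → T) : ∃ y : T, ∀ S : Set T, OmegaClosed S →
    (∀ᶠ n in atTop, u n ∈ S) → y ∈ S := by
  obtain ⟨y, hy⟩ := exists_clusterPt_of_compactSpace (map u atTop)
  refine ⟨y, fun S hS hu => ?_⟩
  obtain ⟨k, hk⟩ := eventually_atTop.mp hu
  have h1 : (u '' Ici k) ∈ map u atTop := image_mem_map (Ici_mem_atTop k)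
  have h2 : y ∈ closure (u '' Ici k) := hy.mem_closure_of_mem _ h1
  refine hS (u '' Ici k) ?_ ((Set.to_countable _).image _) h2
  rintro _ ⟨n, hn, rfl⟩
  exact hk n hn

theorem exists_oFilter [CompactSpace T] (Y : Set T) (hY : OmegaClosed Y) (y : T)
    (hy : y ∈ closure Y) : ∃ G : Filter T, OFilter G ∧ Y ∈ G ∧
      ∀ N, IsClosed N → N ∈ 𝓝 y → N ∈ G := by
  classical
  -- the families considered
  let 𝒮 : Set (Set (Set T)) := {𝓕 | (∀ F ∈ 𝓕, OmegaClosed F ∧ F.Nonempty) ∧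
    ∀ E ∈ 𝓕, ∀ F ∈ 𝓕, E ∩ F ∈ 𝓕}
  let 𝓕₀ : Set (Set T) := {F | ∃ N, IsClosed N ∧ N ∈ 𝓝 y ∧ F = Y ∩ N}
  have h₀ : 𝓕₀ ∈ 𝒮 := by
    refine ⟨?_, ?_⟩
    · rintro _ ⟨N, hN, hNy, rfl⟩
      refine ⟨hY.inter (omegaClosed_of_isClosed hN), ?_⟩
      obtain ⟨z, hz1, hz2⟩ := mem_closure_iff_nhds.mp hy N hNy
      exact ⟨z, hz2, hz1⟩
    · rintro _ ⟨N, hN, hNy, rfl⟩ _ ⟨N', hN', hNy', rfl⟩
      exact ⟨N ∩ N', hN.inter hN', inter_mem hNy hNy', by ext z; simp; tauto⟩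
  obtain ⟨𝓕, hle, hmax⟩ := zorn_subset_nonempty 𝒮 (by
    intro c hc hchain hne
    refine ⟨⋃₀ c, ⟨?_, ?_⟩, fun s hs => subset_sUnion_of_mem hs⟩
    · rintro F ⟨𝓖, h𝓖, hF⟩
      exact (hc h𝓖).1 F hF
    · rintro E ⟨𝓖, h𝓖, hE⟩ F ⟨𝓗, h𝓗, hF⟩
      rcases hchain.total h𝓖 h𝓗 with h | h
      · exact ⟨𝓗, h𝓗, (hc h𝓗).2 E (h hE) F hF⟩
      · exact ⟨𝓖, h𝓖, (hc h𝓖).2 E hE F (h hF)⟩) 𝓕₀ h₀
  have hS : 𝓕 ∈ 𝒮 := hmax.prop
  have hYF : Y ∈ 𝓕 := hle ⟨univ, isClosed_univ, univ_mem, by simp⟩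
  -- maximality
  have hM : ∀ E, OmegaClosed E → (∀ F ∈ 𝓕, (E ∩ F).Nonempty) → ∀ F ∈ 𝓕, E ∩ F ∈ 𝓕 := by
    intro E hE hEF
    have h1 : 𝓕 ∪ {A | ∃ F ∈ 𝓕, A = E ∩ F} ∈ 𝒮 := by
      refine ⟨?_, ?_⟩
      · rintro F (hF | ⟨F, hF, rfl⟩)
        · exact hS.1 F hF
        · exact ⟨hE.inter (hS.1 F hF).1, hEF F hF⟩
      · rintro A (hA | ⟨A, hA, rfl⟩) B (hB | ⟨B, hB, rfl⟩)
        · exact Or.inl (hS.2 A hA B hB)
        · exact Or.inr ⟨A ∩ B, hS.2 A hA B hB, by ext z; simp; tauto⟩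
        · exact Or.inr ⟨A ∩ B, hS.2 A hA B hB, by ext z; simp; tauto⟩
        · exact Or.inr ⟨A ∩ B, hS.2 A hA B hB, by ext z; simp; tauto⟩
    have h2 := hmax.le_of_ge h1 subset_union_left
    exact fun F hF => h2 (Or.inr ⟨F, hF, rfl⟩)
  -- countable intersections
  have hC : ∀ f : ℕ → Set T, (∀ n, f n ∈ 𝓕) → ∃ F ∈ 𝓕, F ⊆ ⋂ n, f n := by
    intro f hf
    let E : Set T := ⋂ n, f n
    have hE : OmegaClosed E := by
      intro C hC hCc
      refine subset_iInter fun n => ?_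
      exact (hS.1 _ (hf n)).1 C (hC.trans (iInter_subset _ n)) hCc
    refine ⟨E ∩ Y, hM E hE ?_ Y hYF, inter_subset_left⟩
    intro F hF
    -- finite intersections
    let g : ℕ → Set T := fun n => Nat.rec F (fun k A => A ∩ f k) n
    have hg : ∀ n, g (n + 1) = g n ∩ f n := fun n => rfl
    have hgF : ∀ n, g n ∈ 𝓕 := by
      intro n
      induction n with
      | zero => exact hF
      | succ n ih => rw [hg]; exact hS.2 _ ih _ (hf n)
    have hmono : Antitone g := antitone_nat_of_succ_le fun n => by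
      rw [hg]; exact inter_subset_left
    have hne : ∀ n, (g n).Nonempty := fun n => (hS.1 _ (hgF n)).2
    choose u hu using hne
    obtain ⟨z, hz⟩ := exists_cluster_seq u
    have h3 : ∀ n, z ∈ g n := fun n => hz (g n) (hS.1 _ (hgF n)).1 (by
      filter_upwards [eventually_ge_atTop n] with k hk
      exact hmono hk (hu k))
    refine ⟨z, mem_iInter.mpr fun n => ?_, h3 0⟩
    have := h3 (n + 1)
    rw [hg] at this
    exact this.2
  -- the filter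
  let G : Filter T :=
    { sets := {S | ∃ F ∈ 𝓕, F ⊆ S}
      univ_sets := ⟨Y, hYF, subset_univ _⟩
      sets_of_superset := by
        rintro S S' ⟨F, hF, h⟩ h'
        exact ⟨F, hF, h.trans h'⟩
      inter_sets := by
        rintro S S' ⟨F, hF, h⟩ ⟨F', hF', h'⟩
        exact ⟨F ∩ F', hS.2 F hF F' hF', inter_subset_inter h h'⟩ }
  have hGm : ∀ S, S ∈ G ↔ ∃ F ∈ 𝓕, F ⊆ S := fun S => Iff.rfl
  refine ⟨G, ⟨?_, ?_, ?_, ?_⟩, (hGm Y).mpr ⟨Y, hYF, Subset.rfl⟩, ?_⟩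
  · refine neBot_iff.mpr fun h => ?_
    have h1 : (∅ : Set T) ∈ G := by rw [h]; exact mem_bot
    obtain ⟨F, hF, hF0⟩ := (hGm _).mp h1
    obtain ⟨z, hz⟩ := (hS.1 F hF).2
    exact hF0 hz
  · constructor
    intro S hSc hSG
    rcases S.eq_empty_or_nonempty with rfl | hne
    · simp
    obtain ⟨f, rfl⟩ := hSc.exists_eq_range hne
    have h1 : ∀ n, ∃ F ∈ 𝓕, F ⊆ f n := fun n => (hGm _).mp (hSG _ (mem_range_self n))
    choose F hF hFf using h1
    obtain ⟨E, hE, hEF⟩ := hC F hF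
    refine (hGm _).mpr ⟨E, hE, hEF.trans ?_⟩
    rw [sInter_range]
    exact iInter_mono hFf
  · intro S hSG
    obtain ⟨F, hF, h⟩ := (hGm _).mp hSG
    exact ⟨F, (hGm _).mpr ⟨F, hF, Subset.rfl⟩, (hS.1 F hF).1, h⟩
  · intro E hE h
    refine (hGm _).mpr ⟨E ∩ Y, hM E hE (fun F hF => h F ((hGm _).mpr ⟨F, hF, Subset.rfl⟩)) Y hYF,
      inter_subset_left⟩
  · intro N hN hNy
    exact (hGm _).mpr ⟨Y ∩ N, hle ⟨N, hN, hNy, rfl⟩, inter_subset_right⟩

/-- functions with omega-closed upper level sets are constant along the filter -/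
theorem OFilter.exists_const {G : Filter T} (hG : OFilter G) (φ : T → ℝ≥0∞) {F₀ : Set T}
    (hF₀ : F₀ ∈ G) (hφ : ∀ c, OmegaClosed {y | y ∈ F₀ ∧ c ≤ φ y}) : ∃ c, ∀ᶠ y in G, φ y = c := by
  have := hG.ne
  have := hG.cif
  let S : Set ℝ≥0∞ := {c | {y | y ∈ F₀ ∧ c ≤ φ y} ∈ G}
  have hS0 : (0 : ℝ≥0∞) ∈ S := by
    have : {y | y ∈ F₀ ∧ (0 : ℝ≥0∞) ≤ φ y} = F₀ := by ext; simp
    show {y | y ∈ F₀ ∧ (0 : ℝ≥0∞) ≤ φ y} ∈ G
    rw [this]
    exact hF₀
  refine ⟨sSup S, ?_⟩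
  have h1 : ∀ᶠ y in G, sSup S ≤ φ y := by
    obtain ⟨u, -, hu2, hu3⟩ := exists_seq_tendsto_sSup (S := S) ⟨0, hS0⟩ (OrderTop.bddAbove S)
    have h2 : ∀ n, ∀ᶠ y in G, u n ≤ φ y := fun n =>
      mem_of_superset (hu3 n) fun y hy => hy.2
    filter_upwards [eventually_countable_forall.mpr h2] with y hy
    exact le_of_tendsto' hu2 hy
  have h2 : ∀ᶠ y in G, φ y ≤ sSup S := by
    rcases eq_or_ne (sSup S) ⊤ with h | h
    · exact Eventually.of_forall fun y => by rw [h]; exact le_top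
    obtain ⟨u, -, hu2, hu3⟩ := exists_seq_strictAnti_tendsto' (lt_top_iff_ne_top.mpr h)
    have h3 : ∀ n, ∀ᶠ y in G, φ y ≤ u n := by
      intro n
      have h4 : u n ∉ S := fun hm => absurd (le_sSup hm) (not_le.mpr (hu2 n).1)
      have h5 : ¬ ∀ F ∈ G, ({y | y ∈ F₀ ∧ u n ≤ φ y} ∩ F).Nonempty := fun h' =>
        h4 (hG.max _ (hφ (u n)) h')
      push Not at h5
      obtain ⟨F, hF, hE⟩ := h5
      filter_upwards [hF, hF₀] with y hy hy0
      by_contra hlt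
      push Not at hlt
      have : y ∈ ({y | y ∈ F₀ ∧ u n ≤ φ y} ∩ F) := ⟨⟨hy0, hlt.le⟩, hy⟩
      rw [hE] at this
      exact this
    filter_upwards [eventually_countable_forall.mpr h3] with y hy
    exact ge_of_tendsto' hu3 hy
  filter_upwards [h1, h2] with y hy1 hy2
  exact le_antisymm hy2 hy1

end Pool.Agent.RadT
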