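import Mathlib
import Pool.Agent.RadT.Basic
import Pool.Agent.RadT.Filt

/-!
# The Borel measure of a maximal filter of omega-closed sets of measures
-/

open MeasureTheory Set Filter
open scoped Topology ENNReal BoundedContinuousFunction CompactlySupported

namespace Pool.Agent.RadT

open Pool.Agent.PolT

variable {X : Type} [TopologicalSpace X] [CompactSpace X] [T2Space X]
  [MeasurableSpace X] [BorelSpace X]

/-- all Borel sets have constant measure along the filter -/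
theorem OFilter.const_borel {G : Filter (P X)} (hG : OFilter G) {B : Set X}
    (hB : MeasurableSet B) : ∃ c, ∀ᶠ μ in G, ms μ B = c := by
  have := hG.ne
  have := hG.cif
  have hgen : (inferInstance : MeasurableSpace X) = MeasurableSpace.generateFrom {s | IsClosed s} := by
    rw [← borel_eq_generateFrom_isClosed]
    exact BorelSpace.measurable_eq
  refine MeasurableSpace.induction_on_inter (C := fun B _ => ∃ c, ∀ᶠ μ in G, ms μ B = c)
    hgen isPiSystem_isClosed ?_ ?_ ?_ ?_ B hB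
  · exact ⟨0, Eventually.of_forall fun μ => measure_empty⟩
  · intro H hH
    have hH : IsClosed H := hH
    refine hG.exists_const (fun μ => ms μ H) univ_mem fun c => ?_
    refine omegaClosed_of_isClosed ?_
    have : {μ : P X | μ ∈ univ ∧ c ≤ ms μ H} = {μ : P X | c ≤ ms μ H} := by ext; simp
    rw [this]
    exact isClosed_ge' hH c
  · rintro B hB ⟨c, hc⟩
    refine ⟨1 - c, ?_⟩
    filter_upwards [hc] with μ hμ
    rw [prob_compl_eq_one_sub hB, hμ]
  · intro f hd hf h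
    choose c hc using h
    refine ⟨∑' n, c n, ?_⟩
    filter_upwards [eventually_countable_forall.mpr hc] with μ hμ
    rw [measure_iUnion (fun i j hij => hd hij) hf]
    exact tsum_congr hμ

/-- the limit measure -/
theorem OFilter.exists_measure {G : Filter (P X)} (hG : OFilter G) : ∃ m : Measure X,
    IsProbabilityMeasure m ∧ ∀ B, MeasurableSet B → ∀ᶠ μ in G, ms μ B = m B := by
  have := hG.ne
  have := hG.cif
  choose c hc using fun (B : Set X) (hB : MeasurableSet B) => hG.const_borel hB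
  have hu : ∀ B (hB : MeasurableSet B) d, (∀ᶠ μ in G, ms μ B = d) → c B hB = d := by
    intro B hB d hd
    obtain ⟨μ, h1, h2⟩ := (hd.and (hc B hB)).exists
    rw [← h2, h1]
  let m : Measure X := Measure.ofMeasurable c
    (hu _ _ _ (Eventually.of_forall fun μ => measure_empty)) (by
      intro f hf hd
      refine hu _ _ _ ?_
      filter_upwards [eventually_countable_forall.mpr fun n => hc (f n) (hf n)] with μ hμ
      rw [measure_iUnion hd hf]
      exact tsum_congr hμ)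
  have hm : ∀ B (hB : MeasurableSet B), m B = c B hB := fun B hB =>
    Measure.ofMeasurable_apply B hB
  refine ⟨m, ⟨?_⟩, fun B hB => ?_⟩
  · rw [hm _ MeasurableSet.univ]
    exact hu _ _ _ (Eventually.of_forall fun μ => measure_univ)
  · rw [hm B hB]
    exact hc B hB

/-- countable families of Borel sets -/
theorem OFilter.agree {G : Filter (P X)} (hG : OFilter G) {m : Measure X}
    (hm : ∀ B, MeasurableSet B → ∀ᶠ μ in G, ms μ B = m B) {𝓑 : Set (Set X)} (hc : 𝓑.Countable)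
    (hb : ∀ B ∈ 𝓑, MeasurableSet B) : ∀ᶠ μ in G, ∀ B ∈ 𝓑, ms μ B = m B := by
  have := hG.cif
  exact (eventually_countable_ball hc).mpr fun B hB => hm B (hb B hB)

/-- a regular measure is additive relative to a closed set -/
theorem sUnion_diff_null (μ : P X) {G₀ : Set X} (hG₀ : IsOpen G₀) {𝓥 : Set (Set X)}
    (ho : ∀ V ∈ 𝓥, IsOpen V) (h0 : ∀ V ∈ 𝓥, ms μ (V \ G₀) = 0) : ms μ (⋃₀ 𝓥 \ G₀) = 0 := by
  have hU : IsOpen (⋃₀ 𝓥 ∪ G₀) := (isOpen_sUnion ho).union hG₀
  have h1 : ms μ (⋃₀ 𝓥 ∪ G₀) ≤ ms μ G₀ := by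
    rw [hU.measure_eq_iSup_isCompact]
    refine iSup₂_le fun K hK => iSup_le fun hKc => ?_
    have h2 : ms μ (K \ G₀) = 0 := by
      refine (hKc.diff hG₀).measure_zero_of_nhdsWithin fun y hy => ?_
      obtain ⟨V, hV, hyV⟩ : y ∈ ⋃₀ 𝓥 := (hK hy.1).resolve_right hy.2
      refine ⟨V \ G₀, ?_, h0 V hV⟩
      have h3 : V ∩ (K \ G₀) ∈ 𝓝[K \ G₀] y :=
        inter_mem (mem_nhdsWithin_of_mem_nhds ((ho V hV).mem_nhds hyV)) self_mem_nhdsWithin
      exact mem_of_superset h3 fun z hz => ⟨hz.1, hz.2.2⟩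
    calc ms μ K ≤ ms μ ((K \ G₀) ∪ G₀) := measure_mono (by intro z hz; by_cases h : z ∈ G₀ <;> simp [h, hz])
      _ ≤ ms μ (K \ G₀) + ms μ G₀ := measure_union_le _ _
      _ = ms μ G₀ := by rw [h2, zero_add]
  have h4 : ms μ (⋃₀ 𝓥 ∪ G₀) = ms μ (⋃₀ 𝓥 \ G₀) + ms μ G₀ := by
    rw [← measure_union disjoint_sdiff_left hG₀.measurableSet, diff_union_self]
  rw [h4] at h1
  have h5 : ms μ G₀ ≠ ⊤ := measure_ne_top _ _
  by_contra hne
  exact absurd h1 (not_le.mpr (by
    rw [add_comm]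
    exact ENNReal.lt_add_right h5 hne))

/-- the limit measure inherits an additivity property from regular measures -/
theorem OFilter.additive {G : Filter (P X)} (hG : OFilter G) {m : Measure X}
    (hm : ∀ B, MeasurableSet B → ∀ᶠ μ in G, ms μ B = m B) {G₀ : Set X} (hG₀ : IsOpen G₀)
    {𝓥 : Set (Set X)} (ho : ∀ V ∈ 𝓥, IsOpen V)
    (hc : ∀ μ : P X, {V ∈ 𝓥 | ms μ (V \ G₀) ≠ 0}.Countable) (h0 : ∀ V ∈ 𝓥, m (V \ G₀) = 0) :
    ∀ᶠ μ in G, ms μ (⋃₀ 𝓥 \ G₀) = 0 := by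
  classical
  have := hG.ne
  have := hG.cif
  obtain ⟨F₀, hF₀, hF₀c, hF₀s⟩ := hG.basis _ (hm G₀ hG₀.measurableSet)
  have hF₀s : ∀ μ ∈ F₀, ms μ G₀ = m G₀ := fun μ hμ => hF₀s hμ
  have hadd : ∀ (μ : P X) (V : Set X), ms μ (V ∪ G₀) = ms μ (V \ G₀) + ms μ G₀ := by
    intro μ V
    rw [← measure_union disjoint_sdiff_left hG₀.measurableSet, diff_union_self]
  have hkey : ∀ μ ∈ F₀, ∀ V, (ms μ (V \ G₀) = 0 ↔ ms μ (V ∪ G₀) ≤ m G₀) := by
    intro μ hμ V
    rw [hadd, hF₀s μ hμ]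
    constructor
    · intro h
      rw [h, zero_add]
    · intro h
      by_contra hne
      refine absurd h (not_le.mpr ?_)
      rw [add_comm]
      refine ENNReal.lt_add_right ?_ hne
      rw [← hF₀s μ hμ]
      exact measure_ne_top _ _
  have hcl : ∀ V ∈ 𝓥, IsClosed {μ : P X | ms μ (V ∪ G₀) ≤ m G₀} := fun V hV =>
    isClosed_le' ((ho V hV).union hG₀) _
  have hE : OmegaClosed {μ : P X | μ ∈ F₀ ∧ ∀ V ∈ 𝓥, ms μ (V \ G₀) = 0} := by
    intro C hC hCc ν hν
    have hνF : ν ∈ F₀ := hF₀c C (fun μ hμ => (hC hμ).1) hCc hν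
    refine ⟨hνF, fun V hV => ?_⟩
    rw [hkey ν hνF]
    refine closure_minimal (s := C) (t := {μ : P X | ms μ (V ∪ G₀) ≤ m G₀}) ?_ (hcl V hV) hν
    intro μ hμ
    exact (hkey μ (hC hμ).1 V).mp ((hC hμ).2 V hV)
  have hmem : {μ : P X | μ ∈ F₀ ∧ ∀ V ∈ 𝓥, ms μ (V \ G₀) = 0} ∈ G := by
    refine hG.max _ hE fun F hF => ?_
    obtain ⟨F₁, hF₁, hF₁c, hF₁s⟩ := hG.basis _ (inter_mem hF hF₀)
    have hstep : ∀ C : {C : Set (Set X) // C ⊆ 𝓥 ∧ C.Countable},
        ∃ μ : P X, μ ∈ F₁ ∧ ∀ V ∈ C.1, ms μ (V \ G₀) = 0 := by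
      rintro ⟨C, hC, hCc⟩
      have h1 : ∀ᶠ μ in G, ∀ V ∈ C, ms μ (V \ G₀) = 0 := by
        refine (eventually_countable_ball hCc).mpr fun V hV => ?_
        have := hm (V \ G₀) ((ho V (hC hV)).measurableSet.diff hG₀.measurableSet)
        rw [h0 V (hC hV)] at this
        exact this
      exact ((eventually_of_mem hF₁ fun μ hμ => hμ).and h1).exists
    choose M hM1 hM2 using hstep
    let nxt : {C : Set (Set X) // C ⊆ 𝓥 ∧ C.Countable} →
        {C : Set (Set X) // C ⊆ 𝓥 ∧ C.Countable} :=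
      fun C => ⟨C.1 ∪ {V ∈ 𝓥 | ms (M C) (V \ G₀) ≠ 0}, union_subset C.2.1 (fun V hV => hV.1),
        C.2.2.union (hc (M C))⟩
    let Cs : ℕ → {C : Set (Set X) // C ⊆ 𝓥 ∧ C.Countable} := fun n =>
      Nat.rec ⟨∅, empty_subset _, countable_empty⟩ (fun _ D => nxt D) n
    have hCs : ∀ n, Cs (n + 1) = nxt (Cs n) := fun n => rfl
    have hmono : Monotone fun n => (Cs n).1 := monotone_nat_of_le_succ fun n => by
      rw [hCs]; exact subset_union_left
    obtain ⟨ν, hν⟩ := exists_cluster_seq fun n => M (Cs n)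
    have hνF : ν ∈ F₁ := hν F₁ hF₁c (Eventually.of_forall fun n => hM1 _)
    have hνF₀ : ν ∈ F₀ := (hF₁s hνF).2
    refine ⟨ν, ⟨hνF₀, fun V hV => ?_⟩, (hF₁s hνF).1⟩
    rw [hkey ν hνF₀]
    refine hν _ (omegaClosed_of_isClosed (hcl V hV)) ?_
    have h1 : ∀ᶠ n in atTop, ms (M (Cs n)) (V \ G₀) = 0 := by
      by_cases h : ∃ k, ms (M (Cs k)) (V \ G₀) ≠ 0
      · obtain ⟨k, hk⟩ := h
        have h3 : V ∈ (Cs (k + 1)).1 := by
          rw [hCs]
          exact Or.inr ⟨hV, hk⟩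
        filter_upwards [eventually_ge_atTop (k + 1)] with n hn
        exact hM2 _ V (hmono hn h3)
      · push Not at h
        exact Eventually.of_forall h
    filter_upwards [h1] with n hn
    exact (hkey _ (hF₁s (hM1 _)).2 V).mp hn
  filter_upwards [hmem] with μ hμ
  exact sUnion_diff_null μ hG₀ ho hμ.2

/-- two finite measures on the real line agreeing on rational intervals, pulled back -/
theorem integral_eq_of_agree (f : C(X, ℝ)) {μ ν : Measure X} [IsProbabilityMeasure μ]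
    [IsProbabilityMeasure ν] (h : ∀ a b : ℚ, μ (f ⁻¹' Ioo (a : ℝ) b) = ν (f ⁻¹' Ioo (a : ℝ) b)) :
    ∫ x, f x ∂μ = ∫ x, f x ∂ν := by
  have hf : Measurable f := f.continuous.measurable
  have h1 : μ.map f = ν.map f := by
    have : IsProbabilityMeasure (μ.map f) := Measure.isProbabilityMeasure_map hf.aemeasurable
    refine Real.measure_ext_Ioo_rat fun a b => ?_
    rw [Measure.map_apply hf measurableSet_Ioo, Measure.map_apply hf measurableSet_Ioo]
    exact h a b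
  have h2 : ∀ ρ : Measure X, ∫ x, f x ∂ρ = ∫ t, t ∂(ρ.map f) := by
    intro ρ
    rw [integral_map hf.aemeasurable (by fun_prop)]
  rw [h2, h2, h1]

/-- integrals of continuous functions -/
theorem OFilter.integral_eq {G : Filter (P X)} (hG : OFilter G) {m : Measure X}
    [IsProbabilityMeasure m] (hm : ∀ B, MeasurableSet B → ∀ᶠ μ in G, ms μ B = m B) {μ₀ : P X}
    (hN : ∀ N, IsClosed N → N ∈ 𝓝 μ₀ → N ∈ G) (f : C(X, ℝ)) :
    ∫ x, f x ∂m = ∫ x, f x ∂(ms μ₀) := by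
  have := hG.ne
  have := hG.cif
  have h1 : ∀ᶠ μ in G, ∀ a b : ℚ, ms μ (f ⁻¹' Ioo (a : ℝ) b) = m (f ⁻¹' Ioo (a : ℝ) b) := by
    refine eventually_countable_forall.mpr fun a => eventually_countable_forall.mpr fun b => ?_
    exact hm _ (f.continuous.measurable measurableSet_Ioo)
  have h2 : ∀ n : ℕ, ∀ᶠ μ in G,
      |∫ x, f x ∂(ms μ) - ∫ x, f x ∂(ms μ₀)| ≤ 1 / ((n : ℝ) + 1) := by
    intro n
    have hcont : Continuous fun μ : P X => |∫ x, f x ∂(ms μ) - ∫ x, f x ∂(ms μ₀)| :=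
      ((continuous_int f).sub continuous_const).abs
    refine hN {μ : P X | |∫ x, f x ∂(ms μ) - ∫ x, f x ∂(ms μ₀)| ≤ 1 / ((n : ℝ) + 1)}
      (isClosed_le hcont continuous_const) ?_
    have h3 : |∫ x, f x ∂(ms μ₀) - ∫ x, f x ∂(ms μ₀)| < 1 / ((n : ℝ) + 1) := by
      rw [sub_self, abs_zero]
      positivity
    filter_upwards [(hcont.tendsto μ₀).eventually (gt_mem_nhds h3)] with μ hμ
    exact hμ.le
  obtain ⟨μ, h3, h4⟩ := (h1.and (eventually_countable_forall.mpr h2)).exists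
  have h5 : ∫ x, f x ∂m = ∫ x, f x ∂(ms μ) := integral_eq_of_agree f fun a b => (h3 a b).symm
  have h6 : |∫ x, f x ∂(ms μ) - ∫ x, f x ∂(ms μ₀)| ≤ 0 := by
    refine le_of_forall_pos_lt_add fun ε hε => ?_
    obtain ⟨n, hn⟩ := exists_nat_one_div_lt hε
    rw [zero_add]
    exact (h4 n).trans_lt hn
  have h7 := abs_nonpos_iff.mp h6
  rw [h5]
  linarith

/-- failure of countable tightness gives a filter -/
theorem exists_oFilter_of_not_tight {μ₀ : P X} (h : ¬ TightAt μ₀) : ∃ G : Filter (P X),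
    OFilter G ∧ {μ₀}ᶜ ∈ G ∧ ∀ N, IsClosed N → N ∈ 𝓝 μ₀ → N ∈ G := by
  unfold TightAt at h
  push Not at h
  obtain ⟨A, hA, hAB⟩ := h
  obtain ⟨G, hG, hY, hN⟩ := exists_oFilter (omegaHull A) (omegaClosed_hull A) μ₀
    (closure_mono (subset_hull A) hA)
  refine ⟨G, hG, mem_of_superset hY ?_, hN⟩
  rintro μ ⟨B, hBA, hBc, hμ⟩ rfl
  exact hAB B hBA hBc hμ

end Pool.Agent.RadT
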