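import Mathlib
import Pool.Agent.RadT.Basic
import Pool.Agent.RadT.Filt

/-!
# Images of regular measures, the Hausdorff property of `P(X)`, tightness and omega-closed sets
-/

open MeasureTheory Set Filter
open scoped Topology ENNReal BoundedContinuousFunction CompactlySupported

namespace Pool.Agent.RadT

open Pool.Agent.PolT

section

variable {T : Type*} [TopologicalSpace T]

/-- countable tightness at a point and omega-closed sets -/
theorem tightAt_iff {y : T} : TightAt y ↔ ∀ F : Set T, OmegaClosed F → y ∈ closure F → y ∈ F := by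
  constructor
  · intro h F hF hy
    obtain ⟨B, hBF, hBc, hyB⟩ := h F hy
    exact hF B hBF hBc hyB
  · intro h A hA
    obtain ⟨B, hBA, hBc, hyB⟩ := h (omegaHull A) (omegaClosed_hull A) (closure_mono (subset_hull A) hA)
    exact ⟨B, hBA, hBc, hyB⟩

theorem OmegaClosed.isClosed {F : Set T} (hF : OmegaClosed F) (h : ∀ y : T, TightAt y) :
    IsClosed F := by
  refine isClosed_of_closure_subset fun y hy => ?_
  exact tightAt_iff.mp (h y) F hF hy

theorem OmegaClosed.preimage {T' : Type*} [TopologicalSpace T'] {F : Set T} (hF : OmegaClosed F)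
    {g : T' → T} (hg : Continuous g) : OmegaClosed (g ⁻¹' F) := by
  intro C hC hCc y hy
  refine hF (g '' C) (image_subset_iff.mpr hC) (hCc.image g) ?_
  exact image_closure_subset_closure_image hg ⟨y, hy, rfl⟩

/-- images of omega-closed sets -/
theorem OmegaClosed.image {T' : Type*} [TopologicalSpace T'] [CompactSpace T] [T2Space T']
    {F : Set T} (hF : OmegaClosed F) {g : T → T'} (hg : ContinuousOn g F) :
    OmegaClosed (g '' F) := by
  intro C hC hCc
  have hex : ∀ c : C, ∃ a, a ∈ F ∧ g a = c := fun c => hC c.2
  choose s hs1 hs2 using hex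
  have : Countable C := hCc.to_subtype
  have h1 : range s ⊆ F := by
    rintro _ ⟨c, rfl⟩
    exact hs1 c
  have h2 : closure (range s) ⊆ F := hF _ h1 (countable_range s)
  have h3 : IsCompact (g '' closure (range s)) :=
    isClosed_closure.isCompact.image_of_continuousOn (hg.mono h2)
  refine (closure_minimal ?_ h3.isClosed).trans (image_mono h2)
  intro c hc
  exact ⟨s ⟨c, hc⟩, subset_closure ⟨⟨c, hc⟩, rfl⟩, hs2 ⟨c, hc⟩⟩

end

section

variable {X : Type} [TopologicalSpace X] [CompactSpace X] [T2Space X]
  [MeasurableSpace X] [BorelSpace X]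

theorem P_ext_int {μ ν : P X} (h : ∀ f : C(X, ℝ), ∫ x, f x ∂(ms μ) = ∫ x, f x ∂(ms ν)) : μ = ν := by
  have h1 : ms μ = ms ν :=
    Measure.ext_of_integral_eq_on_compactlySupported fun f => h f.toContinuousMap
  exact Subtype.ext (Subtype.ext h1)

instance t2Space_P : T2Space (P X) := by
  refine T2Space.of_injective_continuous (f := fun μ : P X => fun f : C(X, ℝ) => ∫ x, f x ∂(ms μ))
    ?_ (continuous_pi fun f => continuous_int f)
  intro μ ν h
  exact P_ext_int fun f => congrFun h f

/-- continuity of maps into `P(X)` -/
theorem continuousOn_P {T : Type*} [TopologicalSpace T] {g : T → P X} {s : Set T}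
    (h : ∀ f : C(X, ℝ), ContinuousOn (fun t => ∫ x, f x ∂(ms (g t))) s) : ContinuousOn g s := by
  intro t ht
  have h1 : Tendsto (fun t => (g t).1) (𝓝[s] t) (𝓝 (g t).1) := by
    rw [ProbabilityMeasure.tendsto_iff_forall_integral_tendsto]
    intro f
    exact h f.toContinuousMap t ht
  exact tendsto_subtype_rng.mpr h1

theorem continuous_P {T : Type*} [TopologicalSpace T] {g : T → P X}
    (h : ∀ f : C(X, ℝ), Continuous (fun t => ∫ x, f x ∂(ms (g t)))) : Continuous g := by
  rw [← continuousOn_univ]
  exact continuousOn_P fun f => (h f).continuousOn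

variable {Y : Type} [TopologicalSpace Y] [CompactSpace Y] [T2Space Y]
  [MeasurableSpace Y] [BorelSpace Y]

/-- a regular version of a Borel probability measure -/
theorem exists_regular (m : Measure X) [IsProbabilityMeasure m] : ∃ ν : P X, ∀ f : C(X, ℝ),
    ∫ x, f x ∂(ms ν) = ∫ x, f x ∂m := by
  obtain ⟨ν, hν1, hν2, hν3⟩ := Measure.exists_regular_eq_of_compactSpace m
  have hν4 : IsProbabilityMeasure ν := by
    have h := hν3 (BoundedContinuousFunction.const X (1 : ℝ))
    simp only [BoundedContinuousFunction.const_apply, integral_const, smul_eq_mul, mul_one,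
      probReal_univ] at h
    constructor
    have h2 : ν univ = ENNReal.ofReal (ν.real univ) := by
      rw [Measure.real, ENNReal.ofReal_toReal (measure_ne_top _ _)]
    rw [h2, ← h]
    simp
  exact ⟨⟨⟨ν, hν4⟩, hν1⟩, fun f => (hν3 (BoundedContinuousFunction.mkOfCompact f)).symm⟩

theorem regular_map (μ : P X) (f : C(X, Y)) : ((ms μ).map f).Regular := by
  have h1 : ((ms μ).map f).InnerRegular :=
    Measure.InnerRegular.map_of_continuous (μ := ms μ) f.continuous
  have : IsProbabilityMeasure ((ms μ).map f) :=
    Measure.isProbabilityMeasure_map f.continuous.measurable.aemeasurable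
  infer_instance

/-- the image of a point of `P(X)` under a continuous map -/
noncomputable def mapP (f : C(X, Y)) (μ : P X) : P Y :=
  ⟨⟨(ms μ).map f, Measure.isProbabilityMeasure_map f.continuous.measurable.aemeasurable⟩,
    regular_map μ f⟩

theorem mapP_apply (f : C(X, Y)) (μ : P X) {B : Set Y} (hB : MeasurableSet B) :
    ms (mapP f μ) B = ms μ (f ⁻¹' B) := Measure.map_apply f.continuous.measurable hB

theorem mapP_integral (f : C(X, Y)) (μ : P X) (g : C(Y, ℝ)) :
    ∫ y, g y ∂(ms (mapP f μ)) = ∫ x, g (f x) ∂(ms μ) :=
  integral_map f.continuous.measurable.aemeasurable g.continuous.aestronglyMeasurable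

theorem continuous_mapP (f : C(X, Y)) : Continuous (mapP f) := by
  refine continuous_P fun g => ?_
  simp only [mapP_integral]
  exact continuous_int (g.comp f)

theorem mapP_dirac (f : C(X, Y)) (x : X) : mapP f (dirac x) = dirac (f x) := by
  refine P_ext_int fun g => ?_
  rw [mapP_integral]
  have h1 : ms (dirac x) = Measure.dirac x := rfl
  have h2 : ms (dirac (f x)) = Measure.dirac (f x) := rfl
  rw [h1, h2, integral_dirac, integral_dirac]

theorem ms_dirac_eq_one_iff {x : X} {μ : P X} : ms μ {x} = 1 ↔ μ = dirac x := by
  constructor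
  · intro h
    refine eq_dirac ?_
    rw [prob_compl_eq_one_sub (measurableSet_singleton x), h, tsub_self]
  · rintro rfl
    have h1 : ms (dirac x) = Measure.dirac x := rfl
    rw [h1, Measure.dirac_apply' x (measurableSet_singleton x)]
    simp

/-- measures concentrated on the range of an injective map come from measures upstairs -/
theorem exists_mapP (g : C(Y, X)) (hg : Function.Injective g) (ρ : P X) (hρ : ms ρ (range g) = 1) :
    ∃ σ : P Y, mapP g σ = ρ := by
  have hemb : Topology.IsClosedEmbedding g := g.continuous.isClosedEmbedding hg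
  have hme : MeasurableEmbedding g := hemb.measurableEmbedding
  have hr : MeasurableSet (range g) := hme.measurableSet_range
  have hp : IsProbabilityMeasure ((ms ρ).comap g) := by
    constructor
    rw [hme.comap_apply, image_univ, hρ]
  obtain ⟨σ, hσ⟩ := exists_regular ((ms ρ).comap g)
  refine ⟨σ, P_ext_int fun f => ?_⟩
  rw [mapP_integral]
  have h1 := hσ (f.comp g)
  simp only [ContinuousMap.comp_apply] at h1
  rw [h1, ← hme.integral_map (μ := (ms ρ).comap g) (fun x => f x), hme.map_comap]
  have h2 : (ms ρ).restrict (range g) = ms ρ := by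
    refine Measure.restrict_eq_self_of_ae_mem ?_
    rw [ae_iff]
    have : {x | ¬ x ∈ range g} = (range g)ᶜ := rfl
    rw [this, prob_compl_eq_one_sub hr, hρ, tsub_self]
  rw [h2]

theorem mapP_injective (g : C(Y, X)) (hg : Function.Injective g) : Function.Injective (mapP g) := by
  intro σ τ h
  refine P_ext fun U hU => ?_
  have hemb : Topology.IsClosedEmbedding g := g.continuous.isClosedEmbedding hg
  have hme : MeasurableEmbedding g := hemb.measurableEmbedding
  have h1 : ms (mapP g σ) (g '' U) = ms (mapP g τ) (g '' U) := by rw [h]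
  rw [mapP_apply g σ (hme.measurableSet_image.mpr hU.measurableSet),
    mapP_apply g τ (hme.measurableSet_image.mpr hU.measurableSet), preimage_image_eq _ hg] at h1
  exact h1

end

end Pool.Agent.RadT
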