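import Mathlib
import Pool.Agent.RadT.FiltM
import Pool.Agent.RadT.Push

/-!
# Restriction to a Borel set is continuous on a member of the filter
-/

open MeasureTheory Set Filter
open scoped Topology ENNReal BoundedContinuousFunction CompactlySupported

namespace Pool.Agent.RadT

open Pool.Agent.PolT

variable {X : Type} [TopologicalSpace X] [CompactSpace X] [T2Space X]
  [MeasurableSpace X] [BorelSpace X]

theorem integrable_of_cont (f : C(X, ℝ)) (μ : Measure X) [IsFiniteMeasure μ] :
    Integrable (fun x => f x) μ :=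
  f.continuous.integrable_of_hasCompactSupport (HasCompactSupport.of_compactSpace _)

/-- upper semicontinuity of integrals over closed sets -/
theorem usc_int {H : Set X} (hH : IsClosed H) (f : C(X, ℝ)) (hf : ∀ x, 0 ≤ f x) (μ₁ : P X)
    {ε : ℝ} (hε : 0 < ε) :
    ∀ᶠ μ : P X in 𝓝 μ₁, ∫ x in H, f x ∂(ms μ) < ∫ x in H, f x ∂(ms μ₁) + ε := by
  set M : ℝ := ‖f‖ + 1 with hM
  have hMpos : 0 < M := by have := norm_nonneg f; linarith
  have hfM : ∀ x, f x ≤ M := fun x => by
    have := (le_abs_self (f x)).trans (f.norm_coe_le_norm x)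
    linarith
  have hδ : ENNReal.ofReal (ε / (2 * M)) ≠ 0 := by
    rw [Ne, ENNReal.ofReal_eq_zero, not_le]
    positivity
  obtain ⟨U, hHU, hU, -, hUH⟩ := hH.measurableSet.exists_isOpen_sdiff_lt (μ := ms μ₁)
    (measure_ne_top _ _) hδ
  have hUH' : (ms μ₁).real (U \ H) < ε / (2 * M) := by
    rw [Measure.real]
    refine (ENNReal.lt_ofReal_iff_toReal_lt (measure_ne_top _ _)).mp hUH
  obtain ⟨h, hh1, hh2, hh3, hh4⟩ :=
    exists_continuousMap_one_of_isCompact_subset_isOpen hH.isCompact hU hHU
  have hhf : ∀ x, (h * f) x = h x * f x := fun x => rfl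
  have h1 : ∀ μ : P X, ∫ x in H, f x ∂(ms μ) ≤ ∫ x, (h * f) x ∂(ms μ) := by
    intro μ
    rw [← integral_indicator hH.measurableSet]
    refine integral_mono ((integrable_of_cont f _).indicator hH.measurableSet)
      (integrable_of_cont _ _) ?_
    intro x
    by_cases hx : x ∈ H
    · simp [hx, hh1 hx]
    · simp only [indicator_of_notMem hx, hhf]
      exact mul_nonneg (hh4 x).1 (hf x)
  have h2 : ∫ x, (h * f) x ∂(ms μ₁) ≤ ∫ x in H, f x ∂(ms μ₁) + ε / 2 := by
    have h3 : ∫ x, (h * f) x ∂(ms μ₁) ≤ ∫ x in U, f x ∂(ms μ₁) := by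
      rw [← integral_indicator hU.measurableSet]
      refine integral_mono (integrable_of_cont _ _)
        ((integrable_of_cont f _).indicator hU.measurableSet) ?_
      intro x
      by_cases hx : x ∈ U
      · simp only [indicator_of_mem hx, hhf]
        have := mul_le_mul_of_nonneg_right (hh4 x).2 (hf x)
        simpa using this
      · have : x ∉ tsupport h := fun h' => hx (hh3 h')
        simp [hx, hhf, image_eq_zero_of_notMem_tsupport this]
    have h4 : ∫ x in U, f x ∂(ms μ₁) = ∫ x in H, f x ∂(ms μ₁) + ∫ x in U \ H, f x ∂(ms μ₁) := by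
      rw [← setIntegral_union disjoint_sdiff_right (hU.measurableSet.diff hH.measurableSet)
        (integrable_of_cont f _).integrableOn (integrable_of_cont f _).integrableOn,
        Set.union_sdiff_cancel hHU]
    have h5 : ∫ x in U \ H, f x ∂(ms μ₁) ≤ M * (ms μ₁).real (U \ H) := by
      have := setIntegral_mono_on (μ := ms μ₁) (s := U \ H) (f := fun x => f x) (g := fun _ => M)
        (integrable_of_cont f _).integrableOn (integrable_const M).integrableOn
        (hU.measurableSet.diff hH.measurableSet) (fun x _ => hfM x)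
      rw [setIntegral_const, smul_eq_mul, mul_comm] at this
      exact this
    have h6 : M * (ms μ₁).real (U \ H) ≤ ε / 2 := by
      have := mul_le_mul_of_nonneg_left hUH'.le hMpos.le
      have h7 : M * (ε / (2 * M)) = ε / 2 := by field_simp
      linarith
    linarith
  have h8 : ∀ᶠ μ : P X in 𝓝 μ₁, ∫ x, (h * f) x ∂(ms μ) < ∫ x, (h * f) x ∂(ms μ₁) + ε / 2 :=
    ((continuous_int (h * f)).tendsto μ₁).eventually (gt_mem_nhds (by linarith))
  filter_upwards [h8] with μ hμ
  have := h1 μ
  linarith

/-- on a set where the mass of a closed set is constant, integrals over it are continuous -/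
theorem continuousOn_closed {H : Set X} (hH : IsClosed H) {F : Set (P X)} {c : ℝ}
    (hF : ∀ μ ∈ F, (ms μ).real H = c) (f : C(X, ℝ)) :
    ContinuousOn (fun μ : P X => ∫ x in H, f x ∂(ms μ)) F := by
  intro μ₁ hμ₁
  set M : ℝ := ‖f‖ with hM
  have hfM : ∀ x, |f x| ≤ M := fun x => f.norm_coe_le_norm x
  rw [ContinuousWithinAt, Metric.tendsto_nhds]
  intro ε hε
  have h1 := usc_int hH (f + ContinuousMap.const X M) (fun x => by
    have := (abs_le.mp (hfM x)).1
    simp only [ContinuousMap.add_apply, ContinuousMap.const_apply]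
    linarith) μ₁ hε
  have h2 := usc_int hH (ContinuousMap.const X M - f) (fun x => by
    have := (abs_le.mp (hfM x)).2
    simp only [ContinuousMap.sub_apply, ContinuousMap.const_apply]
    linarith) μ₁ hε
  have e1 : ∀ μ ∈ F, ∫ x in H, (f + ContinuousMap.const X M) x ∂(ms μ) =
      ∫ x in H, f x ∂(ms μ) + c * M := by
    intro μ hμ
    simp only [ContinuousMap.add_apply, ContinuousMap.const_apply]
    rw [integral_add (integrable_of_cont f _).integrableOn (integrable_const M).integrableOn,
      setIntegral_const, smul_eq_mul, hF μ hμ]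
  have e2 : ∀ μ ∈ F, ∫ x in H, (ContinuousMap.const X M - f) x ∂(ms μ) =
      c * M - ∫ x in H, f x ∂(ms μ) := by
    intro μ hμ
    simp only [ContinuousMap.sub_apply, ContinuousMap.const_apply]
    rw [integral_sub (integrable_const M).integrableOn (integrable_of_cont f _).integrableOn,
      setIntegral_const, smul_eq_mul, hF μ hμ]
  filter_upwards [nhdsWithin_le_nhds h1, nhdsWithin_le_nhds h2, self_mem_nhdsWithin] with μ a b hμ
  rw [e1 μ hμ, e1 μ₁ hμ₁] at a
  rw [e2 μ hμ, e2 μ₁ hμ₁] at b
  rw [Real.dist_eq, abs_lt]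
  constructor <;> linarith

/-- restriction to the Borel set `E` is continuous on some member of the filter -/
def Good (G : Filter (P X)) (E : Set X) : Prop :=
  ∃ F ∈ G, OmegaClosed F ∧ ∀ f : C(X, ℝ), ContinuousOn (fun μ : P X => ∫ x in E, f x ∂(ms μ)) F

theorem OFilter.good {G : Filter (P X)} (hG : OFilter G) {E : Set X} (hE : MeasurableSet E) :
    Good G E := by
  have := hG.ne
  have := hG.cif
  obtain ⟨m, hmp, hm⟩ := hG.exists_measure
  have hgen : (inferInstance : MeasurableSpace X) = MeasurableSpace.generateFrom {s | IsClosed s} := by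
    rw [← borel_eq_generateFrom_isClosed]
    exact BorelSpace.measurable_eq
  refine MeasurableSpace.induction_on_inter (C := fun E _ => Good G E)
    hgen isPiSystem_isClosed ?_ ?_ ?_ ?_ E hE
  · exact ⟨univ, univ_mem, omegaClosed_of_isClosed isClosed_univ, fun f => by
      simp only [Measure.restrict_empty, integral_zero_measure]
      exact continuousOn_const⟩
  · intro H hH
    have hH : IsClosed H := hH
    obtain ⟨F, hF, hFc, hFs⟩ := hG.basis _ (hm H hH.measurableSet)
    refine ⟨F, hF, hFc, fun f => continuousOn_closed hH (c := m.real H) (fun μ hμ => ?_) f⟩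
    have : ms μ H = m H := hFs hμ
    rw [Measure.real, Measure.real, this]
  · rintro E hE ⟨F, hF, hFc, h⟩
    refine ⟨F, hF, hFc, fun f => ?_⟩
    have e : (fun μ : P X => ∫ x in Eᶜ, f x ∂(ms μ)) =
        fun μ : P X => ∫ x, f x ∂(ms μ) - ∫ x in E, f x ∂(ms μ) := by
      ext μ
      rw [← integral_add_compl hE (integrable_of_cont f (ms μ))]
      ring
    rw [e]
    exact (continuous_int f).continuousOn.sub (h f)
  · intro g hd hg h
    choose F hF hFc hFs using h
    have h1 : ∀ n, ∀ᶠ μ in G, ms μ (g n) = m (g n) := fun n => hm _ (hg n)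
    obtain ⟨F', hF', hF'c, hF's⟩ := hG.basis _
      (inter_mem (eventually_countable_forall.mpr fun n => hF n) (eventually_countable_forall.mpr h1))
    refine ⟨F', hF', hF'c, fun f => ?_⟩
    have e : (fun μ : P X => ∫ x in ⋃ n, g n, f x ∂(ms μ)) =
        fun μ : P X => ∑' n, ∫ x in g n, f x ∂(ms μ) := by
      ext μ
      exact integral_iUnion hg (fun i j hij => hd hij) (integrable_of_cont f _).integrableOn
    rw [e]
    refine continuousOn_tsum (u := fun n => ‖f‖ * m.real (g n)) (fun n => ?_) ?_ ?_
    · exact (hFs n f).mono fun μ hμ => (hF's hμ).1 n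
    · refine Summable.mul_left _ ?_
      have h2 : ∑' n, m (g n) ≠ ⊤ := by
        rw [← measure_iUnion (fun i j hij => hd hij) hg]
        exact measure_ne_top _ _
      exact ENNReal.summable_toReal h2
    · intro n μ hμ
      have h3 : (ms μ).real (g n) = m.real (g n) := by
        rw [Measure.real, Measure.real, (hF's hμ).2 n]
      rw [← h3]
      exact norm_setIntegral_le_of_norm_le_const (measure_lt_top _ _)
        (fun x _ => f.norm_coe_le_norm x)

end Pool.Agent.RadT
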