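import Mathlib
import Pool.Agent.RadT.Good
import Pool.Agent.PolT.Cover

/-!
# Additivity of the limit measure for point-finite and point-countable families
-/

open MeasureTheory Set Filter
open scoped Topology ENNReal Cardinal BoundedContinuousFunction CompactlySupported

namespace Pool.Agent.RadT

open Pool.Agent.PolT

variable {X : Type} [TopologicalSpace X] [CompactSpace X] [T2Space X]
  [MeasurableSpace X] [BorelSpace X]

/-- vanishing on `V ∩ E` is an omega-closed condition -/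
theorem omegaClosed_null {E : Set X} (hE : MeasurableSet E) {F₀ : Set (P X)}
    (hF₀ : OmegaClosed F₀)
    (hc : ∀ f : C(X, ℝ), ContinuousOn (fun μ : P X => ∫ x in E, f x ∂(ms μ)) F₀)
    {V : Set X} (hV : IsOpen V) : OmegaClosed {μ : P X | μ ∈ F₀ ∧ ms μ (V ∩ E) = 0} := by
  intro C hC hCc ν hν
  have hνF : ν ∈ F₀ := hF₀ C (fun μ hμ => (hC hμ).1) hCc hν
  refine ⟨hνF, ?_⟩
  have hVE : MeasurableSet (V ∩ E) := hV.measurableSet.inter hE
  rw [hVE.measure_eq_iSup_isCompact_of_ne_top (measure_ne_top _ _)]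
  refine le_antisymm (iSup₂_le fun K hK => iSup_le fun hKc => ?_) zero_le
  obtain ⟨f, hf1, -, hf3, hf4⟩ :=
    exists_continuousMap_one_of_isCompact_subset_isOpen hKc hV (hK.trans inter_subset_left)
  have h1 : ∀ μ ∈ C, ∫ x in E, f x ∂(ms μ) = 0 := by
    intro μ hμ
    have h2 : ms μ (V ∩ E) = 0 := (hC hμ).2
    refine integral_eq_zero_of_ae ?_
    have h3 : ∀ᵐ x ∂((ms μ).restrict E), x ∉ V := by
      rw [ae_iff, Measure.restrict_apply₀']
      · simpa using h2
      · exact hE.nullMeasurableSet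
    filter_upwards [h3] with x hx
    have : x ∉ tsupport f := fun h' => hx (hf3 h')
    exact image_eq_zero_of_notMem_tsupport this
  have h4 : ∫ x in E, f x ∂(ms ν) = 0 := by
    have h5 : ContinuousWithinAt (fun μ : P X => ∫ x in E, f x ∂(ms μ)) C ν :=
      (hc f ν hνF).mono fun μ hμ => (hC hμ).1
    have h6 := h5.mem_closure_image hν
    have h7 : (fun μ : P X => ∫ x in E, f x ∂(ms μ)) '' C ⊆ {0} := by
      rintro _ ⟨μ, hμ, rfl⟩
      exact h1 μ hμ
    have h8 := closure_mono h7 h6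
    rw [closure_singleton] at h8
    exact h8
  have h9 : (ms ν).real K ≤ ∫ x in E, f x ∂(ms ν) := by
    have h10 : (ms ν).real K = ∫ x in E, K.indicator (fun _ => (1 : ℝ)) x ∂(ms ν) := by
      rw [setIntegral_indicator hKc.measurableSet, setIntegral_const, smul_eq_mul, mul_one,
        inter_eq_right.mpr (hK.trans inter_subset_right)]
    rw [h10]
    refine integral_mono ((integrable_const (1 : ℝ)).indicator hKc.measurableSet)
      (integrable_of_cont f _) ?_
    intro x
    by_cases hx : x ∈ K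
    · simp [hx, hf1 hx]
    · simp [hx, (hf4 x).1]
  rw [h4] at h9
  have h11 : (ms ν).real K = 0 := le_antisymm h9 measureReal_nonneg
  rw [Measure.real, ENNReal.toReal_eq_zero_iff] at h11
  exact (h11.resolve_right (measure_ne_top _ _)).le

/-- tau-additivity relative to a Borel set -/
theorem iUnion_inter_null (μ : P X) {ι : Type} {V : ι → Set X} (hV : ∀ i, IsOpen (V i)) {E : Set X}
    (hE : MeasurableSet E) (h0 : ∀ i, ms μ (V i ∩ E) = 0) : ms μ ((⋃ i, V i) ∩ E) = 0 := by
  have hVE : MeasurableSet ((⋃ i, V i) ∩ E) := (isOpen_iUnion hV).measurableSet.inter hE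
  rw [hVE.measure_eq_iSup_isCompact_of_ne_top (measure_ne_top _ _)]
  refine le_antisymm (iSup₂_le fun K hK => iSup_le fun hKc => ?_) zero_le
  refine le_of_eq (hKc.measure_zero_of_nhdsWithin fun y hy => ?_)
  obtain ⟨i, hi⟩ := mem_iUnion.mp (hK hy).1
  refine ⟨V i ∩ K, inter_mem (mem_nhdsWithin_of_mem_nhds ((hV i).mem_nhds hi)) self_mem_nhdsWithin,
    measure_mono_null (inter_subset_inter_right _ (hK.trans inter_subset_right)) (h0 i)⟩

/-- the limit measure inherits additivity for families of which regular measures charge only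
countably many members -/
theorem OFilter.additive_index {G : Filter (P X)} (hG : OFilter G) {m : Measure X}
    (hm : ∀ B, MeasurableSet B → ∀ᶠ μ in G, ms μ B = m B) {E : Set X} (hE : MeasurableSet E)
    {ι : Type} {V : ι → Set X} (hV : ∀ i, IsOpen (V i))
    (hc : ∀ μ : P X, {i | ms μ (V i ∩ E) ≠ 0}.Countable) (h0 : ∀ i, m (V i ∩ E) = 0) :
    m ((⋃ i, V i) ∩ E) = 0 := by
  classical
  have := hG.ne
  have := hG.cif
  obtain ⟨F₀, hF₀, hF₀c, hF₀s⟩ := hG.good hE
  have hcl : ∀ i, OmegaClosed {μ : P X | μ ∈ F₀ ∧ ms μ (V i ∩ E) = 0} := fun i =>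
    omegaClosed_null hE hF₀c hF₀s (hV i)
  have hEc : OmegaClosed {μ : P X | μ ∈ F₀ ∧ ∀ i, ms μ (V i ∩ E) = 0} := by
    intro C hC hCc ν hν
    refine ⟨hF₀c C (fun μ hμ => (hC hμ).1) hCc hν, fun i => ?_⟩
    exact (hcl i C (fun μ hμ => ⟨(hC hμ).1, (hC hμ).2 i⟩) hCc hν).2
  have hmem : {μ : P X | μ ∈ F₀ ∧ ∀ i, ms μ (V i ∩ E) = 0} ∈ G := by
    refine hG.max _ hEc fun F hF => ?_
    obtain ⟨F₁, hF₁, hF₁c, hF₁s⟩ := hG.basis _ (inter_mem hF hF₀)
    have hstep : ∀ C : {C : Set ι // C.Countable},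
        ∃ μ : P X, μ ∈ F₁ ∧ ∀ i ∈ C.1, ms μ (V i ∩ E) = 0 := by
      rintro ⟨C, hCc⟩
      have h1 : ∀ᶠ μ in G, ∀ i ∈ C, ms μ (V i ∩ E) = 0 := by
        refine (eventually_countable_ball hCc).mpr fun i hi => ?_
        have := hm (V i ∩ E) ((hV i).measurableSet.inter hE)
        rw [h0 i] at this
        exact this
      exact ((eventually_of_mem hF₁ fun μ hμ => hμ).and h1).exists
    choose M hM1 hM2 using hstep
    let nxt : {C : Set ι // C.Countable} → {C : Set ι // C.Countable} :=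
      fun C => ⟨C.1 ∪ {i | ms (M C) (V i ∩ E) ≠ 0}, C.2.union (hc (M C))⟩
    let Cs : ℕ → {C : Set ι // C.Countable} := fun n =>
      Nat.rec ⟨∅, countable_empty⟩ (fun _ D => nxt D) n
    have hCs : ∀ n, Cs (n + 1) = nxt (Cs n) := fun n => rfl
    have hmono : Monotone fun n => (Cs n).1 := monotone_nat_of_le_succ fun n => by
      rw [hCs]; exact subset_union_left
    obtain ⟨ν, hν⟩ := exists_cluster_seq fun n => M (Cs n)
    have hνF : ν ∈ F₁ := hν F₁ hF₁c (Eventually.of_forall fun n => hM1 _)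
    have hνF₀ : ν ∈ F₀ := (hF₁s hνF).2
    refine ⟨ν, ⟨hνF₀, fun i => ?_⟩, (hF₁s hνF).1⟩
    refine (hν _ (hcl i) ?_).2
    have h1 : ∀ᶠ n in atTop, ms (M (Cs n)) (V i ∩ E) = 0 := by
      by_cases h : ∃ k, ms (M (Cs k)) (V i ∩ E) ≠ 0
      · obtain ⟨k, hk⟩ := h
        have h3 : i ∈ (Cs (k + 1)).1 := by
          rw [hCs]
          exact Or.inr hk
        filter_upwards [eventually_ge_atTop (k + 1)] with n hn
        exact hM2 _ i (hmono hn h3)
      · push Not at h
        exact Eventually.of_forall h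
    filter_upwards [h1] with n hn
    exact ⟨(hF₁s (hM1 _)).2, hn⟩
  have hmeas : MeasurableSet ((⋃ i, V i) ∩ E) := (isOpen_iUnion hV).measurableSet.inter hE
  obtain ⟨μ, h1, h2⟩ := ((eventually_of_mem hmem fun μ hμ => hμ).and (hm _ hmeas)).exists
  rw [← h2]
  exact iUnion_inter_null μ hV hE h1.2

/-- a finite measure charges only countably many members of a point-finite family -/
theorem countable_index_pointFinite (μ : P X) {ι : Type} {s : ι → Set X}
    (hs : ∀ i, MeasurableSet (s i)) (hf : ∀ z, {i | z ∈ s i}.Finite) :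
    {i | ms μ (s i) ≠ 0}.Countable := by
  classical
  by_contra hcount
  have hsub : {i | ms μ (s i) ≠ 0} ⊆ ⋃ k : ℕ, {i | ((k : ℝ≥0∞))⁻¹ < ms μ (s i)} := by
    intro i h0
    obtain ⟨k, hk⟩ := ENNReal.exists_inv_nat_lt h0
    exact mem_iUnion.mpr ⟨k, hk⟩
  have hex : ∃ k : ℕ, ¬ {i | ((k : ℝ≥0∞))⁻¹ < ms μ (s i)}.Countable := by
    by_contra h
    push Not at h
    exact hcount ((countable_iUnion h).mono hsub)
  obtain ⟨k, hk⟩ := hex
  have hinf : {i | ((k : ℝ≥0∞))⁻¹ < ms μ (s i)}.Infinite := fun h => hk h.countable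
  let g := hinf.natEmbedding
  let D : ℕ → Set X := fun n => ⋃ i, ⋃ (_ : n ≤ i), s (g i).1
  have hD : Antitone D := by
    intro m n hmn
    refine iUnion_mono fun i => ?_
    exact iUnion_subset fun h => subset_iUnion (fun (_ : m ≤ i) => s (g i).1) (hmn.trans h)
  have hDm : ∀ n, MeasurableSet (D n) := fun n =>
    MeasurableSet.iUnion fun i => MeasurableSet.iUnion fun _ => hs _
  have hlim := tendsto_measure_iInter_atTop (μ := ms μ) (fun n => (hDm n).nullMeasurableSet) hD
    ⟨0, measure_ne_top _ _⟩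
  have hge : ∀ n, ((k : ℝ≥0∞))⁻¹ ≤ ms μ (D n) := by
    intro n
    have h9 : ((k : ℝ≥0∞))⁻¹ < ms μ (s (g n).1) := (g n).2
    refine h9.le.trans (measure_mono ?_)
    exact fun z hz => mem_iUnion₂.mpr ⟨n, le_rfl, hz⟩
  have h1 : ((k : ℝ≥0∞))⁻¹ ≤ ms μ (⋂ n, D n) := ge_of_tendsto' hlim hge
  have h2 : (⋂ n, D n).Nonempty := by
    by_contra h
    rw [not_nonempty_iff_eq_empty] at h
    rw [h, measure_empty, nonpos_iff_eq_zero, ENNReal.inv_eq_zero] at h1
    exact ENNReal.natCast_ne_top k h1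
  obtain ⟨z, hz⟩ := h2
  have h3 : {i | z ∈ s (g i).1}.Infinite := by
    rw [Set.infinite_iff_exists_gt]
    intro n
    obtain ⟨i, hi, hzi⟩ := mem_iUnion₂.mp (mem_iInter.mp hz (n + 1))
    exact ⟨i, hzi, by omega⟩
  have hinj : Function.Injective fun i => (g i).1 := Subtype.val_injective.comp g.injective
  exact h3 ((hf z).preimage hinj.injOn)

/-- without a covering by `ℵ₁` null sets, a regular measure charges only countably many members of
a point-countable family -/
theorem countable_index_pointCountable (hnc : ¬ NullCover) (μ : P X) {ι : Type} {s : ι → Set X}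
    (hs : ∀ i, MeasurableSet (s i)) (hf : ∀ z, {i | z ∈ s i}.Countable) :
    {i | ms μ (s i) ≠ 0}.Countable := by
  by_contra hcount
  have hsub : {i | ms μ (s i) ≠ 0} ⊆ ⋃ k : ℕ, {i | 1 / ((k : ℝ) + 1) ≤ (ms μ).real (s i)} := by
    intro i h0
    have h3 : 0 < (ms μ).real (s i) := ENNReal.toReal_pos h0 (measure_ne_top _ _)
    obtain ⟨k, hk⟩ := exists_nat_one_div_lt h3
    exact mem_iUnion.mpr ⟨k, hk.le⟩
  have hex : ∃ k : ℕ, ¬ {i | 1 / ((k : ℝ) + 1) ≤ (ms μ).real (s i)}.Countable := by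
    by_contra h
    push Not at h
    exact hcount ((countable_iUnion h).mono hsub)
  obtain ⟨k, hG⟩ := hex
  have hGW : #W ≤ #{i | 1 / ((k : ℝ) + 1) ≤ (ms μ).real (s i)} := by
    have : Uncountable {i | 1 / ((k : ℝ) + 1) ≤ (ms μ).real (s i)} := by
      rw [← not_countable_iff]
      exact fun h => hG (Set.countable_coe_iff.mp h)
    rw [mk_W]
    exact Cardinal.aleph_one_le_iff.mpr (Cardinal.aleph0_lt_mk_iff.mpr this)
  obtain ⟨g⟩ := hGW
  refine hnc (nullCover_of_family (ms μ) (fun i => s (g i).1) (fun i => hs _)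
    (fun z => ?_) (1 / ((k : ℝ) + 1)) (by positivity) (fun i => (g i).2))
  have hinj : Function.Injective fun i : W => (g i).1 :=
    Subtype.val_injective.comp g.injective
  exact (hf z).preimage hinj

end Pool.Agent.RadT
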