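import Mathlib
import Pool.Agent.RadT.Basic
import Pool.Agent.PolT.Cover

/-!
# Countable tightness of `P(X)` at `δ_x` from covers of the complement of `x`
-/

open MeasureTheory Set Filter
open scoped Topology ENNReal Cardinal

namespace Pool.Agent.RadT

open Pool.Agent.PolT

variable {X : Type} [TopologicalSpace X] [CompactSpace X] [T2Space X]
  [MeasurableSpace X] [BorelSpace X]

/-- one step: a measure in the closure of a countable part of `A`, vanishing on countably many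
open sets whose closures miss `x` -/
theorem step {x : X} {A : Set (P X)} (hA : dirac x ∈ closure A) {C : Set (Set X)}
    (hC : C.Countable) (ho : ∀ V ∈ C, IsOpen V) (hx : ∀ V ∈ C, x ∉ closure V) :
    ∃ (μ : P X) (B : Set (P X)), B ⊆ A ∧ B.Countable ∧ μ ∈ closure B ∧
      ∀ V ∈ C, ms μ V = 0 := by
  classical
  obtain ⟨g, hg⟩ := (hC.insert (∅ : Set X)).exists_eq_range (insert_nonempty _ _)
  have hgm : ∀ n, g n ∈ insert (∅ : Set X) C := fun n => by rw [hg]; exact mem_range_self n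
  have hgo : ∀ n, IsOpen (g n) := by
    intro n
    rcases hgm n with h | h
    · rw [h]; exact isOpen_empty
    · exact ho _ h
  have hgx : ∀ n, x ∉ closure (g n) := by
    intro n
    rcases hgm n with h | h
    · rw [h]; simp
    · exact hx _ h
  let H : ℕ → Set X := fun n => ⋃ k ∈ Finset.range (n + 1), closure (g k)
  have hHc : ∀ n, IsClosed (H n) := fun n =>
    isClosed_biUnion_finset fun k _ => isClosed_closure
  have hHx : ∀ n, x ∉ H n := by
    intro n h
    obtain ⟨k, _, hk⟩ := mem_iUnion₂.mp h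
    exact hgx k hk
  have hpos : ∀ n : ℕ, (0 : ℝ≥0∞) < ((n : ℝ≥0∞) + 1)⁻¹ := by
    intro n
    rw [ENNReal.inv_pos]
    finiteness
  have hex : ∀ n, ∃ a ∈ A, ms a (H n) < ((n : ℝ≥0∞) + 1)⁻¹ := by
    intro n
    have h1 : ms (dirac x) (H n) < ((n : ℝ≥0∞) + 1)⁻¹ := by
      have h2 : ms (dirac x) = Measure.dirac x := rfl
      rw [h2, Measure.dirac_apply' x (hHc n).measurableSet, indicator_of_notMem (hHx n)]
      exact hpos n
    obtain ⟨a, ha1, ha2⟩ := mem_closure_iff.mp hA _ (isOpen_lt (hHc n) _) h1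
    exact ⟨a, ha2, ha1⟩
  choose a haA ha using hex
  obtain ⟨ν, hν⟩ := exists_cluster a
  refine ⟨ν, range a, range_subset_iff.mpr haA, countable_range a, ?_, ?_⟩
  · exact hν _ isClosed_closure (Eventually.of_forall fun n => subset_closure (mem_range_self n))
  · intro V hV
    have : V ∈ insert (∅ : Set X) C := Or.inr hV
    rw [hg] at this
    obtain ⟨k, rfl⟩ := this
    have hle : ∀ m : ℕ, ms ν (g k) ≤ ((m : ℝ≥0∞) + 1)⁻¹ := by
      intro m
      refine hν {μ : P X | ms μ (g k) ≤ ((m : ℝ≥0∞) + 1)⁻¹} (isClosed_le' (hgo k) _) ?_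
      filter_upwards [eventually_ge_atTop (max k m)] with n hn
      have h1 : g k ⊆ H n := by
        refine subset_closure.trans ?_
        exact subset_biUnion_of_mem (u := fun k => closure (g k))
          (by simp; have := le_max_left k m; omega)
      refine (measure_mono h1).trans ((ha n).le.trans ?_)
      rw [ENNReal.inv_le_inv]
      gcongr
      exact (le_max_right k m).trans hn
    by_contra hne
    obtain ⟨m, hm⟩ := ENNReal.exists_inv_nat_lt hne
    have h2 := hle m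
    have h3 : ((m : ℝ≥0∞) + 1)⁻¹ ≤ (m : ℝ≥0∞)⁻¹ := by
      rw [ENNReal.inv_le_inv]
      exact le_self_add
    exact absurd (h2.trans h3) (not_le.mpr hm)

/-- **Main criterion.** If the complement of `x` is covered by open sets whose closures miss `x`,
and every regular probability measure charges only countably many of them, then `δ_x` is a point of
countable tightness of `P(X)`. -/
theorem tight_of_cover {x : X} {𝓥 : Set (Set X)} (ho : ∀ V ∈ 𝓥, IsOpen V)
    (hx : ∀ V ∈ 𝓥, x ∉ closure V) (hcov : ({x}ᶜ : Set X) ⊆ ⋃₀ 𝓥)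
    (hc : ∀ μ : P X, {V ∈ 𝓥 | ms μ V ≠ 0}.Countable) : TightAt (dirac x) := by
  classical
  intro A hA
  have hstep : ∀ C : {C : Set (Set X) // C ⊆ 𝓥 ∧ C.Countable},
      ∃ (μ : P X) (B : Set (P X)), B ⊆ A ∧ B.Countable ∧ μ ∈ closure B ∧
        ∀ V ∈ C.1, ms μ V = 0 := by
    rintro ⟨C, hC, hCc⟩
    exact step hA hCc (fun V hV => ho V (hC hV)) (fun V hV => hx V (hC hV))
  choose M B hBA hBc hMB hM0 using hstep
  let nxt : {C : Set (Set X) // C ⊆ 𝓥 ∧ C.Countable} → {C : Set (Set X) // C ⊆ 𝓥 ∧ C.Countable} :=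
    fun C => ⟨C.1 ∪ {V ∈ 𝓥 | ms (M C) V ≠ 0}, union_subset C.2.1 (fun V hV => hV.1),
      C.2.2.union (hc (M C))⟩
  let Cs : ℕ → {C : Set (Set X) // C ⊆ 𝓥 ∧ C.Countable} := fun n =>
    Nat.rec ⟨∅, empty_subset _, countable_empty⟩ (fun _ D => nxt D) n
  have hCs : ∀ n, Cs (n + 1) = nxt (Cs n) := fun n => rfl
  have hmono : Monotone fun n => (Cs n).1 := monotone_nat_of_le_succ fun n => by
    rw [hCs]; exact subset_union_left
  refine ⟨⋃ n, B (Cs n), iUnion_subset fun n => hBA _, countable_iUnion fun n => hBc _, ?_⟩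
  obtain ⟨ν, hν⟩ := exists_cluster fun n => M (Cs n)
  have h1 : ν ∈ closure (⋃ n, B (Cs n)) := by
    refine hν _ isClosed_closure (Eventually.of_forall fun n => ?_)
    exact closure_mono (subset_iUnion (fun n => B (Cs n)) n) (hMB (Cs n))
  have h2 : ∀ V ∈ 𝓥, ms ν V = 0 := by
    intro V hV
    refine hν {μ : P X | ms μ V = 0} (isClosed_zero (ho V hV)) ?_
    by_cases h : ∃ k, ms (M (Cs k)) V ≠ 0
    · obtain ⟨k, hk⟩ := h
      have h3 : V ∈ (Cs (k + 1)).1 := by
        rw [hCs]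
        exact Or.inr ⟨hV, hk⟩
      filter_upwards [eventually_ge_atTop (k + 1)] with n hn
      exact hM0 _ V (hmono hn h3)
    · push Not at h
      exact Eventually.of_forall h
  have h3 : ν = dirac x := eq_dirac (measure_mono_null hcov (sUnion_null ν ho h2))
  rw [← h3]
  exact h1

/-- a finite measure charges only countably many members of a point-finite family of open sets -/
theorem countable_of_pointFinite (μ : P X) {𝓥 : Set (Set X)} (ho : ∀ V ∈ 𝓥, IsOpen V)
    (hf : ∀ z, {V ∈ 𝓥 | z ∈ V}.Finite) : {V ∈ 𝓥 | ms μ V ≠ 0}.Countable := by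
  classical
  by_contra hcount
  have hsub : {V ∈ 𝓥 | ms μ V ≠ 0} ⊆ ⋃ k : ℕ, {V ∈ 𝓥 | ((k : ℝ≥0∞))⁻¹ < ms μ V} := by
    rintro V ⟨hV, h0⟩
    obtain ⟨k, hk⟩ := ENNReal.exists_inv_nat_lt h0
    exact mem_iUnion.mpr ⟨k, hV, hk⟩
  have hex : ∃ k : ℕ, ¬ {V ∈ 𝓥 | ((k : ℝ≥0∞))⁻¹ < ms μ V}.Countable := by
    by_contra h
    push Not at h
    exact hcount ((countable_iUnion h).mono hsub)
  obtain ⟨k, hk⟩ := hex
  have hinf : {V ∈ 𝓥 | ((k : ℝ≥0∞))⁻¹ < ms μ V}.Infinite := fun h => hk h.countable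
  let g := hinf.natEmbedding
  let D : ℕ → Set X := fun n => ⋃ i, ⋃ (_ : n ≤ i), (g i).1
  have hD : Antitone D := by
    intro m n hmn
    refine iUnion_mono fun i => ?_
    exact iUnion_subset fun h => subset_iUnion (fun (_ : m ≤ i) => (g i).1) (hmn.trans h)
  have hDm : ∀ n, MeasurableSet (D n) := fun n =>
    (isOpen_iUnion fun i => isOpen_iUnion fun _ => ho _ (g i).2.1).measurableSet
  have hlim := tendsto_measure_iInter_atTop (μ := ms μ) (fun n => (hDm n).nullMeasurableSet) hD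
    ⟨0, measure_ne_top _ _⟩
  have hge : ∀ n, ((k : ℝ≥0∞))⁻¹ ≤ ms μ (D n) := by
    intro n
    refine (g n).2.2.le.trans (measure_mono ?_)
    exact fun z hz => mem_iUnion₂.mpr ⟨n, le_rfl, hz⟩
  have h1 : ((k : ℝ≥0∞))⁻¹ ≤ ms μ (⋂ n, D n) := ge_of_tendsto' hlim hge
  have h2 : (⋂ n, D n).Nonempty := by
    by_contra h
    rw [not_nonempty_iff_eq_empty] at h
    rw [h, measure_empty, nonpos_iff_eq_zero, ENNReal.inv_eq_zero] at h1
    exact ENNReal.natCast_ne_top k h1
  obtain ⟨z, hz⟩ := h2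
  have h3 : {i | z ∈ (g i).1}.Infinite := by
    rw [Set.infinite_iff_exists_gt]
    intro n
    obtain ⟨i, hi, hzi⟩ := mem_iUnion₂.mp (mem_iInter.mp hz (n + 1))
    exact ⟨i, hzi, by omega⟩
  have hinj : Function.Injective fun i => (g i).1 := Subtype.val_injective.comp g.injective
  have h4 : (((fun i => (g i).1) ⁻¹' {V ∈ 𝓥 | z ∈ V}) : Set ℕ).Finite :=
    (hf z).preimage hinj.injOn
  refine h3 (h4.subset ?_)
  intro i hi
  exact (⟨(g i).2.1, hi⟩ : (g i).1 ∈ 𝓥 ∧ z ∈ (g i).1)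

/-- without a covering by `ℵ₁` null sets, a regular measure charges only countably many members of
a point-countable family of open sets -/
theorem countable_of_pointCountable (hnc : ¬ NullCover) (μ : P X) {𝓥 : Set (Set X)}
    (ho : ∀ V ∈ 𝓥, IsOpen V) (hf : ∀ z, {V ∈ 𝓥 | z ∈ V}.Countable) :
    {V ∈ 𝓥 | ms μ V ≠ 0}.Countable := by
  by_contra hcount
  have hsub : {V ∈ 𝓥 | ms μ V ≠ 0} ⊆ ⋃ k : ℕ, {V ∈ 𝓥 | 1 / ((k : ℝ) + 1) ≤ (ms μ).real V} := by
    rintro V ⟨hV, h0⟩
    have h3 : 0 < (ms μ).real V := ENNReal.toReal_pos h0 (measure_ne_top _ _)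
    obtain ⟨k, hk⟩ := exists_nat_one_div_lt h3
    exact mem_iUnion.mpr ⟨k, hV, hk.le⟩
  have hex : ∃ k : ℕ, ¬ {V ∈ 𝓥 | 1 / ((k : ℝ) + 1) ≤ (ms μ).real V}.Countable := by
    by_contra h
    push Not at h
    exact hcount ((countable_iUnion h).mono hsub)
  obtain ⟨k, hG⟩ := hex
  have hGW : #W ≤ #{V ∈ 𝓥 | 1 / ((k : ℝ) + 1) ≤ (ms μ).real V} := by
    have : Uncountable {V ∈ 𝓥 | 1 / ((k : ℝ) + 1) ≤ (ms μ).real V} := by
      rw [← not_countable_iff]
      exact fun h => hG (Set.countable_coe_iff.mp h)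
    rw [mk_W]
    exact Cardinal.aleph_one_le_iff.mpr (Cardinal.aleph0_lt_mk_iff.mpr this)
  obtain ⟨g⟩ := hGW
  refine hnc (nullCover_of_family (ms μ) (fun i => (g i).1) (fun i => (ho _ (g i).2.1).measurableSet)
    (fun z => ?_) (1 / ((k : ℝ) + 1)) (by positivity) (fun i => (g i).2.2))
  have hinj : Function.Injective fun i : W => (g i).1 :=
    Subtype.val_injective.comp g.injective
  have h4 : (((fun i : W => (g i).1) ⁻¹' {V ∈ 𝓥 | z ∈ V}) : Set W).Countable :=
    (hf z).preimage hinj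
  refine h4.mono ?_
  intro i hi
  exact (⟨(g i).2.1, hi⟩ : (g i).1 ∈ 𝓥 ∧ z ∈ (g i).1)

end Pool.Agent.RadT
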