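import Mathlib
import Pool.Agent.RadT.CoverT
import Pool.Agent.PolT.Meas
import Pool.Agent.PolT.Pos

/-!
# Sigma-metacompact and meta-Lindelöf complements of a point
-/

open MeasureTheory Set Filter
open scoped Topology ENNReal Cardinal

namespace Pool.Agent.RadT

open Pool.Agent.PolT

/-- `Z` is *meta-Lindelöf*: every open cover has an open refinement covering `Z` such that every
point is in at most countably many of its members. -/
def MetaLindelof (Z : Type) [TopologicalSpace Z] : Prop :=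
  ∀ 𝓤 : Set (Set Z), (∀ U ∈ 𝓤, IsOpen U) → ⋃₀ 𝓤 = univ →
    ∃ 𝓥 : Set (Set Z), (∀ V ∈ 𝓥, IsOpen V ∧ ∃ U ∈ 𝓤, V ⊆ U) ∧ ⋃₀ 𝓥 = univ ∧
      ∀ z, {V ∈ 𝓥 | z ∈ V}.Countable

/-- `Z` is *sigma-metacompact*: every open cover has an open refinement covering `Z` which is the
union of countably many point-finite families `𝓥 0, 𝓥 1, ...`. -/
def SigmaMetacompact (Z : Type) [TopologicalSpace Z] : Prop :=
  ∀ 𝓤 : Set (Set Z), (∀ U ∈ 𝓤, IsOpen U) → ⋃₀ 𝓤 = univ →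
    ∃ 𝓥 : ℕ → Set (Set Z), (∀ n, ∀ V ∈ 𝓥 n, IsOpen V ∧ ∃ U ∈ 𝓤, V ⊆ U) ∧
      (⋃ n, ⋃₀ 𝓥 n) = univ ∧ ∀ n z, {V ∈ 𝓥 n | z ∈ V}.Finite

section

variable {X : Type} [TopologicalSpace X] [T2Space X] {x : X}

/-- the cover of `X \ {x}` by open sets whose closures in `X` miss `x` -/
def farSets (x : X) : Set (Set {y : X // y ≠ x}) :=
  {U | IsOpen U ∧ x ∉ closure (Subtype.val '' U)}

theorem sUnion_farSets (x : X) : ⋃₀ farSets x = univ := by
  rw [eq_univ_iff_forall]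
  rintro ⟨z, hz⟩
  obtain ⟨U, W, hU, hW, hzU, hxW, hd⟩ := t2_separation hz
  refine ⟨Subtype.val ⁻¹' U, ⟨hU.preimage continuous_subtype_val, ?_⟩, hzU⟩
  intro h
  obtain ⟨w, hw1, hw2⟩ := mem_closure_iff.mp h W hW hxW
  exact disjoint_left.mp hd (image_preimage_subset _ _ hw2) hw1

theorem isOpen_image {V : Set {y : X // y ≠ x}} (h : IsOpen V) : IsOpen (Subtype.val '' V) :=
  (IsOpen.isOpenMap_subtype_val (s := {y : X | y ≠ x}) isOpen_ne) V h

theorem far_of_subset {U V : Set {y : X // y ≠ x}} (hU : U ∈ farSets x) (h : V ⊆ U) :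
    x ∉ closure (Subtype.val '' V) :=
  fun hx => hU.2 (closure_mono (image_mono h) hx)

/-- the members of a family of images containing `z` -/
theorem image_family (𝓥 : Set (Set {y : X // y ≠ x})) (z : X) (h : z ≠ x) :
    {V ∈ (fun V : Set {y : X // y ≠ x} => (Subtype.val '' V : Set X)) '' 𝓥 | z ∈ V} ⊆
      (fun V : Set {y : X // y ≠ x} => (Subtype.val '' V : Set X)) ''
        {V ∈ 𝓥 | (⟨z, h⟩ : {y : X // y ≠ x}) ∈ V} := by
  rintro _ ⟨⟨V, hV, rfl⟩, ⟨w, hw, rfl⟩⟩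
  exact ⟨V, ⟨hV, hw⟩, rfl⟩

theorem image_family_self (𝓥 : Set (Set {y : X // y ≠ x})) :
    {V ∈ (fun V : Set {y : X // y ≠ x} => (Subtype.val '' V : Set X)) '' 𝓥 | x ∈ V} ⊆ ∅ := by
  rintro _ ⟨⟨V, hV, rfl⟩, ⟨w, hw, hwx⟩⟩
  exact w.2 hwx

theorem exists_pointCountable (h : MetaLindelof {y : X // y ≠ x}) : ∃ 𝓥 : Set (Set X),
    (∀ V ∈ 𝓥, IsOpen V) ∧ (∀ V ∈ 𝓥, x ∉ closure V) ∧ ({x}ᶜ : Set X) ⊆ ⋃₀ 𝓥 ∧
      ∀ z, {V ∈ 𝓥 | z ∈ V}.Countable := by
  obtain ⟨𝓥, h1, h2, h3⟩ := h (farSets x) (fun U hU => hU.1) (sUnion_farSets x)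
  refine ⟨(fun V : Set {y : X // y ≠ x} => (Subtype.val '' V : Set X)) '' 𝓥, ?_, ?_, ?_, ?_⟩
  · rintro _ ⟨V, hV, rfl⟩
    exact isOpen_image (h1 V hV).1
  · rintro _ ⟨V, hV, rfl⟩
    obtain ⟨U, hU, hVU⟩ := (h1 V hV).2
    exact far_of_subset hU hVU
  · intro z hz
    have : (⟨z, hz⟩ : {y : X // y ≠ x}) ∈ ⋃₀ 𝓥 := by rw [h2]; trivial
    obtain ⟨V, hV, hzV⟩ := this
    exact ⟨_, ⟨V, hV, rfl⟩, ⟨_, hzV, rfl⟩⟩
  · intro z
    by_cases hz : z = x
    · subst hz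
      exact countable_empty.mono (image_family_self 𝓥)
    · exact ((h3 ⟨z, hz⟩).image _).mono (image_family 𝓥 z hz)

theorem exists_sigmaPointFinite (h : SigmaMetacompact {y : X // y ≠ x}) : ∃ 𝓥 : ℕ → Set (Set X),
    (∀ n, ∀ V ∈ 𝓥 n, IsOpen V) ∧ (∀ n, ∀ V ∈ 𝓥 n, x ∉ closure V) ∧
      ({x}ᶜ : Set X) ⊆ (⋃ n, ⋃₀ 𝓥 n) ∧ ∀ n z, {V ∈ 𝓥 n | z ∈ V}.Finite := by
  obtain ⟨𝓥, h1, h2, h3⟩ := h (farSets x) (fun U hU => hU.1) (sUnion_farSets x)
  refine ⟨fun n => (fun V : Set {y : X // y ≠ x} => (Subtype.val '' V : Set X)) '' 𝓥 n,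
    ?_, ?_, ?_, ?_⟩
  · rintro n _ ⟨V, hV, rfl⟩
    exact isOpen_image (h1 n V hV).1
  · rintro n _ ⟨V, hV, rfl⟩
    obtain ⟨U, hU, hVU⟩ := (h1 n V hV).2
    exact far_of_subset hU hVU
  · intro z hz
    have : (⟨z, hz⟩ : {y : X // y ≠ x}) ∈ ⋃ n, ⋃₀ 𝓥 n := by rw [h2]; trivial
    obtain ⟨n, V, hV, hzV⟩ := mem_iUnion.mp this
    exact mem_iUnion.mpr ⟨n, _, ⟨V, hV, rfl⟩, ⟨_, hzV, rfl⟩⟩
  · intro n z
    by_cases hz : z = x
    · subst hz
      exact finite_empty.subset (image_family_self (𝓥 n))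
    · exact ((h3 n ⟨z, hz⟩).image _).subset (image_family (𝓥 n) z hz)

variable [CompactSpace X]

/-- conversely, a point-countable cover by open sets whose closures miss `x` is enough -/
theorem metaLindelof_of_cover {ι : Type} (V : ι → Set X) (ho : ∀ i, IsOpen (V i))
    (hx : ∀ i, x ∉ closure (V i)) (hcov : ∀ z, z ≠ x → ∃ i, z ∈ V i)
    (hc : ∀ z, {i | z ∈ V i}.Countable) : MetaLindelof {y : X // y ≠ x} := by
  classical
  intro 𝓤 hU hcovU
  have hK : ∀ i, IsCompact ((Subtype.val : {y : X // y ≠ x} → X) ⁻¹' closure (V i)) := by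
    intro i
    have h1 : IsCompact (closure (V i)) := isClosed_closure.isCompact
    refine (Topology.IsEmbedding.subtypeVal.isCompact_iff).mpr ?_
    have h2 : Subtype.val '' ((Subtype.val : {y : X // y ≠ x} → X) ⁻¹' closure (V i)) =
        closure (V i) := by
      rw [image_preimage_eq_inter_range]
      apply inter_eq_left.mpr
      intro z hz
      rw [Subtype.range_coe_subtype]
      rintro rfl
      exact hx i hz
    rw [h2]
    exact h1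
  have hfin : ∀ i, ∃ s : Set (Set {y : X // y ≠ x}), s ⊆ 𝓤 ∧ s.Finite ∧
      ((Subtype.val : {y : X // y ≠ x} → X) ⁻¹' closure (V i)) ⊆ ⋃₀ s := by
    intro i
    obtain ⟨s, hs1, hs2, hs3⟩ := (hK i).elim_finite_subcover_image (b := 𝓤) (c := id)
      (fun U h => hU U h) (by
        intro z _
        have hz : z ∈ ⋃₀ 𝓤 := by rw [hcovU]; trivial
        obtain ⟨U, hU1, hU2⟩ := hz
        exact mem_iUnion₂.mpr ⟨U, hU1, hU2⟩)
    refine ⟨s, hs1, hs2, ?_⟩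
    intro z hz
    obtain ⟨U, hU1, hU2⟩ := mem_iUnion₂.mp (hs3 hz)
    exact ⟨U, hU1, hU2⟩
  choose s hsU hsf hsc using hfin
  refine ⟨{A | ∃ i, ∃ U ∈ s i, A = U ∩ Subtype.val ⁻¹' (V i)}, ?_, ?_, ?_⟩
  · rintro _ ⟨i, U, hUs, rfl⟩
    exact ⟨(hU U (hsU i hUs)).inter ((ho i).preimage continuous_subtype_val), U, hsU i hUs,
      inter_subset_left⟩
  · rw [eq_univ_iff_forall]
    rintro ⟨z, hz⟩
    obtain ⟨i, hi⟩ := hcov z hz
    obtain ⟨U, hUs, hzU⟩ := hsc i (show (⟨z, hz⟩ : {y : X // y ≠ x}) ∈ Subtype.val ⁻¹' closure (V i)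
      from subset_closure hi)
    exact ⟨_, ⟨i, U, hUs, rfl⟩, hzU, hi⟩
  · rintro ⟨z, hz⟩
    have h1 : {A ∈ {A | ∃ i, ∃ U ∈ s i, A = U ∩ Subtype.val ⁻¹' (V i)} |
        (⟨z, hz⟩ : {y : X // y ≠ x}) ∈ A} ⊆
        ⋃ i ∈ {i | z ∈ V i}, (fun U => U ∩ Subtype.val ⁻¹' (V i)) '' s i := by
      rintro _ ⟨⟨i, U, hUs, rfl⟩, hzU, hzV⟩
      exact mem_iUnion₂.mpr ⟨i, hzV, U, hUs, rfl⟩
    exact ((hc z).biUnion fun i _ => ((hsf i).image _).countable).mono h1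

end

section

variable {X : Type} [TopologicalSpace X] [CompactSpace X] [T2Space X]

/-- complements of points in Corson compacta are meta-Lindelöf -/
theorem CorsonEmb.metaLindelof (h : CorsonEmb X) (x : X) : MetaLindelof {y : X // y ≠ x} := by
  obtain ⟨Γ, e, he, hc⟩ := h
  have heγ : ∀ γ, Continuous fun y => e y γ := fun γ => (continuous_apply γ).comp he.continuous
  refine metaLindelof_of_cover (ι := Γ × ℕ)
    (fun p => {y | 1 / ((p.2 : ℝ) + 1) < |e y p.1 - e x p.1|}) ?_ ?_ ?_ ?_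
  · intro p
    exact _root_.isOpen_lt continuous_const ((heγ p.1).sub continuous_const).abs
  · intro p hp
    have hcl : IsClosed {y | 1 / ((p.2 : ℝ) + 1) ≤ |e y p.1 - e x p.1|} :=
      isClosed_le continuous_const ((heγ p.1).sub continuous_const).abs
    have h1 := closure_minimal (fun y (hy : 1 / ((p.2 : ℝ) + 1) < |e y p.1 - e x p.1|) =>
      (show 1 / ((p.2 : ℝ) + 1) ≤ |e y p.1 - e x p.1| from hy.le)) hcl hp
    have h2 : 1 / ((p.2 : ℝ) + 1) ≤ |e x p.1 - e x p.1| := h1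
    rw [sub_self, abs_zero] at h2
    have h3 : (0 : ℝ) < 1 / ((p.2 : ℝ) + 1) := by positivity
    linarith
  · intro z hz
    have h1 : e z ≠ e x := fun h => hz (he.injective h)
    obtain ⟨γ, hγ⟩ := Function.ne_iff.mp h1
    obtain ⟨n, hn⟩ := exists_nat_one_div_lt (abs_pos.mpr (sub_ne_zero.mpr hγ))
    exact ⟨(γ, n), hn⟩
  · intro z
    refine (((hc z).union (hc x)).prod (countable_univ (α := ℕ))).mono ?_
    rintro ⟨γ, n⟩ h
    refine ⟨?_, mem_univ _⟩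
    have h1 : 1 / ((n : ℝ) + 1) < |e z γ - e x γ| := h
    have h3 : (0 : ℝ) < 1 / ((n : ℝ) + 1) := by positivity
    have h4 : e z γ - e x γ ≠ 0 := abs_pos.mp (h3.trans h1)
    by_contra hh
    simp only [mem_union, mem_ofPred_eq, not_or, not_not] at hh
    rw [hh.1, hh.2, sub_zero] at h4
    exact h4 rfl

variable [MeasurableSpace X] [BorelSpace X]

/-- in ZFC -/
theorem tight_of_sigmaMetacompact {x : X} (h : SigmaMetacompact {y : X // y ≠ x}) :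
    TightAt (dirac x) := by
  obtain ⟨𝓥, h1, h2, h3, h4⟩ := exists_sigmaPointFinite h
  refine tight_of_cover (𝓥 := ⋃ n, 𝓥 n) ?_ ?_ ?_ ?_
  · intro V hV
    obtain ⟨n, hn⟩ := mem_iUnion.mp hV
    exact h1 n V hn
  · intro V hV
    obtain ⟨n, hn⟩ := mem_iUnion.mp hV
    exact h2 n V hn
  · rw [sUnion_iUnion]
    exact h3
  · intro μ
    refine (countable_iUnion fun n => countable_of_pointFinite μ (h1 n) (h4 n)).mono ?_
    rintro V ⟨hV, h0⟩
    obtain ⟨n, hn⟩ := mem_iUnion.mp hV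
    exact mem_iUnion.mpr ⟨n, hn, h0⟩

/-- without a covering by `ℵ₁` null sets -/
theorem tight_of_metaLindelof (hnc : ¬ NullCover) {x : X} (h : MetaLindelof {y : X // y ≠ x}) :
    TightAt (dirac x) := by
  obtain ⟨𝓥, h1, h2, h3, h4⟩ := exists_pointCountable h
  exact tight_of_cover h1 h2 h3 fun μ => countable_of_pointCountable hnc μ h1 h4

end

end Pool.Agent.RadT
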