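import Mathlib
import Pool.Agent.RadT.Add

/-!
# Closed families parametrised by a countably tight compact space
-/

open MeasureTheory Set Filter
open scoped Topology ENNReal Cardinal BoundedContinuousFunction CompactlySupported

namespace Pool.Agent.RadT

open Pool.Agent.PolT

variable {X : Type} [TopologicalSpace X] [CompactSpace X] [T2Space X]
  [MeasurableSpace X] [BorelSpace X]

variable {W : Type} [TopologicalSpace W] [CompactSpace W] [T2Space W]

/-- the section of a relation -/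
def sect (Δ : Set (W × X)) (w : W) : Set X := {z | (w, z) ∈ Δ}

omit [MeasurableSpace X] [BorelSpace X] [CompactSpace X] [T2Space X] [CompactSpace W] [T2Space W] in
theorem isClosed_sect {Δ : Set (W × X)} (hΔ : IsClosed Δ) (w : W) : IsClosed (sect Δ w) :=
  hΔ.preimage (Continuous.prodMk_right w)

theorem omegaClosed_rel {E : Set X} (hE : MeasurableSet E) {F : Set (P X)} (hF : OmegaClosed F)
    (hc : ∀ f : C(X, ℝ), ContinuousOn (fun μ : P X => ∫ x in E, f x ∂(ms μ)) F)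
    {Δ : Set (W × X)} (hΔ : IsClosed Δ) (c : ℝ) :
    OmegaClosed {p : P X × W | p.1 ∈ F ∧ c ≤ (ms p.1).real (sect Δ p.2 ∩ E)} := by
  rintro C hC hCc ⟨ν, w⟩ hν
  have hνF : ν ∈ F := by
    refine hF (Prod.fst '' C) ?_ (hCc.image _) ?_
    · rintro _ ⟨p, hp, rfl⟩
      exact (hC hp).1
    · exact image_closure_subset_closure_image continuous_fst ⟨_, hν, rfl⟩
  refine ⟨hνF, ?_⟩
  by_contra hlt
  push Not at hlt
  have hlt : (ms ν).real (sect Δ w ∩ E) < c := hlt
  have hcpos : 0 < c := measureReal_nonneg.trans_lt hlt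
  have hsc : IsClosed (sect Δ w) := isClosed_sect hΔ w
  have hreg : ((ms ν).restrict E).Regular := Measure.Regular.restrict_of_measure_ne_top
    (measure_ne_top _ _)
  have h1 : (ms ν).restrict E (sect Δ w) < ENNReal.ofReal c := by
    rw [Measure.restrict_apply hsc.measurableSet]
    exact (ENNReal.lt_ofReal_iff_toReal_lt (measure_ne_top _ _)).mpr hlt
  obtain ⟨U, hUs, hU, hUc⟩ := (sect Δ w).exists_isOpen_lt_of_lt _ h1
  rw [Measure.restrict_apply hU.measurableSet] at hUc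
  have hUc' : (ms ν).real (U ∩ E) < c :=
    (ENNReal.lt_ofReal_iff_toReal_lt (measure_ne_top _ _)).mp hUc
  obtain ⟨U', hU', hsU', hU'U⟩ := normal_exists_closure_subset hsc hU hUs
  obtain ⟨f, hf1, -, hf3, hf4⟩ := exists_continuousMap_one_of_isCompact_subset_isOpen
    (isClosed_closure (s := U')).isCompact hU hU'U
  -- integral at `ν`
  have h2 : ∫ x in E, f x ∂(ms ν) < c := by
    refine lt_of_le_of_lt ?_ hUc'
    have h3 : (ms ν).real (U ∩ E) = ∫ x in E, U.indicator (fun _ => (1 : ℝ)) x ∂(ms ν) := by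
      rw [setIntegral_indicator hU.measurableSet, setIntegral_const, smul_eq_mul, mul_one,
        inter_comm]
    rw [h3]
    refine integral_mono (integrable_of_cont f _)
      ((integrable_const (1 : ℝ)).indicator hU.measurableSet) ?_
    intro x
    by_cases hx : x ∈ U
    · simp [hx, (hf4 x).2]
    · have : x ∉ tsupport f := fun h' => hx (hf3 h')
      simp [hx, image_eq_zero_of_notMem_tsupport this]
  -- neighbourhoods
  have h4 : ∀ᶠ μ in 𝓝[F] ν, ∫ x in E, f x ∂(ms μ) < c :=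
    (hc f ν hνF).eventually (gt_mem_nhds h2)
  obtain ⟨N, hN, hNF⟩ := mem_nhdsWithin_iff_exists_mem_nhds_inter.mp h4
  have h5 : IsClosed (Prod.fst '' (Δ ∩ univ ×ˢ U'ᶜ)) := by
    have : IsClosed (Δ ∩ (univ : Set W) ×ˢ U'ᶜ) :=
      hΔ.inter (isClosed_univ.prod hU'.isClosed_compl)
    exact (this.isCompact.image continuous_fst).isClosed
  have h6 : (Prod.fst '' (Δ ∩ (univ : Set W) ×ˢ U'ᶜ))ᶜ ∈ 𝓝 w := by
    refine h5.isOpen_compl.mem_nhds ?_
    rintro ⟨⟨w', z⟩, ⟨h7, h8⟩, h9⟩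
    have h9' : w' = w := h9
    rw [h9'] at h7
    exact h8.2 (hsU' h7)
  obtain ⟨⟨μ, w'⟩, ⟨h7, h8⟩, h9⟩ := mem_closure_iff_nhds.mp hν _ (prod_mem_nhds hN h6)
  have hμF : μ ∈ F := (hC h9).1
  have h10 : ∫ x in E, f x ∂(ms μ) < c := hNF ⟨h7, hμF⟩
  have h11 : c ≤ (ms μ).real (sect Δ w' ∩ E) := (hC h9).2
  have h12 : sect Δ w' ⊆ closure U' := by
    intro z hz
    by_contra hzU
    exact h8 ⟨(w', z), ⟨hz, ⟨mem_univ _, fun h => hzU (subset_closure h)⟩⟩, rfl⟩
  have h13 : (ms μ).real (sect Δ w' ∩ E) ≤ ∫ x in E, f x ∂(ms μ) := by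
    have hsc' : IsClosed (sect Δ w') := isClosed_sect hΔ w'
    have h3 : (ms μ).real (sect Δ w' ∩ E) =
        ∫ x in E, (sect Δ w').indicator (fun _ => (1 : ℝ)) x ∂(ms μ) := by
      rw [setIntegral_indicator hsc'.measurableSet, setIntegral_const, smul_eq_mul, mul_one,
        inter_comm]
    rw [h3]
    refine integral_mono ((integrable_const (1 : ℝ)).indicator hsc'.measurableSet)
      (integrable_of_cont f _) ?_
    intro x
    by_cases hx : x ∈ sect Δ w'
    · simp [hx, hf1 (h12 hx)]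
    · simp [hx, (hf4 x).1]
  linarith

/-- **Key lemma.** For a closed relation `Δ`, parametrised by a countably tight compact space,
either the limit measure charges the intersection of `E` with a section of `Δ` or almost all
measures (for the filter) charge none of these intersections. -/
theorem OFilter.sect_dichotomy {G : Filter (P X)} (hG : OFilter G) {m : Measure X}
    (hm : ∀ B, MeasurableSet B → ∀ᶠ μ in G, ms μ B = m B) {E : Set X} (hE : MeasurableSet E)
    (hW : ∀ w : W, TightAt w) {Δ : Set (W × X)} (hΔ : IsClosed Δ) :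
    (∃ w, m (sect Δ w ∩ E) ≠ 0) ∨ ∀ᶠ μ in G, ∀ w, ms μ (sect Δ w ∩ E) = 0 := by
  classical
  have := hG.ne
  have := hG.cif
  obtain ⟨F₀, hF₀, hF₀c, hF₁s⟩ := hG.good hE
  have hcont : ∀ F ⊆ F₀, ∀ f : C(X, ℝ),
      ContinuousOn (fun μ : P X => ∫ x in E, f x ∂(ms μ)) F := fun F hF f => (hF₁s f).mono hF
  let R : ℝ → Set (P X) → Set (P X × W) := fun c F =>
    {p | p.1 ∈ F ∧ c ≤ (ms p.1).real (sect Δ p.2 ∩ E)}
  have hR : ∀ c F, OmegaClosed F → F ⊆ F₀ → OmegaClosed (R c F) := fun c F hF hFF =>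
    omegaClosed_rel hE hF (hcont F hFF) hΔ c
  by_cases hex : ∃ n : ℕ, Prod.fst '' R (1 / ((n : ℝ) + 1)) F₀ ∈ G
  · left
    obtain ⟨n, hn⟩ := hex
    set c : ℝ := 1 / ((n : ℝ) + 1) with hc
    have hcpos : 0 < c := by positivity
    -- sections
    let ι := {S : Set (P X) // S ∈ G ∧ OmegaClosed S ∧ S ⊆ F₀}
    have : Nonempty ι := ⟨⟨F₀, hF₀, hF₀c, Subset.rfl⟩⟩
    obtain ⟨w, hw⟩ := IsCompact.nonempty_iInter_of_directed_nonempty_isCompact_isClosed
      (fun S : ι => Prod.snd '' R c S.1) (by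
        intro S T
        refine ⟨⟨S.1 ∩ T.1, inter_mem S.2.1 T.2.1, S.2.2.1.inter T.2.2.1,
          inter_subset_left.trans S.2.2.2⟩, ?_, ?_⟩
        · rintro _ ⟨p, hp, rfl⟩
          exact ⟨p, ⟨hp.1.1, hp.2⟩, rfl⟩
        · rintro _ ⟨p, hp, rfl⟩
          exact ⟨p, ⟨hp.1.2, hp.2⟩, rfl⟩) (by
        intro S
        obtain ⟨μ, h1, h2⟩ := ((eventually_of_mem S.2.1 fun μ hμ => hμ).and
          (eventually_of_mem hn fun μ hμ => hμ)).exists
        obtain ⟨p, hp, rfl⟩ := h2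
        exact ⟨p.2, p, ⟨h1, hp.2⟩, rfl⟩) (by
        intro S
        exact (((hR c S.1 S.2.2.1 S.2.2.2).image continuous_snd.continuousOn).isClosed hW).isCompact)
      (by
        intro S
        exact ((hR c S.1 S.2.2.1 S.2.2.2).image continuous_snd.continuousOn).isClosed hW)
    refine ⟨w, ?_⟩
    have hmeas : MeasurableSet (sect Δ w ∩ E) := (isClosed_sect hΔ w).measurableSet.inter hE
    obtain ⟨S, hS, hSc, hSs⟩ := hG.basis _ (inter_mem (hm _ hmeas) hF₀)
    obtain ⟨p, hp, hpw⟩ := mem_iInter.mp hw ⟨S, hS, hSc, fun μ hμ => (hSs hμ).2⟩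
    have h6 : ms p.1 (sect Δ w ∩ E) = m (sect Δ w ∩ E) := (hSs hp.1).1
    have h7 : c ≤ (ms p.1).real (sect Δ p.2 ∩ E) := hp.2
    rw [hpw, Measure.real, h6] at h7
    intro h8
    rw [h8, ENNReal.toReal_zero] at h7
    linarith
  · right
    push Not at hex
    have h1 : ∀ n : ℕ, ∀ᶠ μ in G, μ ∉ Prod.fst '' R (1 / ((n : ℝ) + 1)) F₀ := by
      intro n
      have h2 : ¬ ∀ F ∈ G, (Prod.fst '' R (1 / ((n : ℝ) + 1)) F₀ ∩ F).Nonempty := fun h' =>
        hex n (hG.max _ ((hR _ F₀ hF₀c Subset.rfl).image continuous_fst.continuousOn) h')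
      push Not at h2
      obtain ⟨F, hF, hE⟩ := h2
      filter_upwards [hF] with μ hμ hμ'
      have : μ ∈ Prod.fst '' R (1 / ((n : ℝ) + 1)) F₀ ∩ F := ⟨hμ', hμ⟩
      rw [hE] at this
      exact this
    filter_upwards [hF₀, eventually_countable_forall.mpr h1] with μ h3 h4 w
    by_contra hw
    have h5 : 0 < (ms μ).real (sect Δ w ∩ E) := ENNReal.toReal_pos hw (measure_ne_top _ _)
    obtain ⟨n, hn⟩ := exists_nat_one_div_lt h5
    exact h4 n ⟨(μ, w), ⟨h3, hn.le⟩, rfl⟩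

/-- If every regular measure charging `E` charges a section of `Δ` then so does the limit
measure. -/
theorem OFilter.exists_sect {G : Filter (P X)} (hG : OFilter G) {m : Measure X}
    (hm : ∀ B, MeasurableSet B → ∀ᶠ μ in G, ms μ B = m B) {E : Set X} (hE : MeasurableSet E)
    (hW : ∀ w : W, TightAt w) {Δ : Set (W × X)} (hΔ : IsClosed Δ)
    (hch : ∀ μ : P X, ms μ E ≠ 0 → ∃ w, ms μ (sect Δ w ∩ E) ≠ 0) (h0 : m E ≠ 0) :
    ∃ w, m (sect Δ w ∩ E) ≠ 0 := by
  have := hG.ne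
  rcases hG.sect_dichotomy hm hE hW hΔ with h | h
  · exact h
  · obtain ⟨μ, h1, h2⟩ := (h.and (hm E hE)).exists
    obtain ⟨w, hw⟩ := hch μ (by rw [h2]; exact h0)
    exact absurd (h1 w) hw

/-- exhaustion by countably many sections -/
theorem OFilter.exists_countable_sect {G : Filter (P X)} (hG : OFilter G) {m : Measure X}
    [IsProbabilityMeasure m]
    (hm : ∀ B, MeasurableSet B → ∀ᶠ μ in G, ms μ B = m B) {E : Set X} (hE : MeasurableSet E)
    (hW : ∀ w : W, TightAt w) {Δ : Set (W × X)} (hΔ : IsClosed Δ)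
    (hch : ∀ (μ : P X) (B : Set X), B ⊆ E → MeasurableSet B → ms μ B ≠ 0 →
      ∃ w, ms μ (sect Δ w ∩ B) ≠ 0) :
    ∃ D : Set W, D.Countable ∧ m (E \ ⋃ w ∈ D, sect Δ w) = 0 := by
  classical
  let S : Set ℝ≥0∞ := {c | ∃ D : Set W, D.Countable ∧ m (E ∩ ⋃ w ∈ D, sect Δ w) = c}
  have hS : S.Nonempty := ⟨_, ∅, countable_empty, rfl⟩
  obtain ⟨u, -, hu2, hu3⟩ := exists_seq_tendsto_sSup hS (OrderTop.bddAbove S)
  choose D hD1 hD2 using hu3
  have hmeas : ∀ D : Set W, D.Countable → MeasurableSet (⋃ w ∈ D, sect Δ w) := fun D hD =>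
    MeasurableSet.biUnion hD fun w _ => (isClosed_sect hΔ w).measurableSet
  refine ⟨⋃ n, D n, countable_iUnion hD1, ?_⟩
  set D' : Set W := ⋃ n, D n with hD'
  have hD'c : D'.Countable := countable_iUnion hD1
  have h1 : m (E ∩ ⋃ w ∈ D', sect Δ w) = sSup S := by
    apply le_antisymm
    · exact le_sSup ⟨D', hD'c, rfl⟩
    · refine le_of_tendsto' hu2 fun n => ?_
      rw [← hD2 n]
      exact measure_mono (inter_subset_inter_right _
        (biUnion_subset_biUnion_left (subset_iUnion D n)))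
  by_contra hne
  have hB : MeasurableSet (E \ ⋃ w ∈ D', sect Δ w) := hE.diff (hmeas D' hD'c)
  obtain ⟨w, hw⟩ := hG.exists_sect hm hB hW hΔ (fun μ hμ => hch μ _ Set.sdiff_subset hB hμ) hne
  have h2 : m (E ∩ ⋃ w' ∈ insert w D', sect Δ w') ≤ sSup S := le_sSup ⟨_, hD'c.insert w, rfl⟩
  have h3 : m (E ∩ ⋃ w' ∈ insert w D', sect Δ w') =
      m (E ∩ ⋃ w' ∈ D', sect Δ w') + m (sect Δ w ∩ (E \ ⋃ w' ∈ D', sect Δ w')) := by
    rw [biUnion_insert, ← measure_union _ ((isClosed_sect hΔ w).measurableSet.inter hB)]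
    · congr 1
      ext z
      simp only [mem_union, mem_inter_iff, Set.mem_sdiff]
      tauto
    · rw [disjoint_left]
      intro z hz hz'
      exact hz'.2.2 hz.2
  rw [h3, h1] at h2
  have h4 : sSup S ≠ ⊤ := by rw [← h1]; exact measure_ne_top _ _
  exact absurd h2 (not_le.mpr (ENNReal.lt_add_right h4 hw))

end Pool.Agent.RadT
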