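import Mathlib
import Pool.Agent.RadT.Param

/-!
# Countably tight quasi-Radon-Nikodym compacta
-/

open MeasureTheory Set Filter
open scoped Topology ENNReal Cardinal BoundedContinuousFunction CompactlySupported

namespace Pool.Agent.RadT

open Pool.Agent.PolT

variable {X : Type} [TopologicalSpace X] [CompactSpace X] [T2Space X]
  [MeasurableSpace X] [BorelSpace X]

theorem OFilter.le_limit {G : Filter (P X)} (hG : OFilter G) {m : Measure X}
    [IsProbabilityMeasure m] (hm : ∀ B, MeasurableSet B → ∀ᶠ μ in G, ms μ B = m B) {μ₀ : P X}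
    (hN : ∀ N, IsClosed N → N ∈ 𝓝 μ₀ → N ∈ G) {U : Set X} (hU : IsOpen U) : ms μ₀ U ≤ m U := by
  rw [hU.measure_eq_iSup_isCompact]
  refine iSup₂_le fun K hK => iSup_le fun hKc => ?_
  obtain ⟨f, hf1, -, hf3, hf4⟩ := exists_continuousMap_one_of_isCompact_subset_isOpen hKc hU hK
  have h1 : (ms μ₀).real K ≤ ∫ x, f x ∂(ms μ₀) := by
    rw [← integral_indicator_one hKc.measurableSet]
    refine integral_mono ((integrable_const (1 : ℝ)).indicator hKc.measurableSet)
      (integrable_of_cont f _) ?_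
    intro x
    by_cases hx : x ∈ K
    · simp [hx, hf1 hx]
    · simp [hx, (hf4 x).1]
  have h2 : ∫ x, f x ∂m ≤ m.real U := by
    rw [← integral_indicator_one hU.measurableSet]
    refine integral_mono (integrable_of_cont f _)
      ((integrable_const (1 : ℝ)).indicator hU.measurableSet) ?_
    intro x
    by_cases hx : x ∈ U
    · simp [hx, (hf4 x).2]
    · have : x ∉ tsupport f := fun h' => hx (hf3 h')
      simp [hx, image_eq_zero_of_notMem_tsupport this]
  rw [hG.integral_eq hm hN f] at h2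
  have h3 := h1.trans h2
  exact (ENNReal.toReal_le_toReal (measure_ne_top _ _) (measure_ne_top _ _)).mp h3

/-- if the limit measure is determined by countably many Borel sets then the filter converges
trivially -/
theorem OFilter.eq_of_determined {G : Filter (P X)} (hG : OFilter G) {m : Measure X}
    [IsProbabilityMeasure m] (hm : ∀ B, MeasurableSet B → ∀ᶠ μ in G, ms μ B = m B) {μ₀ : P X}
    (hN : ∀ N, IsClosed N → N ∈ 𝓝 μ₀ → N ∈ G) {𝓒 : Set (Set X)} (hC : 𝓒.Countable)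
    (hCm : ∀ C ∈ 𝓒, MeasurableSet C)
    (h : ∀ U, IsOpen U → m U ≤ ⨆ C ∈ {C ∈ 𝓒 | C ⊆ U}, m C) : ∀ᶠ μ in G, μ = μ₀ := by
  filter_upwards [hG.agree hm hC hCm] with μ hμ
  refine P_ext_le fun U hU => ?_
  refine (hG.le_limit hm hN hU).trans ((h U hU).trans ?_)
  refine iSup₂_le fun C hC' => ?_
  rw [← hμ C hC'.1]
  exact measure_mono hC'.2

/-- `X` is *quasi-Radon-Nikodym*: some lower semicontinuous function `d : X × X → [0, ∞)`, vanishing
exactly on the diagonal, fragments `X`. -/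
def QuasiRN (X : Type) [TopologicalSpace X] : Prop :=
  ∃ d : X → X → ℝ, (∀ r, IsClosed {p : X × X | d p.1 p.2 ≤ r}) ∧ (∀ y z, 0 ≤ d y z) ∧
    (∀ y z, d y z = 0 ↔ y = z) ∧
    ∀ ε > 0, ∀ A : Set X, IsClosed A → A.Nonempty → ∃ U, IsOpen U ∧ (U ∩ A).Nonempty ∧
      ∀ y ∈ U ∩ A, ∀ z ∈ U ∩ A, d y z ≤ ε

/-- a regular measure charges the preimage of a piece of a fragmented space -/
theorem charge_of_fragment {W : Type} [TopologicalSpace W] {f : X → W} (hf : Continuous f)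
    {A : Set W} (hA : IsClosed A) {Δ : Set (W × W)}
    (hfr : ∀ C ⊆ A, IsClosed C → C.Nonempty → ∃ U, IsOpen U ∧ (U ∩ C).Nonempty ∧
      ∀ y ∈ U ∩ C, ∀ z ∈ U ∩ C, (y, z) ∈ Δ) (μ : P X) {E : Set X} (hE : MeasurableSet E)
    (hEA : E ⊆ f ⁻¹' A) (h : ms μ E ≠ 0) : ∃ w ∈ A, ms μ ({z | f z ∈ A ∧ (w, f z) ∈ Δ} ∩ E) ≠ 0 := by
  let 𝓞 := {V : Set W // IsOpen V ∧ ms μ (f ⁻¹' V ∩ E) = 0}
  let O : Set W := ⋃ V : 𝓞, V.1
  have hO : IsOpen O := isOpen_iUnion fun V => V.2.1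
  have hO0 : ms μ (f ⁻¹' O ∩ E) = 0 := by
    have : f ⁻¹' O = ⋃ V : 𝓞, f ⁻¹' V.1 := by
      show f ⁻¹' (⋃ V : 𝓞, V.1) = _
      rw [preimage_iUnion]
    rw [this]
    exact iUnion_inter_null μ (fun V : 𝓞 => V.2.1.preimage hf) hE fun V => V.2.2
  have hA' : (Oᶜ ∩ A).Nonempty := by
    by_contra hne
    rw [not_nonempty_iff_eq_empty] at hne
    apply h
    refine measure_mono_null ?_ hO0
    intro z hz
    refine ⟨?_, hz⟩
    by_contra hzO
    have : f z ∈ Oᶜ ∩ A := ⟨hzO, hEA hz⟩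
    rw [hne] at this
    exact this
  obtain ⟨U, hU, ⟨y, hyU, hyA⟩, hUA⟩ := hfr (Oᶜ ∩ A) inter_subset_right
    (hO.isClosed_compl.inter hA) hA'
  refine ⟨y, hyA.2, fun h0 => ?_⟩
  apply hyA.1
  refine mem_iUnion.mpr ⟨⟨U, hU, ?_⟩, hyU⟩
  refine measure_mono_null (t := ({z | f z ∈ A ∧ (y, f z) ∈ Δ} ∩ E) ∪ (f ⁻¹' O ∩ E)) ?_
    (measure_union_null h0 hO0)
  rintro z ⟨hzU, hzE⟩
  by_cases hz : f z ∈ O
  · exact Or.inr ⟨hz, hzE⟩
  · exact Or.inl ⟨⟨hEA hzE, hUA y ⟨hyU, hyA⟩ (f z) ⟨hzU, hz, hEA hzE⟩⟩, hzE⟩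

omit [MeasurableSpace X] [BorelSpace X] in
/-- small balls around points of an open set -/
theorem exists_small {d : X → X → ℝ} (hd : ∀ r, IsClosed {p : X × X | d p.1 p.2 ≤ r})
    (hd0 : ∀ y z, 0 ≤ d y z) (hd1 : ∀ y z, d y z = 0 ↔ y = z) {U : Set X} (hU : IsOpen U) {s : X}
    (hs : s ∈ U) : ∃ k : ℕ, ∀ y, d y s ≤ 1 / ((k : ℝ) + 1) →
      ∀ z, d y z ≤ 1 / ((k : ℝ) + 1) → z ∈ U := by
  by_contra hno
  push Not at hno
  let K : ℕ → Set (X × X) := fun k =>
    {p | d p.1 s ≤ 1 / ((k : ℝ) + 1) ∧ d p.1 p.2 ≤ 1 / ((k : ℝ) + 1) ∧ p.2 ∉ U}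
  have hKc : ∀ k, IsClosed (K k) := by
    intro k
    have h1 : IsClosed {p : X × X | d p.1 s ≤ 1 / ((k : ℝ) + 1)} :=
      (hd (1 / ((k : ℝ) + 1))).preimage (continuous_fst.prodMk continuous_const)
    have h2 : IsClosed {p : X × X | p.2 ∉ U} := hU.isClosed_compl.preimage continuous_snd
    have : K k = {p : X × X | d p.1 s ≤ 1 / ((k : ℝ) + 1)} ∩
        ({p : X × X | d p.1 p.2 ≤ 1 / ((k : ℝ) + 1)} ∩ {p : X × X | p.2 ∉ U}) := by
      ext p; rfl
    rw [this]
    exact h1.inter ((hd _).inter h2)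
  have hne : ∀ k, (K k).Nonempty := by
    intro k
    obtain ⟨y, hy, z, hz1, hz2⟩ := hno k
    exact ⟨(y, z), hy, hz1, hz2⟩
  have hmono : ∀ k, K (k + 1) ⊆ K k := by
    rintro k p ⟨h1, h2, h3⟩
    have h4 : 1 / (((k + 1 : ℕ) : ℝ) + 1) ≤ 1 / ((k : ℝ) + 1) := by
      push_cast
      apply one_div_le_one_div_of_le <;> [positivity; linarith]
    exact ⟨h1.trans h4, h2.trans h4, h3⟩
  obtain ⟨p, hp⟩ := IsCompact.nonempty_iInter_of_sequence_nonempty_isCompact_isClosed K hmono hne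
    (hKc 0).isCompact hKc
  rw [mem_iInter] at hp
  have hz : ∀ r : ℝ, 0 ≤ r → (∀ k : ℕ, r ≤ 1 / ((k : ℝ) + 1)) → r = 0 := by
    intro r hr h
    by_contra hne
    obtain ⟨k, hk⟩ := exists_nat_one_div_lt (lt_of_le_of_ne hr (Ne.symm hne))
    exact absurd (h k) (not_le.mpr hk)
  have h1 : p.1 = s := (hd1 _ _).mp (hz _ (hd0 _ _) fun k => (hp k).1)
  have h2 : p.1 = p.2 := (hd1 _ _).mp (hz _ (hd0 _ _) fun k => (hp k).2.1)
  apply (hp 0).2.2
  rw [← h2, h1]
  exact hs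

/-- `m` is determined on `B` by countably many Borel sets -/
def MDet (m : Measure X) (B : Set X) : Prop :=
  ∃ 𝓒 : Set (Set X), 𝓒.Countable ∧ (∀ C ∈ 𝓒, MeasurableSet C) ∧
    ∀ U, IsOpen U → m ((U ∩ B) \ ⋃₀ {C ∈ 𝓒 | C ⊆ U}) = 0

omit [CompactSpace X] [T2Space X] [BorelSpace X] in
theorem MDet.mono {m : Measure X} {A B : Set X} (h : MDet m B) (hAB : A ⊆ B) : MDet m A := by
  obtain ⟨𝓒, h1, h2, h3⟩ := h
  exact ⟨𝓒, h1, h2, fun U hU => measure_mono_null
    (Set.sdiff_subset_sdiff_left (inter_subset_inter_right _ hAB)) (h3 U hU)⟩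

omit [CompactSpace X] [T2Space X] [BorelSpace X] in
theorem MDet.iUnion {m : Measure X} {ι : Type} [Countable ι] {A : ι → Set X}
    (h : ∀ n, MDet m (A n)) : MDet m (⋃ n, A n) := by
  choose 𝓒 h1 h2 h3 using h
  refine ⟨⋃ n, 𝓒 n, countable_iUnion h1, ?_, fun U hU => ?_⟩
  · intro C hC
    obtain ⟨n, hn⟩ := mem_iUnion.mp hC
    exact h2 n C hn
  · refine measure_mono_null ?_ (measure_iUnion_null fun n => h3 n U hU)
    rintro z ⟨⟨hzU, hzA⟩, hzC⟩
    obtain ⟨n, hn⟩ := mem_iUnion.mp hzA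
    refine mem_iUnion.mpr ⟨n, ⟨hzU, hn⟩, fun hz => hzC ?_⟩
    obtain ⟨C, hC, hzC'⟩ := hz
    exact ⟨C, ⟨mem_iUnion.mpr ⟨n, hC.1⟩, hC.2⟩, hzC'⟩

omit [CompactSpace X] [T2Space X] [BorelSpace X] in
theorem MDet.of_null {m : Measure X} {B : Set X} (h : m B = 0) : MDet m B :=
  ⟨∅, countable_empty, fun C hC => absurd hC (notMem_empty C), fun U _ =>
    measure_mono_null (Set.sdiff_subset.trans inter_subset_right) h⟩

omit [CompactSpace X] [T2Space X] [BorelSpace X] in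
/-- determined measures: the supremum form -/
theorem MDet.sup {m : Measure X} (h : MDet m univ) :
    ∃ 𝓒 : Set (Set X), 𝓒.Countable ∧ (∀ C ∈ 𝓒, MeasurableSet C) ∧
      ∀ U, IsOpen U → m U ≤ ⨆ C ∈ {C ∈ 𝓒 | C ⊆ U}, m C := by
  classical
  obtain ⟨𝓒₁, h1, h2, h3⟩ := h
  obtain ⟨c, hc⟩ := (h1.insert ∅).exists_eq_range (insert_nonempty _ _)
  have hcm : ∀ n, MeasurableSet (c n) := by
    intro n
    have : c n ∈ insert ∅ 𝓒₁ := by rw [hc]; exact mem_range_self n
    rcases this with h | h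
    · rw [h]; exact MeasurableSet.empty
    · exact h2 _ h
  refine ⟨range fun s : Finset ℕ => ⋃ k ∈ s, c k, countable_range _, ?_, ?_⟩
  · rintro _ ⟨s, rfl⟩
    exact Finset.measurableSet_biUnion s fun k _ => hcm k
  · intro U hU
    let g : ℕ → Set X := fun n => if c n ⊆ U then c n else ∅
    have hg : ∀ n, g n ⊆ U := by
      intro n
      by_cases h : c n ⊆ U
      · simp only [g, if_pos h]; exact h
      · simp only [g, if_neg h]; exact empty_subset _
    have h4 : m U ≤ m (⋃ n, g n) := by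
      have h5 : U ⊆ (⋃ n, g n) ∪ ((U ∩ univ) \ ⋃₀ {C ∈ 𝓒₁ | C ⊆ U}) := by
        intro s hs
        by_cases h : s ∈ ⋃₀ {C ∈ 𝓒₁ | C ⊆ U}
        · obtain ⟨C, ⟨hC, hCU⟩, hsC⟩ := h
          have h6 : C ∈ range c := by
            rw [← hc]
            exact Or.inr hC
          obtain ⟨n, hn⟩ := h6
          refine Or.inl (mem_iUnion.mpr ⟨n, ?_⟩)
          have h7 : c n ⊆ U := by rw [hn]; exact hCU
          simp only [g, if_pos h7, hn]
          exact hsC
        · exact Or.inr ⟨⟨hs, mem_univ _⟩, h⟩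
      calc m U ≤ m ((⋃ n, g n) ∪ ((U ∩ univ) \ ⋃₀ {C ∈ 𝓒₁ | C ⊆ U})) := measure_mono h5
        _ ≤ m (⋃ n, g n) + 0 := by
            refine (measure_union_le _ _).trans (add_le_add le_rfl (le_of_eq (h3 U hU)))
        _ = m (⋃ n, g n) := add_zero _
    refine h4.trans ?_
    rw [measure_iUnion_eq_iSup_accumulate]
    refine iSup_le fun n => ?_
    have h5 : accumulate g n = ⋃ k ∈ (Finset.range (n + 1)).filter (fun k => c k ⊆ U), c k := by
      ext z
      simp only [mem_accumulate, mem_iUnion, Finset.mem_filter, Finset.mem_range, exists_prop]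
      constructor
      · rintro ⟨k, hk, hz⟩
        by_cases h : c k ⊆ U
        · simp only [g, if_pos h] at hz
          exact ⟨k, ⟨by omega, h⟩, hz⟩
        · simp only [g, if_neg h] at hz
          exact absurd hz (notMem_empty z)
      · rintro ⟨k, ⟨hk, h⟩, hz⟩
        refine ⟨k, by omega, ?_⟩
        simp only [g, if_pos h]
        exact hz
    have h6 : accumulate g n ∈
        {C ∈ range fun s : Finset ℕ => ⋃ k ∈ s, c k | C ⊆ U} := by
      refine ⟨⟨_, h5.symm⟩, ?_⟩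
      intro z hz
      obtain ⟨k, -, hk⟩ := mem_accumulate.mp hz
      exact hg k hk
    exact le_iSup₂ (f := fun (C : Set X)
      (_ : C ∈ {C ∈ range fun s : Finset ℕ => ⋃ k ∈ s, c k | C ⊆ U}) => m C) _ h6

omit [MeasurableSpace X] [BorelSpace X] [CompactSpace X] [T2Space X] in
theorem tightAt_subtype {A : Set X} (hX : ∀ y : X, TightAt y) (a : A) : TightAt a := by
  intro B hB
  have h1 : (a : X) ∈ closure (Subtype.val '' B) :=
    image_closure_subset_closure_image continuous_subtype_val ⟨a, hB, rfl⟩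
  obtain ⟨C, hCB, hCc, haC⟩ := hX a _ h1
  refine ⟨Subtype.val ⁻¹' C, ?_, hCc.preimage Subtype.val_injective, ?_⟩
  · intro b hb
    obtain ⟨b', hb', hbb⟩ := hCB hb
    rwa [← Subtype.ext hbb]
  · rw [closure_subtype]
    have h2 : C ⊆ Subtype.val '' ((Subtype.val : A → X) ⁻¹' C) := by
      intro c hc
      obtain ⟨b, -, hbc⟩ := hCB hc
      exact ⟨b, by rw [mem_preimage, hbc]; exact hc, hbc⟩
    exact closure_mono h2 haC

/-- limit measures are determined on closed quasi-Radon-Nikodym subspaces -/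
theorem mDet_of_quasiRN (hX : ∀ y : X, TightAt y) {G : Filter (P X)} (hG : OFilter G)
    {m : Measure X} [IsProbabilityMeasure m]
    (hm : ∀ B, MeasurableSet B → ∀ᶠ μ in G, ms μ B = m B) {A : Set X} (hA : IsClosed A)
    (h : QuasiRN A) : MDet m A := by
  classical
  obtain ⟨d, hd, hd0, hd1, hfr⟩ := h
  have hcA : CompactSpace A := isCompact_iff_compactSpace.mp hA.isCompact
  -- the relations
  let Δ : ℕ → Set (A × X) := fun k => (Prod.map id Subtype.val) ''
    {p : A × A | d p.1 p.2 ≤ 1 / ((k : ℝ) + 1)}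
  have hΔ : ∀ k, IsClosed (Δ k) := fun k =>
    ((hd _).isCompact.image (continuous_id.prodMap continuous_subtype_val)).isClosed
  have hΔm : ∀ k (w z : A), (z : X) ∈ sect (Δ k) w ↔ d w z ≤ 1 / ((k : ℝ) + 1) := by
    intro k w z
    constructor
    · rintro ⟨⟨w', z'⟩, h1, h2⟩
      have h3 : w' = w := (Prod.mk.inj h2).1
      have h4 : z' = z := Subtype.ext (Prod.mk.inj h2).2
      rw [← h3, ← h4]
      exact h1
    · intro h1
      exact ⟨(w, z), h1, rfl⟩
  have hΔA : ∀ k w, sect (Δ k) w ⊆ A := by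
    rintro k w z ⟨⟨w', z'⟩, -, h2⟩
    have h3 : (z' : X) = z := (Prod.mk.inj h2).2
    rw [← h3]
    exact z'.2
  have hch : ∀ k (μ : P X) (B : Set X), B ⊆ A → MeasurableSet B → ms μ B ≠ 0 →
      ∃ w, ms μ (sect (Δ k) w ∩ B) ≠ 0 := by
    intro k μ B hBA hB hμB
    obtain ⟨w, hwA, hw⟩ := charge_of_fragment continuous_id hA
      (Δ := {p : X × X | ∃ (h1 : p.1 ∈ A) (h2 : p.2 ∈ A),
        d ⟨p.1, h1⟩ ⟨p.2, h2⟩ ≤ 1 / ((k : ℝ) + 1)}) (by
        intro C hCA hC hCne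
        have hC' : IsClosed ((Subtype.val : A → X) ⁻¹' C) := hC.preimage continuous_subtype_val
        obtain ⟨c, hc⟩ := hCne
        obtain ⟨U, hU, ⟨y, hyU, hyC⟩, hUC⟩ := hfr (1 / ((k : ℝ) + 1)) (by positivity) _ hC'
          ⟨⟨c, hCA hc⟩, hc⟩
        obtain ⟨V, hV, rfl⟩ := isOpen_induced_iff.mp hU
        refine ⟨V, hV, ⟨y, hyU, hyC⟩, ?_⟩
        intro y' hy' z' hz'
        exact ⟨hCA hy'.2, hCA hz'.2, hUC ⟨y', hCA hy'.2⟩ hy' ⟨z', hCA hz'.2⟩ hz'⟩) μ hB hBA hμB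
    refine ⟨⟨w, hwA⟩, fun h0 => hw (measure_mono_null ?_ h0)⟩
    rintro z ⟨⟨hzA, h1, h2, h3⟩, hzB⟩
    exact ⟨(hΔm k ⟨w, hwA⟩ ⟨z, hzA⟩).mpr h3, hzB⟩
  have hD := fun k => hG.exists_countable_sect hm hA.measurableSet (tightAt_subtype hX) (hΔ k)
    (hch k)
  choose D hDc hD0 using hD
  refine ⟨⋃ k : ℕ, (fun w => sect (Δ k) w) '' D k, countable_iUnion fun k => (hDc k).image _,
    ?_, fun U hU => ?_⟩
  · intro C hC
    obtain ⟨k, w, -, rfl⟩ := mem_iUnion.mp hC
    exact (isClosed_sect (hΔ k) w).measurableSet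
  · refine measure_mono_null ?_ (measure_iUnion_null fun k => hD0 k)
    rintro s ⟨⟨hsU, hsA⟩, hs⟩
    obtain ⟨k, hk⟩ := exists_small hd hd0 hd1 (U := (Subtype.val : A → X) ⁻¹' U)
      (hU.preimage continuous_subtype_val) (s := ⟨s, hsA⟩) hsU
    refine mem_iUnion.mpr ⟨k, hsA, fun h => hs ?_⟩
    obtain ⟨w, hw, hsw⟩ := mem_iUnion₂.mp h
    refine ⟨sect (Δ k) w, ⟨mem_iUnion.mpr ⟨k, w, hw, rfl⟩, ?_⟩, hsw⟩
    intro z hz
    exact hk w ((hΔm k w ⟨s, hsA⟩).mp hsw) ⟨z, hΔA k w hz⟩ ((hΔm k w ⟨z, hΔA k w hz⟩).mp hz)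

/-- *Tame* subsets of the compactum `X`: the smallest class that contains the closed subspaces which
are quasi-Radon-Nikodym and the subsets with a countable network of Borel sets, is closed under
subsets and countable unions, and contains a Borel set `E` as soon as there are a countably tight
compactum `W` and a closed set `Δ ⊆ W × X` such that every regular Borel probability measure that
charges a Borel subset of `E` charges its intersection with a section of `Δ`, and the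
intersections of `E` with the sections of `Δ` are tame. -/
inductive Tame (X : Type) [TopologicalSpace X] [MeasurableSpace X] : Set X → Prop
  | quasiRN (A : Set X) : IsClosed A → QuasiRN A → Tame X A
  | network (A : Set X) (𝒩 : Set (Set X)) : 𝒩.Countable → (∀ N ∈ 𝒩, MeasurableSet N) →
      (∀ s ∈ A, ∀ U, IsOpen U → s ∈ U → ∃ N ∈ 𝒩, s ∈ N ∧ N ⊆ U) → Tame X A
  | mono (A B : Set X) : A ⊆ B → Tame X B → Tame X A
  | union (A : ℕ → Set X) : (∀ n, Tame X (A n)) → Tame X (⋃ n, A n)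
  | param (W : Type) [TopologicalSpace W] [CompactSpace W] [T2Space W] (Δ : Set (W × X))
      (E : Set X) : (∀ w : W, TightAt w) → IsClosed Δ → MeasurableSet E →
      (∀ (μ : P X) (B : Set X), B ⊆ E → MeasurableSet B → ms μ B ≠ 0 →
        ∃ w, ms μ ({z | (w, z) ∈ Δ} ∩ B) ≠ 0) →
      (∀ w, Tame X ({z | (w, z) ∈ Δ} ∩ E)) → Tame X E

theorem mDet_of_tame (hX : ∀ y : X, TightAt y) {G : Filter (P X)} (hG : OFilter G)
    {m : Measure X} [IsProbabilityMeasure m]
    (hm : ∀ B, MeasurableSet B → ∀ᶠ μ in G, ms μ B = m B) {A : Set X} (h : Tame X A) :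
    MDet m A := by
  induction h with
  | quasiRN A hA h => exact mDet_of_quasiRN hX hG hm hA h
  | network A N hN hNm h =>
    refine ⟨N, hN, hNm, fun U hU => ?_⟩
    have : (U ∩ A) \ ⋃₀ {C ∈ N | C ⊆ U} = ∅ := by
      rw [eq_empty_iff_forall_notMem]
      rintro s ⟨⟨hsU, hsA⟩, hs⟩
      obtain ⟨C, hC, hsC, hCU⟩ := h s hsA U hU hsU
      exact hs ⟨C, ⟨hC, hCU⟩, hsC⟩
    rw [this, measure_empty]
  | mono A B hAB _ ih => exact ih.mono hAB
  | union A _ ih => exact MDet.iUnion ih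
  | param W Δ E hW hΔ hE hch _ ih =>
    obtain ⟨D, hDc, hD0⟩ := hG.exists_countable_sect hm hE hW hΔ hch
    have : Countable D := hDc.to_subtype
    have h1 : MDet m ((⋃ w : D, (sect Δ w ∩ E)) ∪ (E \ ⋃ w ∈ D, sect Δ w)) := by
      have h2 : MDet m (⋃ b : Bool, if b then (⋃ w : D, (sect Δ w ∩ E)) else
          (E \ ⋃ w ∈ D, sect Δ w)) := by
        refine MDet.iUnion fun b => ?_
        cases b
        · exact MDet.of_null hD0
        · exact MDet.iUnion fun w => ih w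
      refine h2.mono ?_
      rintro z (hz | hz)
      · exact mem_iUnion.mpr ⟨true, hz⟩
      · exact mem_iUnion.mpr ⟨false, hz⟩
    refine h1.mono ?_
    intro z hz
    by_cases h : z ∈ ⋃ w ∈ D, sect Δ w
    · obtain ⟨w, hw, hzw⟩ := mem_iUnion₂.mp h
      exact Or.inl (mem_iUnion.mpr ⟨⟨w, hw⟩, hzw, hz⟩)
    · exact Or.inr ⟨hz, h⟩

/-- **Theorem.** If the countably tight compactum `X` is tame then `P(X)` has countable
tightness. -/
theorem tight_of_tame (hX : ∀ y : X, TightAt y) (h : Tame X univ) (μ₀ : P X) : TightAt μ₀ := by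
  by_contra hnt
  obtain ⟨G, hG, hne, hN⟩ := exists_oFilter_of_not_tight hnt
  have := hG.ne
  obtain ⟨m, hmp, hm⟩ := hG.exists_measure
  obtain ⟨𝓒, h1, h2, h3⟩ := (mDet_of_tame hX hG hm h).sup
  obtain ⟨μ, h4, h5⟩ := ((hG.eq_of_determined hm hN h1 h2 h3).and hne).exists
  exact h5 h4

/-- a space is *scattered* if every nonempty closed subset has an isolated point -/
def Scat (W : Type) [TopologicalSpace W] : Prop :=
  ∀ C : Set W, IsClosed C → C.Nonempty → ∃ w, ∃ U, IsOpen U ∧ U ∩ C = {w}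

omit [MeasurableSpace X] [BorelSpace X] [CompactSpace X] [T2Space X] in
theorem quasiRN_univ (h : QuasiRN X) : QuasiRN (univ : Set X) := by
  obtain ⟨d, hd, hd0, hd1, hfr⟩ := h
  refine ⟨fun y z => d y z, fun r => ?_, fun y z => hd0 y z, fun y z => ?_, ?_⟩
  · exact (hd r).preimage (continuous_subtype_val.prodMap continuous_subtype_val)
  · rw [hd1]
    exact Subtype.ext_iff.symm
  · intro ε hε A hA hne
    have hA' : IsClosed (Subtype.val '' A) := by
      have := isClosed_univ.isClosedEmbedding_subtypeVal (X := X)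
      exact this.isClosedMap A hA
    obtain ⟨U, hU, ⟨y, hyU, ⟨y', hy', rfl⟩⟩, hUA⟩ := hfr ε hε _ hA' (hne.image _)
    refine ⟨Subtype.val ⁻¹' U, hU.preimage continuous_subtype_val, ⟨y', hyU, hy'⟩, ?_⟩
    intro a ha b hb
    exact hUA a ⟨ha.1, a, ha.2, rfl⟩ b ⟨hb.1, b, hb.2, rfl⟩

/-- countable unions of closed quasi-Radon-Nikodym subspaces -/
theorem tight_of_sigmaQuasiRN (hX : ∀ y : X, TightAt y) (A : ℕ → Set X)
    (hA : ∀ n, IsClosed (A n)) (h : ∀ n, QuasiRN (A n)) (hU : ⋃ n, A n = univ) (μ₀ : P X) :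
    TightAt μ₀ := by
  refine tight_of_tame hX ?_ μ₀
  rw [← hU]
  exact Tame.union A fun n => Tame.quasiRN _ (hA n) (h n)

omit [MeasurableSpace X] [BorelSpace X] [T2Space X] in
theorem tightAt_image {W : Type} [TopologicalSpace W] [T2Space W] (hX : ∀ y : X, TightAt y)
    {f : X → W} (hf : Continuous f) (hs : Function.Surjective f) (w : W) : TightAt w := by
  rw [tightAt_iff]
  intro F hF hw
  have h1 : IsClosed (f ⁻¹' F) := (hF.preimage hf).isClosed hX
  have h2 : IsClosed F := by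
    rw [← image_preimage_eq F hs]
    exact (h1.isCompact.image hf).isClosed
  rwa [h2.closure_eq] at hw

/-- preimages of scattered spaces with tame fibres -/
theorem tight_of_fibres (hX : ∀ y : X, TightAt y) {W : Type} [TopologicalSpace W] [T2Space W]
    {f : X → W} (hf : Continuous f) (hs : Function.Surjective f) (hW : Scat W)
    (hfib : ∀ w, QuasiRN (f ⁻¹' {w})) (μ₀ : P X) : TightAt μ₀ := by
  have hWc : CompactSpace W := by
    constructor
    rw [← range_eq_univ.mpr hs]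
    exact isCompact_range hf
  refine tight_of_tame hX ?_ μ₀
  have hΔ : IsClosed {p : W × X | p.1 = f p.2} :=
    isClosed_eq continuous_fst (hf.comp continuous_snd)
  refine Tame.param W {p : W × X | p.1 = f p.2} univ (tightAt_image hX hf hs) hΔ
    MeasurableSet.univ ?_ ?_
  · intro μ B _ hB hμB
    obtain ⟨w, -, hw⟩ := charge_of_fragment hf (A := univ) isClosed_univ
      (Δ := {p : W × W | p.1 = p.2}) (by
        intro C _ hC hCne
        obtain ⟨w, U, hU, hUC⟩ := hW C hC hCne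
        refine ⟨U, hU, by rw [hUC]; exact singleton_nonempty w, ?_⟩
        intro y hy z hz
        rw [hUC] at hy hz
        exact (mem_singleton_iff.mp hy).trans (mem_singleton_iff.mp hz).symm) μ hB
      (subset_univ _) hμB
    refine ⟨w, fun h0 => hw (measure_mono_null ?_ h0)⟩
    rintro z ⟨⟨-, h1⟩, h2⟩
    exact ⟨h1, h2⟩
  · intro w
    refine Tame.mono _ (f ⁻¹' {w}) ?_ (Tame.quasiRN _ (isClosed_singleton.preimage hf) (hfib w))
    rintro z ⟨h1, -⟩
    exact (h1 : w = f z).symm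

end Pool.Agent.RadT
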