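import Mathlib
import Pool.Agent.RadT.QRN

/-!
# Limit measures at a Dirac measure and negligible sets
-/

open MeasureTheory Set Filter
open scoped Topology ENNReal Cardinal BoundedContinuousFunction CompactlySupported

namespace Pool.Agent.RadT

open Pool.Agent.PolT

variable {X : Type} [TopologicalSpace X] [CompactSpace X] [T2Space X]
  [MeasurableSpace X] [BorelSpace X]

/-- `m` is the limit measure of the maximal filter `G`, which converges to `δ_x` -/
structure LimitAt (x : X) (G : Filter (P X)) (m : Measure X) : Prop where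
  filt : OFilter G
  conv : ∀ N, IsClosed N → N ∈ 𝓝 (dirac x) → N ∈ G
  prob : IsProbabilityMeasure m
  lim : ∀ B, MeasurableSet B → ∀ᶠ μ in G, ms μ B = m B

theorem ms_dirac_apply {x : X} {B : Set X} (hB : MeasurableSet B) :
    ms (dirac x) B = B.indicator 1 x := by
  have h1 : ms (dirac x) = Measure.dirac x := rfl
  rw [h1, Measure.dirac_apply' x hB]

theorem exists_limitAt {x : X} (h : ¬ TightAt (dirac x)) : ∃ (G : Filter (P X)) (m : Measure X),
    LimitAt x G m ∧ {dirac x}ᶜ ∈ G := by
  obtain ⟨G, hG, hne, hN⟩ := exists_oFilter_of_not_tight h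
  obtain ⟨m, hmp, hm⟩ := hG.exists_measure
  exact ⟨G, m, ⟨hG, hN, hmp, hm⟩, hne⟩

variable {x : X} {G : Filter (P X)} {m : Measure X}

theorem LimitAt.open_one (h : LimitAt x G m) {U : Set X} (hU : IsOpen U) (hx : x ∈ U) :
    m U = 1 := by
  have := h.prob
  refine le_antisymm prob_le_one ?_
  have h1 := h.filt.le_limit h.lim h.conv hU
  rwa [ms_dirac_apply hU.measurableSet, indicator_of_mem hx, Pi.one_apply] at h1

theorem LimitAt.far (h : LimitAt x G m) {V : Set X} (hx : x ∉ closure V) : m V = 0 := by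
  have := h.prob
  refine measure_mono_null subset_closure ?_
  have h1 := h.open_one (isClosed_closure (s := V)).isOpen_compl hx
  rw [prob_compl_eq_one_sub isClosed_closure.measurableSet] at h1
  by_contra hne
  have h2 : (1 : ℝ≥0∞) - m (closure V) < 1 :=
    ENNReal.sub_lt_self ENNReal.one_ne_top one_ne_zero hne
  rw [h1] at h2
  exact lt_irrefl _ h2

theorem LimitAt.mem_closure (h : LimitAt x G m) {F : Set (P X)} (hF : F ∈ G) :
    dirac x ∈ closure F := by
  have := h.filt.ne
  rw [mem_closure_iff_nhds_basis (closed_nhds_basis (dirac x))]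
  rintro N ⟨hN, hNc⟩
  obtain ⟨μ, h1, h2⟩ := ((eventually_of_mem hF fun μ hμ => hμ).and
    (eventually_of_mem (h.conv N hNc hN) fun μ hμ => hμ)).exists
  exact ⟨μ, h1, h2⟩

/-- the fibre over a point of tightness has full measure -/
theorem LimitAt.map (h : LimitAt x G m) {Z : Type} [TopologicalSpace Z] [CompactSpace Z]
    [T2Space Z] [MeasurableSpace Z] [BorelSpace Z] (f : C(X, Z)) (hf : TightAt (dirac (f x))) :
    m {y | f y ≠ f x} = 0 := by
  have := h.prob
  have hH : IsClosed (f ⁻¹' {f x}) := isClosed_singleton.preimage f.continuous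
  obtain ⟨F, hF, hFc, hFs⟩ := h.filt.basis _ (h.lim _ hH.measurableSet)
  have h1 : OmegaClosed (mapP f '' F) := hFc.image (continuous_mapP f).continuousOn
  have h2 : dirac (f x) ∈ closure (mapP f '' F) := by
    rw [← mapP_dirac]
    exact image_closure_subset_closure_image (continuous_mapP f) ⟨_, h.mem_closure hF, rfl⟩
  obtain ⟨μ, hμ, hμf⟩ := tightAt_iff.mp hf _ h1 h2
  have h3 : ms μ (f ⁻¹' {f x}) = 1 := by
    rw [← mapP_apply f μ (measurableSet_singleton _), hμf]
    exact ms_dirac_eq_one_iff.mpr rfl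
  have h4 : ms μ (f ⁻¹' {f x}) = m (f ⁻¹' {f x}) := hFs hμ
  have h5 : {y | f y ≠ f x} = (f ⁻¹' {f x})ᶜ := rfl
  rw [h5, prob_compl_eq_one_sub hH.measurableSet, ← h4, h3, tsub_self]

/-- conditioning on a Borel set, as a self-map of `P(X)` -/
noncomputable def condP (x : X) (E : Set X) (μ : P X) : P X := by
  classical
  exact if h : ms μ E ≠ 0 then
    ⟨⟨ProbabilityTheory.cond (ms μ) E, ProbabilityTheory.cond_isProbabilityMeasure h⟩, by
      have h1 : ((ms μ).restrict E).Regular :=
        Measure.Regular.restrict_of_measure_ne_top (measure_ne_top _ _)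
      exact Measure.Regular.smul (ENNReal.inv_ne_top.mpr h)⟩
  else dirac x

theorem ms_condP {x : X} {E : Set X} {μ : P X} (h : ms μ E ≠ 0) :
    ms (condP x E μ) = (ms μ E)⁻¹ • (ms μ).restrict E := by
  unfold condP
  rw [dif_pos h]
  rfl

theorem ms_condP_apply {x : X} {E : Set X} (hE : MeasurableSet E) {μ : P X} (h : ms μ E ≠ 0)
    (B : Set X) : ms (condP x E μ) B = (ms μ E)⁻¹ * ms μ (B ∩ E) := by
  rw [ms_condP h, Measure.smul_apply, smul_eq_mul, Measure.restrict_apply₀' hE.nullMeasurableSet]

theorem condP_integral {x : X} {E : Set X} {μ : P X} (h : ms μ E ≠ 0) (f : C(X, ℝ)) :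
    ∫ y, f y ∂(ms (condP x E μ)) = ((ms μ E)⁻¹).toReal * ∫ y in E, f y ∂(ms μ) := by
  rw [ms_condP h, integral_smul_measure, smul_eq_mul]

/-- a member of the filter on which conditioning is continuous -/
theorem LimitAt.cond (h : LimitAt x G m) {E : Set X} (hE : MeasurableSet E) (hmE : m E ≠ 0) :
    ∃ F ∈ G, OmegaClosed F ∧ (∀ μ ∈ F, ms μ E = m E) ∧ ContinuousOn (condP x E) F := by
  obtain ⟨F₁, hF₁, hF₁c, hF₁s⟩ := h.filt.good hE
  obtain ⟨F, hF, hFc, hFs⟩ := h.filt.basis _ (inter_mem hF₁ (h.lim E hE))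
  have h1 : ∀ μ ∈ F, ms μ E = m E := fun μ hμ => (hFs hμ).2
  refine ⟨F, hF, hFc, h1, continuousOn_P fun f => ?_⟩
  have h2 : ContinuousOn (fun μ : P X => ((m E)⁻¹).toReal * ∫ y in E, f y ∂(ms μ)) F :=
    continuousOn_const.mul ((hF₁s f).mono fun μ hμ => (hFs hμ).1)
  refine h2.congr fun μ hμ => ?_
  have h3 : ms μ E ≠ 0 := by rw [h1 μ hμ]; exact hmE
  show ∫ y, f y ∂(ms (condP x E μ)) = ((m E)⁻¹).toReal * ∫ y in E, f y ∂(ms μ)
  rw [condP_integral h3, h1 μ hμ]

/-- conditioned measures converge to `δ_x` too -/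
theorem LimitAt.tendsto_cond (h : LimitAt x G m) {E : Set X} (hE : MeasurableSet E)
    (hmE : m E ≠ 0) : Tendsto (condP x E) G (𝓝 (dirac x)) := by
  have := h.filt.cif
  have h1 : Tendsto (fun μ => (condP x E μ).1) G (𝓝 (dirac x).1) := by
    rw [ProbabilityMeasure.tendsto_iff_forall_integral_tendsto]
    intro f
    have h2 : ∀ n : ℕ, ∀ᶠ μ in G, ms μ {y | 1 / ((n : ℝ) + 1) ≤ |f y - f x|} = 0 := by
      intro n
      have hc : IsClosed {y | 1 / ((n : ℝ) + 1) ≤ |f y - f x|} :=
        isClosed_le continuous_const (f.continuous.sub continuous_const).abs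
      have h3 := h.lim _ hc.measurableSet
      rw [h.far (V := {y | 1 / ((n : ℝ) + 1) ≤ |f y - f x|}) (by
        rw [hc.closure_eq]
        intro hx
        have hx' : 1 / ((n : ℝ) + 1) ≤ |f x - f x| := hx
        rw [sub_self, abs_zero] at hx'
        have : (0 : ℝ) < 1 / ((n : ℝ) + 1) := by positivity
        linarith)] at h3
      exact h3
    have h4 : ∀ᶠ μ in G, ∫ y, f y ∂(ms (condP x E μ)) = f x := by
      filter_upwards [eventually_countable_forall.mpr h2, h.lim E hE] with μ hμ hμE
      have h5 : ms μ E ≠ 0 := by rw [hμE]; exact hmE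
      have h6 : ∀ᵐ y ∂(ms (condP x E μ)), f y = f x := by
        rw [ae_iff]
        have h7 : {y | ¬ f y = f x} ⊆ ⋃ n : ℕ, {y | 1 / ((n : ℝ) + 1) ≤ |f y - f x|} := by
          intro y hy
          obtain ⟨n, hn⟩ := exists_nat_one_div_lt (abs_pos.mpr (sub_ne_zero.mpr hy))
          exact mem_iUnion.mpr ⟨n, hn.le⟩
        refine measure_mono_null h7 (measure_iUnion_null fun n => ?_)
        rw [ms_condP_apply hE h5, measure_mono_null inter_subset_left (hμ n), mul_zero]
      rw [integral_congr_ae h6, integral_const, probReal_univ, one_smul]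
    have h8 : ∫ y, f y ∂((dirac x).1 : Measure X) = f x := by
      have h9 : ((dirac x).1 : Measure X) = Measure.dirac x := rfl
      have h10 := integral_dirac (f.toContinuousMap : X → ℝ) x
      rw [h9]
      exact h10
    rw [h8]
    refine tendsto_const_nhds.congr' ?_
    filter_upwards [h4] with μ hμ
    exact hμ.symm
  exact tendsto_subtype_rng.mpr h1

/-- closed pieces with a point of tightness are negligible -/
theorem LimitAt.embed (h : LimitAt x G m) {W : Type} [TopologicalSpace W] [CompactSpace W]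
    [T2Space W] [MeasurableSpace W] [BorelSpace W] (g : C(W, X)) (hg : Function.Injective g)
    {w : W} (hw : g w = x) (ht : TightAt (dirac w)) : m (range g \ {x}) = 0 := by
  have := h.filt.ne
  have hr : MeasurableSet (range g) := (g.continuous.isClosedEmbedding hg).isClosed_range.measurableSet
  set E : Set X := range g \ {x} with hEdef
  have hE : MeasurableSet E := hr.diff (measurableSet_singleton x)
  by_contra hmE
  obtain ⟨F, hF, hFc, hFE, hcont⟩ := h.cond hE hmE
  have hA : OmegaClosed (condP x E '' F) := hFc.image hcont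
  have hA' : OmegaClosed ((mapP g) ⁻¹' (condP x E '' F)) := hA.preimage (continuous_mapP g)
  have hne : ∀ μ ∈ F, ms μ E ≠ 0 := fun μ hμ => by rw [hFE μ hμ]; exact hmE
  have h1 : dirac w ∈ closure ((mapP g) ⁻¹' (condP x E '' F)) := by
    rw [mem_closure_iff]
    intro N hN hwN
    have h2 : IsClosed ((mapP g) '' Nᶜ) :=
      (hN.isClosed_compl.isCompact.image (continuous_mapP g)).isClosed
    have h3 : ((mapP g) '' Nᶜ)ᶜ ∈ 𝓝 (dirac x) := by
      refine h2.isOpen_compl.mem_nhds ?_
      rintro ⟨σ, hσ, hσx⟩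
      rw [← hw, ← mapP_dirac] at hσx
      exact hσ (by rw [mapP_injective g hg hσx]; exact hwN)
    obtain ⟨μ, h4, h5⟩ := (((h.tendsto_cond hE hmE).eventually
      (eventually_of_mem h3 fun μ hμ => hμ)).and (eventually_of_mem hF fun μ hμ => hμ)).exists
    have h6 : ms (condP x E μ) (range g) = 1 := by
      rw [ms_condP_apply hE (hne μ h5), inter_eq_right.mpr Set.sdiff_subset]
      exact ENNReal.inv_mul_cancel (hne μ h5) (measure_ne_top _ _)
    obtain ⟨σ, hσ⟩ := exists_mapP g hg _ h6
    refine ⟨σ, ?_, ?_⟩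
    · by_contra hσN
      exact h4 ⟨σ, hσN, hσ⟩
    · show mapP g σ ∈ condP x E '' F
      rw [hσ]
      exact ⟨μ, h5, rfl⟩
  obtain ⟨μ, hμ, hμx⟩ := tightAt_iff.mp ht _ hA' h1
  rw [mapP_dirac, hw] at hμx
  have h7 : ms (condP x E μ) {x} = 0 := by
    rw [ms_condP_apply hE (hne μ hμ)]
    have : ({x} : Set X) ∩ E = ∅ := by
      rw [eq_empty_iff_forall_notMem]
      rintro y ⟨h8, h9⟩
      exact h9.2 h8
    rw [this, measure_empty, mul_zero]
  rw [hμx, ms_dirac_eq_one_iff.mpr rfl] at h7
  exact one_ne_zero h7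

omit [CompactSpace X] in
/-- far neighbourhoods -/
theorem exists_far {b : X} (hb : b ≠ x) : ∃ V : Set X, IsOpen V ∧ b ∈ V ∧ x ∉ closure V := by
  obtain ⟨V, W, hV, hW, hbV, hxW, hd⟩ := t2_separation hb
  refine ⟨V, hV, hbV, fun h => ?_⟩
  obtain ⟨z, hz1, hz2⟩ := mem_closure_iff.mp h W hW hxW
  exact disjoint_left.mp hd hz2 hz1

/-- pieces on which every Borel probability measure has nonempty support -/
theorem LimitAt.support (h : LimitAt x G m) {B : Set X} (hB : MeasurableSet B) (hx : x ∉ B)
    (hs : ∀ m' : Measure B, IsProbabilityMeasure m' → ∃ b, ∀ U ∈ 𝓝 b, m' U ≠ 0) : m B = 0 := by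
  have := h.prob
  by_contra hmB
  have hme : MeasurableEmbedding (Subtype.val : B → X) := MeasurableEmbedding.subtype_coe hB
  have h1 : m.comap (Subtype.val : B → X) univ = m B := by
    rw [hme.comap_apply, image_univ, Subtype.range_coe]
  have h2 : IsProbabilityMeasure ((m B)⁻¹ • m.comap (Subtype.val : B → X)) := by
    constructor
    rw [Measure.smul_apply, h1, smul_eq_mul, ENNReal.inv_mul_cancel hmB (measure_ne_top _ _)]
  obtain ⟨b, hb⟩ := hs _ h2
  obtain ⟨V, hV, hbV, hxV⟩ := exists_far (x := x) (b := b) fun h' => hx (h' ▸ b.2)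
  refine hb (Subtype.val ⁻¹' V) ((hV.preimage continuous_subtype_val).mem_nhds hbV) ?_
  rw [Measure.smul_apply, hme.comap_apply, smul_eq_mul,
    measure_mono_null (image_preimage_subset _ _) (h.far hxV), mul_zero]

/-- The class of subsets of the compactum `X` that are *small at `x`*: the smallest class of
subsets of `X`, closed under subsets and countable unions, that contains
* every set whose closure misses `x`;
* the complement of the fibre `f⁻¹(f x)`, if `f : X → Z` is continuous, `Z` is compact and `P(Z)` is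
  countably tight at the Dirac measure at `f x`;
* the range of a continuous injection `g : W → X`, if `W` is compact, `g w = x` and `P(W)` is
  countably tight at the Dirac measure at `w`;
* every Borel set not containing `x` on which every Borel probability measure has nonempty support;
* the set `(⋃ V i) ∩ E`, if `E` is Borel, the `V i` are open, every regular measure charges only
  countably many of the sets `V i ∩ E`, and these are small;
* a Borel set `E`, if there are a countably tight compactum `W` and a closed set `Δ ⊆ W × X` such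
  that every regular Borel probability measure that charges a Borel subset of `E` charges its
  intersection with a section of `Δ`, and the intersections of `E` with the sections are small. -/
inductive SmallAt {X : Type} [TopologicalSpace X] [MeasurableSpace X] (x : X) : Set X → Prop
  | far (V : Set X) : x ∉ closure V → SmallAt x V
  | map (Z : Type) [TopologicalSpace Z] [CompactSpace Z] [T2Space Z] [MeasurableSpace Z]
      [BorelSpace Z] (f : C(X, Z)) : TightAt (dirac (f x)) → SmallAt x {y | f y ≠ f x}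
  | embed (W : Type) [TopologicalSpace W] [CompactSpace W] [T2Space W] [MeasurableSpace W]
      [BorelSpace W] (g : C(W, X)) (w : W) : Function.Injective g → g w = x → TightAt (dirac w) →
      SmallAt x (range g)
  | support (B : Set X) : MeasurableSet B → x ∉ B →
      (∀ m : Measure B, IsProbabilityMeasure m → ∃ b, ∀ U ∈ 𝓝 b, m U ≠ 0) → SmallAt x B
  | family (E : Set X) (ι : Type) (V : ι → Set X) : MeasurableSet E → (∀ i, IsOpen (V i)) →
      (∀ μ : P X, {i | ms μ (V i ∩ E) ≠ 0}.Countable) → (∀ i, SmallAt x (V i ∩ E)) →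
      SmallAt x ((⋃ i, V i) ∩ E)
  | param (W : Type) [TopologicalSpace W] [CompactSpace W] [T2Space W] (Δ : Set (W × X))
      (E : Set X) : (∀ w : W, TightAt w) → IsClosed Δ → MeasurableSet E →
      (∀ (μ : P X) (B : Set X), B ⊆ E → MeasurableSet B → ms μ B ≠ 0 →
        ∃ w, ms μ ({z | (w, z) ∈ Δ} ∩ B) ≠ 0) →
      (∀ w, SmallAt x ({z | (w, z) ∈ Δ} ∩ E)) → SmallAt x E
  | mono (A B : Set X) : A ⊆ B → SmallAt x B → SmallAt x A
  | union (A : ℕ → Set X) : (∀ n, SmallAt x (A n)) → SmallAt x (⋃ n, A n)

theorem LimitAt.small (h : LimitAt x G m) {B : Set X} (hB : SmallAt x B) : m (B \ {x}) = 0 := by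
  have := h.prob
  induction hB with
  | far V hV => exact measure_mono_null Set.sdiff_subset (h.far hV)
  | map Z f hf => exact measure_mono_null Set.sdiff_subset (h.map f hf)
  | embed W g w hg hw ht => exact h.embed g hg hw ht
  | support B hB hx hs => exact measure_mono_null Set.sdiff_subset (h.support hB hx hs)
  | family E ι V hE hV hc _ ih =>
    have hE' : MeasurableSet (E \ {x}) := hE.diff (measurableSet_singleton x)
    have h1 : m ((⋃ i, V i) ∩ (E \ {x})) = 0 := by
      refine h.filt.additive_index h.lim hE' hV (fun μ => ?_) fun i => ?_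
      · refine (hc μ).mono ?_
        intro i hi hi0
        exact hi (measure_mono_null (inter_subset_inter_right _ Set.sdiff_subset) hi0)
      · have := ih i
        rwa [inter_sdiff_assoc] at this
    rwa [inter_sdiff_assoc]
  | param W Δ E hW hΔ hE hch _ ih =>
    have hE' : MeasurableSet (E \ {x}) := hE.diff (measurableSet_singleton x)
    obtain ⟨D, hDc, hD0⟩ := h.filt.exists_countable_sect h.lim hE' hW hΔ
      fun μ B hB hBm hμB => hch μ B (hB.trans Set.sdiff_subset) hBm hμB
    have : Countable D := hDc.to_subtype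
    refine measure_mono_null (t := (⋃ w : D, ({z | (w.1, z) ∈ Δ} ∩ E) \ {x}) ∪
      ((E \ {x}) \ ⋃ w ∈ D, sect Δ w)) ?_ (measure_union_null
        (measure_iUnion_null fun w => ih w) hD0)
    intro z hz
    by_cases hzD : z ∈ ⋃ w ∈ D, sect Δ w
    · obtain ⟨w, hw, hzw⟩ := mem_iUnion₂.mp hzD
      exact Or.inl (mem_iUnion.mpr ⟨⟨w, hw⟩, ⟨hzw, hz.1⟩, hz.2⟩)
    · exact Or.inr ⟨hz, hzD⟩
  | mono A B hAB _ ih => exact measure_mono_null (Set.sdiff_subset_sdiff_left hAB) ih
  | union A _ ih =>
    rw [iUnion_sdiff]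
    exact measure_iUnion_null ih

/-- **Theorem.** If the complement of `x` is small at `x` then `P(X)` has countable tightness at
`δ_x`. -/
theorem tight_of_small (h : SmallAt x ({x}ᶜ : Set X)) : TightAt (dirac x) := by
  by_contra hnt
  obtain ⟨G, m, hG, hne⟩ := exists_limitAt hnt
  have := hG.prob
  have := hG.filt.ne
  have h1 := hG.small h
  have h2 : ({x}ᶜ : Set X) \ {x} = {x}ᶜ := by ext; simp
  rw [h2] at h1
  have h3 := hG.lim _ (measurableSet_singleton x).compl
  rw [h1] at h3
  obtain ⟨μ, h4, h5⟩ := (h3.and hne).exists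
  exact h5 (eq_dirac h4)

theorem SmallAt.union' {ι : Type} [Countable ι] {A : ι → Set X} (h : ∀ i, SmallAt x (A i)) :
    SmallAt x (⋃ i, A i) := by
  rcases isEmpty_or_nonempty ι with hι | hι
  · rw [iUnion_of_empty]
    exact SmallAt.far _ (by simp)
  · obtain ⟨e, he⟩ := exists_surjective_nat ι
    rw [← he.iUnion_comp]
    exact SmallAt.union _ fun n => h (e n)

/-- hereditary for closed subspaces -/
theorem tightAt_of_embed {W : Type} [TopologicalSpace W] [CompactSpace W]
    [T2Space W] [MeasurableSpace W] [BorelSpace W] (g : C(W, X)) (hg : Function.Injective g)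
    {w : W} (ht : TightAt (dirac (g w))) : TightAt (dirac w) := by
  rw [tightAt_iff]
  intro F hF hw
  have h1 : OmegaClosed (mapP g '' F) := hF.image (continuous_mapP g).continuousOn
  have h2 : dirac (g w) ∈ closure (mapP g '' F) := by
    rw [← mapP_dirac]
    exact image_closure_subset_closure_image (continuous_mapP g) ⟨_, hw, rfl⟩
  obtain ⟨σ, hσ, hσw⟩ := tightAt_iff.mp ht _ h1 h2
  rw [← mapP_dirac] at hσw
  rwa [← mapP_injective g hg hσw]

end Pool.Agent.RadT
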