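import Mathlib
import Pool.Agent.RadT.Negl
import Pool.Agent.RadT.MLin

/-!
# Permanence properties of countable tightness of `P(X)` at Dirac measures
-/

open MeasureTheory Set Filter
open scoped Topology ENNReal Cardinal

namespace Pool.Agent.RadT

open Pool.Agent.PolT

/-- `P(X)`, the space of regular Borel probability measures on `X` with the weak topology, has
countable tightness at the Dirac measure at `x`. -/
def DiracTight (X : Type) [TopologicalSpace X] [T2Space X] (x : X) : Prop :=
  letI : MeasurableSpace X := borel X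
  letI : BorelSpace X := ⟨rfl⟩
  TightAt (dirac x)

theorem diracTight_iff {X : Type} [TopologicalSpace X] [T2Space X] [i1 : MeasurableSpace X]
    [i2 : BorelSpace X] (x : X) : DiracTight X x ↔ TightAt (dirac x) := by
  have h : i1 = borel X := i2.measurable_eq
  subst h
  exact Iff.rfl

section

variable {X : Type} [TopologicalSpace X] [CompactSpace X] [T2Space X]

/-- the maps into spaces with countable tightness at the images separate `x` from all points -/
theorem diracTight_of_maps {x : X} {ι : Type} [Countable ι] {Z : ι → Type}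
    [∀ n, TopologicalSpace (Z n)] [∀ n, CompactSpace (Z n)] [∀ n, T2Space (Z n)]
    (f : ∀ n, C(X, Z n)) (hf : ∀ y, (∀ n, f n y = f n x) → y = x)
    (h : ∀ n, DiracTight (Z n) (f n x)) : DiracTight X x := by
  let _ : MeasurableSpace X := borel X
  have _ : BorelSpace X := ⟨rfl⟩
  let _ : ∀ n, MeasurableSpace (Z n) := fun n => borel (Z n)
  have _ : ∀ n, BorelSpace (Z n) := fun n => ⟨rfl⟩
  rw [diracTight_iff]
  refine tight_of_small (SmallAt.mono _ _ ?_ (SmallAt.union' fun n =>
    SmallAt.map (Z n) (f n) ((diracTight_iff _).mp (h n))))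
  intro y hy
  by_contra hno
  apply hy
  refine hf y fun n => ?_
  by_contra hn
  exact hno (mem_iUnion.mpr ⟨n, hn⟩)

theorem diracTight_of_embed {W : Type} [TopologicalSpace W] [CompactSpace W] [T2Space W]
    (g : C(W, X)) (hg : Function.Injective g) {w : W} (h : DiracTight X (g w)) :
    DiracTight W w := by
  let _ : MeasurableSpace X := borel X
  have _ : BorelSpace X := ⟨rfl⟩
  let _ : MeasurableSpace W := borel W
  have _ : BorelSpace W := ⟨rfl⟩
  rw [diracTight_iff] at h ⊢
  exact tightAt_of_embed g hg h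

/-- countable products -/
theorem diracTight_pi {ι : Type} [Countable ι] {Z : ι → Type} [∀ n, TopologicalSpace (Z n)]
    [∀ n, CompactSpace (Z n)] [∀ n, T2Space (Z n)] (z : ∀ n, Z n) :
    DiracTight (∀ n, Z n) z ↔ ∀ n, DiracTight (Z n) (z n) := by
  classical
  constructor
  · intro h n
    refine diracTight_of_embed ⟨fun t => Function.update z n t, ?_⟩ ?_ (w := z n) ?_
    · exact continuous_const.update n continuous_id
    · exact Function.update_injective z n
    · simpa using h
  · intro h
    exact diracTight_of_maps (fun n => ⟨fun y => y n, continuous_apply n⟩)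
      (fun y hy => funext hy) h

theorem diracTight_prod {Y : Type} [TopologicalSpace Y] [CompactSpace Y] [T2Space Y] (x : X)
    (y : Y) : DiracTight (X × Y) (x, y) ↔ DiracTight X x ∧ DiracTight Y y := by
  constructor
  · intro h
    constructor
    · exact diracTight_of_embed ⟨fun t => (t, y), by fun_prop⟩ (fun a b hab => (Prod.mk.inj hab).1) h
    · exact diracTight_of_embed ⟨fun t => (x, t), by fun_prop⟩ (fun a b hab => (Prod.mk.inj hab).2) h
  · rintro ⟨h1, h2⟩
    let _ : MeasurableSpace (X × Y) := borel (X × Y)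
    have _ : BorelSpace (X × Y) := ⟨rfl⟩
    let _ : MeasurableSpace X := borel X
    have _ : BorelSpace X := ⟨rfl⟩
    let _ : MeasurableSpace Y := borel Y
    have _ : BorelSpace Y := ⟨rfl⟩
    rw [diracTight_iff] at h1 h2 ⊢
    have h3 := SmallAt.map (x := (x, y)) X ⟨Prod.fst, continuous_fst⟩ h1
    have h4 := SmallAt.map (x := (x, y)) Y ⟨Prod.snd, continuous_snd⟩ h2
    refine tight_of_small (SmallAt.mono _ _ ?_ (SmallAt.union' (ι := Bool)
      (A := fun b => if b then {p : X × Y | p.1 ≠ x} else {p : X × Y | p.2 ≠ y}) fun b => ?_))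
    · rintro ⟨a, b⟩ hab
      rw [mem_iUnion]
      by_cases ha : a = x
      · refine ⟨false, ?_⟩
        have : b ≠ y := by
          rintro rfl
          exact hab (by rw [ha]; rfl)
        exact this
      · exact ⟨true, ha⟩
    · cases b
      · exact h4
      · exact h3

/-- fibres -/
theorem diracTight_of_fibre {Z : Type} [TopologicalSpace Z] [CompactSpace Z] [T2Space Z]
    (f : C(X, Z)) (x : X) (h1 : DiracTight Z (f x))
    (h2 : DiracTight (f ⁻¹' {f x} : Set X) ⟨x, rfl⟩) : DiracTight X x := by
  let _ : MeasurableSpace X := borel X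
  have _ : BorelSpace X := ⟨rfl⟩
  let _ : MeasurableSpace Z := borel Z
  have _ : BorelSpace Z := ⟨rfl⟩
  let A : Set X := f ⁻¹' {f x}
  have hA : IsClosed A := isClosed_singleton.preimage f.continuous
  have _ : CompactSpace A := isCompact_iff_compactSpace.mp hA.isCompact
  have h2 : DiracTight A ⟨x, rfl⟩ := h2
  rw [diracTight_iff] at h1 h2 ⊢
  have h3 := SmallAt.map (x := x) Z f h1
  have h4 := SmallAt.embed (x := x) A ⟨Subtype.val, continuous_subtype_val⟩ ⟨x, rfl⟩
    Subtype.val_injective rfl h2
  refine tight_of_small (SmallAt.mono _ _ ?_ (SmallAt.union' (ι := Bool)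
    (A := fun b => if b then {y | f y ≠ f x} else range (Subtype.val : A → X)) fun b => ?_))
  · intro a _
    rw [mem_iUnion]
    by_cases ha : f a = f x
    · exact ⟨false, ⟨a, ha⟩, rfl⟩
    · exact ⟨true, ha⟩
  · cases b
    · exact h4
    · exact h3

/-- countable closed covers -/
theorem diracTight_cover {ι : Type} [Countable ι] {A : ι → Set X} (hA : ∀ n, IsClosed (A n))
    (hU : ⋃ n, A n = univ) (x : X) :
    DiracTight X x ↔ ∀ n (h : x ∈ A n), DiracTight (A n) ⟨x, h⟩ := by
  have hc : ∀ n, CompactSpace (A n) := fun n => isCompact_iff_compactSpace.mp (hA n).isCompact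
  constructor
  · intro h n hn
    exact diracTight_of_embed (W := A n) ⟨Subtype.val, continuous_subtype_val⟩
      Subtype.val_injective (w := ⟨x, hn⟩) h
  · intro h
    let _ : MeasurableSpace X := borel X
    have _ : BorelSpace X := ⟨rfl⟩
    rw [diracTight_iff]
    refine tight_of_small (SmallAt.mono _ (⋃ n, A n) (by rw [hU]; exact subset_univ _)
      (SmallAt.union' fun n => ?_))
    by_cases hn : x ∈ A n
    · have h2 := h n hn
      rw [diracTight_iff] at h2
      have h4 := SmallAt.embed (x := x) (A n) ⟨Subtype.val, continuous_subtype_val⟩ ⟨x, hn⟩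
        Subtype.val_injective rfl h2
      refine SmallAt.mono _ _ ?_ h4
      intro a ha
      exact ⟨⟨a, ha⟩, rfl⟩
    · exact SmallAt.far _ (by rwa [(hA n).closure_eq])

end

section

variable {X : Type} [TopologicalSpace X] [CompactSpace X] [T2Space X]
  [MeasurableSpace X] [BorelSpace X] {x : X}

/-- scattered Borel pieces of countably tight compacta -/
theorem SmallAt.scattered (hX : ∀ y : X, TightAt y) {B : Set X} (hB : MeasurableSet B)
    (hs : ∀ C ⊆ B, C.Nonempty → ∃ w, ∃ U, IsOpen U ∧ U ∩ C = {w}) : SmallAt x (B \ {x}) := by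
  refine SmallAt.param X {p : X × X | p.1 = p.2} (B \ {x}) hX
    (isClosed_eq continuous_fst continuous_snd) (hB.diff (measurableSet_singleton x)) ?_ ?_
  · intro μ E hEB hE hμE
    let 𝓞 := {V : Set X // IsOpen V ∧ ms μ (V ∩ E) = 0}
    let O : Set X := ⋃ V : 𝓞, V.1
    have hO0 : ms μ (O ∩ E) = 0 := iUnion_inter_null μ (fun V : 𝓞 => V.2.1) hE fun V => V.2.2
    have hne : (E \ O).Nonempty := by
      by_contra hne
      rw [not_nonempty_iff_eq_empty, Set.sdiff_eq_empty] at hne
      rw [inter_eq_right.mpr hne] at hO0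
      exact hμE hO0
    obtain ⟨w, U, hU, hUw⟩ := hs (E \ O) (Set.sdiff_subset.trans (hEB.trans Set.sdiff_subset)) hne
    have hw : w ∈ U ∩ (E \ O) := by rw [hUw]; rfl
    refine ⟨w, fun h0 => ?_⟩
    apply hw.2.2
    refine mem_iUnion.mpr ⟨⟨U, hU, ?_⟩, hw.1⟩
    refine measure_mono_null (t := ({z | (w, z) ∈ {p : X × X | p.1 = p.2}} ∩ E) ∪ (O ∩ E)) ?_
      (measure_union_null h0 hO0)
    rintro z ⟨hzU, hzE⟩
    by_cases hz : z ∈ O
    · exact Or.inr ⟨hz, hzE⟩
    · have : z ∈ U ∩ (E \ O) := ⟨hzU, hzE, hz⟩
      rw [hUw] at this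
      exact Or.inl ⟨(this : z = w).symm, hzE⟩
  · intro w
    by_cases hw : w = x
    · refine SmallAt.mono _ ∅ ?_ (SmallAt.far _ (by simp))
      rintro z ⟨h1, h2⟩
      exact absurd ((h1 : w = z).symm.trans hw) h2.2
    · refine SmallAt.mono _ {w} ?_ (SmallAt.far _ ?_)
      · rintro z ⟨h1, -⟩
        exact (h1 : w = z).symm
      · rw [closure_singleton]
        exact fun h => hw (h : x = w).symm

end

/-- the perfect kernel: only a closed set with scattered complement matters -/
theorem diracTight_kernel {X : Type} [TopologicalSpace X] [CompactSpace X] [T2Space X]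
    (hX : ∀ y : X, TightAt y) {K : Set X} (hK : IsClosed K)
    (hs : ∀ C ⊆ Kᶜ, C.Nonempty → ∃ w, ∃ U, IsOpen U ∧ U ∩ C = {w}) (x : X) :
    DiracTight X x ↔ ∀ h : x ∈ K, DiracTight K ⟨x, h⟩ := by
  have hc : CompactSpace K := isCompact_iff_compactSpace.mp hK.isCompact
  constructor
  · intro h hn
    exact diracTight_of_embed (W := K) ⟨Subtype.val, continuous_subtype_val⟩
      Subtype.val_injective (w := ⟨x, hn⟩) h
  · intro h
    let _ : MeasurableSpace X := borel X
    have _ : BorelSpace X := ⟨rfl⟩
    rw [diracTight_iff]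
    have h1 : SmallAt x (Kᶜ \ {x}) := SmallAt.scattered hX hK.isOpen_compl.measurableSet hs
    have h2 : SmallAt x K := by
      by_cases hn : x ∈ K
      · have h2 := h hn
        rw [diracTight_iff] at h2
        refine SmallAt.mono _ _ ?_ (SmallAt.embed (x := x) K ⟨Subtype.val, continuous_subtype_val⟩
          ⟨x, hn⟩ Subtype.val_injective rfl h2)
        intro a ha
        exact ⟨⟨a, ha⟩, rfl⟩
      · exact SmallAt.far _ (by rwa [hK.closure_eq])
    refine tight_of_small (SmallAt.mono _ _ ?_ (SmallAt.union' (ι := Bool)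
      (A := fun b => if b then K else Kᶜ \ {x}) fun b => ?_))
    · intro a ha
      rw [mem_iUnion]
      by_cases haK : a ∈ K
      · exact ⟨true, haK⟩
      · exact ⟨false, haK, ha⟩
    · cases b
      · exact h1
      · exact h2

end Pool.Agent.RadT
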