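import Mathlib
import Pool.Agent.RadT.Perm

/-!
# Reduction to atomless measures; Radon compacta
-/

open MeasureTheory Set Filter
open scoped Topology ENNReal Cardinal BoundedContinuousFunction CompactlySupported

namespace Pool.Agent.RadT

open Pool.Agent.PolT

variable {X : Type} [TopologicalSpace X] [CompactSpace X] [T2Space X]
  [MeasurableSpace X] [BorelSpace X] {x : X}

/-- structure of failures of countable tightness at a Dirac measure -/
theorem exists_structure (h : ¬ TightAt (dirac x)) : ∃ (A : Set (P X)) (m : Measure X),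
    OmegaClosed A ∧ dirac x ∈ closure A ∧ (∀ μ ∈ A, ms μ {x} = 0) ∧
    ((∀ y : X, TightAt y) → ∀ μ ∈ A, ∀ y, ms μ {y} = 0) ∧
    IsProbabilityMeasure m ∧ (∀ U, IsOpen U → x ∈ U → m U = 1) ∧
    (∀ B, SmallAt x B → m B = 0) ∧
    (∀ 𝓑 : Set (Set X), 𝓑.Countable → (∀ B ∈ 𝓑, MeasurableSet B) →
      ∃ μ ∈ A, ∀ B ∈ 𝓑, ms μ B = m B) := by
  obtain ⟨G, m, hL, hne⟩ := exists_limitAt h
  have := hL.prob
  have := hL.filt.ne
  have := hL.filt.cif
  set E : Set X := {x}ᶜ with hEdef
  have hE : MeasurableSet E := (measurableSet_singleton x).compl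
  have hmE : m E ≠ 0 := by
    intro h0
    have h3 := hL.lim _ hE
    rw [h0] at h3
    obtain ⟨μ, h4, h5⟩ := (h3.and hne).exists
    exact h5 (eq_dirac h4)
  obtain ⟨F, hF, hFc, hFE, hcont⟩ := hL.cond hE hmE
  have hat : ∀ᶠ μ in G, (∀ y : X, TightAt y) → ∀ w, ms μ (sect {p : X × X | p.1 = p.2} w ∩ E) = 0 := by
    by_cases hX : ∀ y : X, TightAt y
    · rcases hL.filt.sect_dichotomy hL.lim hE hX
        (isClosed_eq (continuous_fst (X := X) (Y := X)) continuous_snd) with ⟨w, hw⟩ | h1
      · exfalso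
        apply hw
        by_cases hwx : w = x
        · have : sect {p : X × X | p.1 = p.2} w ∩ E = ∅ := by
            rw [eq_empty_iff_forall_notMem]
            rintro z ⟨h1, h2⟩
            exact h2 ((h1 : w = z).symm.trans hwx)
          rw [this, measure_empty]
        · refine measure_mono_null (t := {w}) ?_ (hL.far ?_)
          · rintro z ⟨h1, -⟩
            exact (h1 : w = z).symm
          · rw [closure_singleton]
            exact fun h => hwx (h : x = w).symm
      · exact h1.mono fun μ hμ _ => hμ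
    · exact Eventually.of_forall fun μ h' => absurd h' hX
  obtain ⟨F₁, hF₁, hF₁c, hF₁s⟩ := hL.filt.basis _ (inter_mem hF hat)
  have hne' : ∀ μ ∈ F₁, ms μ E ≠ 0 := fun μ hμ => by rw [hFE μ (hF₁s hμ).1]; exact hmE
  have hxE : ∀ y, ({y} : Set X) ∩ E = sect {p : X × X | p.1 = p.2} y ∩ E := by
    intro y
    congr 1
    ext z
    exact eq_comm
  refine ⟨condP x E '' F₁, (m E)⁻¹ • m.restrict E, ?_, ?_, ?_, ?_, ?_, ?_, ?_, ?_⟩
  · exact hF₁c.image (hcont.mono fun μ hμ => (hF₁s hμ).1)
  · refine mem_closure_of_tendsto (hL.tendsto_cond hE hmE) ?_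
    filter_upwards [hF₁] with μ hμ
    exact ⟨μ, hμ, rfl⟩
  · rintro _ ⟨μ, hμ, rfl⟩
    rw [ms_condP_apply hE (hne' μ hμ)]
    have : ({x} : Set X) ∩ E = ∅ := by simp [hEdef]
    rw [this, measure_empty, mul_zero]
  · rintro hX _ ⟨μ, hμ, rfl⟩ y
    rw [ms_condP_apply hE (hne' μ hμ), hxE, (hF₁s hμ).2 hX y, mul_zero]
  · constructor
    rw [Measure.smul_apply, Measure.restrict_apply MeasurableSet.univ, univ_inter, smul_eq_mul,
      ENNReal.inv_mul_cancel hmE (measure_ne_top _ _)]
  · intro U hU hxU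
    rw [Measure.smul_apply, Measure.restrict_apply hU.measurableSet, smul_eq_mul]
    have h1 : m (U ∩ E) = m E := by
      refine le_antisymm (measure_mono inter_subset_right) ?_
      have h2 : m Uᶜ = 0 := by
        rw [prob_compl_eq_one_sub hU.measurableSet, hL.open_one hU hxU, tsub_self]
      calc m E ≤ m ((U ∩ E) ∪ Uᶜ) := measure_mono (by
            intro z hz; by_cases h : z ∈ U <;> simp [h, hz])
        _ ≤ m (U ∩ E) + m Uᶜ := measure_union_le _ _
        _ = m (U ∩ E) := by rw [h2, add_zero]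
    rw [h1, ENNReal.inv_mul_cancel hmE (measure_ne_top _ _)]
  · intro B hB
    rw [Measure.smul_apply, Measure.restrict_apply₀' hE.nullMeasurableSet, smul_eq_mul]
    have : B ∩ E = B \ {x} := rfl
    rw [this, hL.small hB, mul_zero]
  · intro 𝓑 hc hb
    have h1 := hL.filt.agree hL.lim (𝓑 := (fun B => B ∩ E) '' 𝓑) (hc.image _) (by
      rintro _ ⟨B, hB, rfl⟩
      exact (hb B hB).inter hE)
    obtain ⟨μ, h2, h3⟩ := (h1.and (eventually_of_mem hF₁ fun μ hμ => hμ)).exists
    refine ⟨_, ⟨μ, h3, rfl⟩, fun B hB => ?_⟩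
    rw [ms_condP_apply hE (hne' μ h3), Measure.smul_apply, Measure.restrict_apply (hb B hB),
      smul_eq_mul, h2 _ ⟨B, hB, rfl⟩, hFE μ (hF₁s h3).1]

/-- **Reduction to atomless measures.** -/
theorem tightAt_iff_atomless (hX : ∀ y : X, TightAt y) : TightAt (dirac x) ↔
    ∀ A : Set (P X), (∀ μ ∈ A, ∀ y, ms μ {y} = 0) → dirac x ∈ closure A →
      ∃ B ⊆ A, B.Countable ∧ dirac x ∈ closure B := by
  refine ⟨fun h A _ hA => h A hA, fun h => ?_⟩
  by_contra hnt
  obtain ⟨A, m, h1, h2, h3, h4, -⟩ := exists_structure hnt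
  obtain ⟨B, hBA, hBc, hxB⟩ := h A (h4 hX) h2
  have h5 : dirac x ∈ A := h1 B hBA hBc hxB
  have h6 := h3 _ h5
  rw [ms_dirac_eq_one_iff.mpr rfl] at h6
  exact one_ne_zero h6

/-- `m` is *countably determined* by Borel sets: for some countable family of Borel sets, the
measure of every open set `U` is the supremum of the measures of the members contained in `U`. -/
def CountablyDetermined (m : Measure X) : Prop :=
  ∃ 𝓒 : Set (Set X), 𝓒.Countable ∧ (∀ C ∈ 𝓒, MeasurableSet C) ∧
    ∀ U, IsOpen U → m U ≤ ⨆ C ∈ {C ∈ 𝓒 | C ⊆ U}, m C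

/-- if all Borel measures with the same integrals of continuous functions as `μ₀` are countably
determined then `μ₀` is a point of countable tightness -/
theorem tight_of_determined (μ₀ : P X)
    (h : ∀ m : Measure X, IsProbabilityMeasure m →
      (∀ f : C(X, ℝ), ∫ y, f y ∂m = ∫ y, f y ∂(ms μ₀)) → CountablyDetermined m) :
    TightAt μ₀ := by
  by_contra hnt
  obtain ⟨G, hG, hne, hN⟩ := exists_oFilter_of_not_tight hnt
  have := hG.ne
  obtain ⟨m, hmp, hm⟩ := hG.exists_measure
  obtain ⟨𝓒, h1, h2, h3⟩ := h m hmp fun f => hG.integral_eq hm hN f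
  obtain ⟨μ, h4, h5⟩ := ((hG.eq_of_determined hm hN h1 h2 h3).and hne).exists
  exact h5 h4

/-- compacta all of whose Borel probability measures are regular -/
theorem tight_of_radon (hR : ∀ m : Measure X, IsProbabilityMeasure m → m.Regular) (μ₀ : P X)
    (h : CountablyDetermined (ms μ₀)) : TightAt μ₀ := by
  refine tight_of_determined μ₀ fun m hm hf => ?_
  have := hR m hm
  have h1 : m = ms μ₀ :=
    Measure.ext_of_integral_eq_on_compactlySupported fun f => hf f.toContinuousMap
  rw [h1]
  exact h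

omit [CompactSpace X] in
theorem countablyDetermined_dirac : CountablyDetermined (ms (dirac x)) := by
  refine ⟨{{x}}, countable_singleton _, ?_, fun U hU => ?_⟩
  · rintro _ rfl
    exact measurableSet_singleton x
  · by_cases hx : x ∈ U
    · have h1 : ({x} : Set X) ∈ {C ∈ ({{x}} : Set (Set X)) | C ⊆ U} :=
        ⟨rfl, singleton_subset_iff.mpr hx⟩
      refine le_trans ?_ (le_iSup₂ (f := fun (C : Set X)
        (_ : C ∈ {C ∈ ({{x}} : Set (Set X)) | C ⊆ U}) => ms (dirac x) C) _ h1)
      have h2 : ms (dirac x) = Measure.dirac x := rfl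
      rw [h2, Measure.dirac_apply' x hU.measurableSet,
        Measure.dirac_apply' x (measurableSet_singleton x), indicator_of_mem hx,
        indicator_of_mem (mem_singleton x)]
    · have h2 : ms (dirac x) = Measure.dirac x := rfl
      rw [h2, Measure.dirac_apply' x hU.measurableSet, indicator_of_notMem hx]
      exact zero_le

end Pool.Agent.RadT
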