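import Mathlib
import Pool.Agent.RadT.Perm

/-!
# Convex compacta at extreme points
-/

open MeasureTheory Set Filter
open scoped Topology ENNReal Cardinal BoundedContinuousFunction CompactlySupported

namespace Pool.Agent.RadT

open Pool.Agent.PolT

theorem TightAt.homeo {T T' : Type*} [TopologicalSpace T] [TopologicalSpace T'] (e : T ≃ₜ T')
    {y : T} (h : TightAt y) : TightAt (e y) := by
  intro A hA
  have h1 : y ∈ closure (e.symm '' A) := by
    rw [← e.symm.image_closure]
    exact ⟨e y, hA, e.symm_apply_apply y⟩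
  obtain ⟨B, hBA, hBc, hyB⟩ := h _ h1
  refine ⟨e '' B, ?_, hBc.image _, ?_⟩
  · rintro _ ⟨b, hb, rfl⟩
    obtain ⟨a, ha, hab⟩ := hBA hb
    rw [← hab, e.apply_symm_apply]
    exact ha
  · rw [← e.image_closure]
    exact ⟨y, hyB, rfl⟩

section

variable {E : Type} [AddCommGroup E] [Module ℝ E] [TopologicalSpace E] [IsTopologicalAddGroup E]
  [ContinuousSMul ℝ E] [T2Space E] [LocallyConvexSpace ℝ E] {K : Set E}

omit [IsTopologicalAddGroup E] [ContinuousSMul ℝ E] [T2Space E] [LocallyConvexSpace ℝ E] in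
/-- a continuous linear functional on `K` -/
def resF (l : StrongDual ℝ E) : C(K, ℝ) := ⟨fun k => l k, l.continuous.comp continuous_subtype_val⟩

/-- `k` is the barycenter of `ρ` -/
def Bar [MeasurableSpace K] (ρ : P K) (k : K) : Prop :=
  ∀ l : StrongDual ℝ E, ∫ y, (resF l : C(K, ℝ)) y ∂(ms ρ) = l k

variable [CompactSpace K] [MeasurableSpace K] [BorelSpace K]

theorem isClosed_bar : IsClosed {p : P K × K | Bar p.1 p.2} := by
  have : {p : P K × K | Bar p.1 p.2} =
      ⋂ l : StrongDual ℝ E, {p : P K × K | ∫ y, (resF l : C(K, ℝ)) y ∂(ms p.1) = l p.2} := by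
    ext p
    simp only [mem_iInter]
    exact Iff.rfl
  rw [this]
  refine isClosed_iInter fun l => isClosed_eq ((continuous_int _).comp continuous_fst) ?_
  exact l.continuous.comp (continuous_subtype_val.comp continuous_snd)

theorem exists_bar (hc : Convex ℝ K) (ρ : P K) : ∃ k, Bar ρ k := by
  classical
  have hK : IsCompact K := isCompact_iff_compactSpace.mpr inferInstance
  have hint : ∀ l : StrongDual ℝ E, Integrable (fun y => (resF l : C(K, ℝ)) y) (ms ρ) := fun l =>
    integrable_of_cont _ _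
  have h1 : (⋂ l : StrongDual ℝ E,
      {k : K | l k = ∫ y, (resF l : C(K, ℝ)) y ∂(ms ρ)}).Nonempty := by
    refine CompactSpace.iInter_nonempty (fun l => ?_) fun s => ?_
    · exact isClosed_eq (l.continuous.comp continuous_subtype_val) continuous_const
    · let T : E →ₗ[ℝ] (s → ℝ) := LinearMap.pi fun l => (l.1 : E →ₗ[ℝ] ℝ)
      have hT : Continuous T := continuous_pi fun l => l.1.continuous
      have hTK : IsClosed (T '' K) := (hK.image hT).isClosed
      have hTc : Convex ℝ (T '' K) := hc.linear_image T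
      have h2 : ∫ y : K, T y ∂(ms ρ) ∈ T '' K := by
        refine hTc.integral_mem hTK (Eventually.of_forall fun y => ⟨y, y.2, rfl⟩) ?_
        exact Integrable.of_eval fun l => hint l.1
      obtain ⟨k, hk, hkT⟩ := h2
      refine ⟨⟨k, hk⟩, ?_⟩
      rw [mem_iInter₂]
      intro l hl
      have h3 := congrFun hkT ⟨l, hl⟩
      have h4 : (∫ y : K, T y ∂(ms ρ)) ⟨l, hl⟩ = ∫ y : K, T y ⟨l, hl⟩ ∂(ms ρ) :=
        eval_integral (f := fun y : K => (T y : s → ℝ)) (fun l => hint l.1) ⟨l, hl⟩
      rw [h4] at h3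
      exact h3
  obtain ⟨k, hk⟩ := h1
  exact ⟨k, fun l => (mem_iInter.mp hk l).symm⟩

theorem eq_of_functionals {a b : E} (h : ∀ l : StrongDual ℝ E, l a = l b) : a = b := by
  by_contra hne
  obtain ⟨l, hl⟩ := geometric_hahn_banach_point_point hne
  exact absurd (h l) hl.ne

/-- Bauer: an extreme point has a unique representing measure -/
theorem eq_dirac_of_bar (hc : Convex ℝ K) {e : K} (he : (e : E) ∈ K.extremePoints ℝ) {ρ : P K}
    (h : Bar ρ e) : ρ = dirac e := by
  have hK : IsCompact K := isCompact_iff_compactSpace.mpr inferInstance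
  rw [mem_extremePoints] at he
  -- all closed half spaces missing `e` are null
  have hD : ∀ (l : StrongDual ℝ E) (n : ℕ),
      ms ρ {k : K | l e + 1 / ((n : ℝ) + 1) ≤ l k} = 0 := by
    intro l n
    set D : Set K := {k : K | l e + 1 / ((n : ℝ) + 1) ≤ l k} with hDdef
    have hpos : (0 : ℝ) < 1 / ((n : ℝ) + 1) := by positivity
    have hDc : IsClosed D := isClosed_le continuous_const (l.continuous.comp continuous_subtype_val)
    have hDm : MeasurableSet D := hDc.measurableSet
    by_contra hD0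
    -- integral over `D`
    have h1 : ∀ μ : P K, ms μ Dᶜ = 0 → l e + 1 / ((n : ℝ) + 1) ≤
        ∫ y, (resF l : C(K, ℝ)) y ∂(ms μ) := by
      intro μ hμ
      have h2 : ∫ _y : K, (l e + 1 / ((n : ℝ) + 1)) ∂(ms μ) ≤
          ∫ y, (resF l : C(K, ℝ)) y ∂(ms μ) := by
        refine integral_mono_ae (integrable_const _) (integrable_of_cont _ _) ?_
        have h3 : ∀ᵐ y ∂(ms μ), y ∈ D := by
          rw [ae_iff]
          exact hμ
        filter_upwards [h3] with y hy
        exact hy
      rwa [integral_const, probReal_univ, one_smul] at h2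
    by_cases hD1 : ms ρ Dᶜ = 0
    · have h2 := h1 ρ hD1
      rw [h l] at h2
      linarith
    · obtain ⟨k₁, hk₁⟩ := exists_bar hc (condP e D ρ)
      obtain ⟨k₂, hk₂⟩ := exists_bar hc (condP e Dᶜ ρ)
      have ha : ms ρ D ≠ ⊤ := measure_ne_top _ _
      have hb : ms ρ Dᶜ ≠ ⊤ := measure_ne_top _ _
      have ha' : 0 < (ms ρ D).toReal := ENNReal.toReal_pos hD0 ha
      have hb' : 0 < (ms ρ Dᶜ).toReal := ENNReal.toReal_pos hD1 hb
      have hab : (ms ρ D).toReal + (ms ρ Dᶜ).toReal = 1 := by
        rw [← ENNReal.toReal_add ha hb, measure_add_measure_compl hDm, measure_univ]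
        rfl
      have h4 : (e : E) = (ms ρ D).toReal • (k₁ : E) + (ms ρ Dᶜ).toReal • (k₂ : E) := by
        refine eq_of_functionals fun l' => ?_
        rw [map_add, map_smul, map_smul, smul_eq_mul, smul_eq_mul, ← hk₁ l', ← hk₂ l', ← h l',
          condP_integral hD0, condP_integral hD1, ENNReal.toReal_inv, ENNReal.toReal_inv,
          ← mul_assoc, ← mul_assoc, mul_inv_cancel₀ ha'.ne', mul_inv_cancel₀ hb'.ne', one_mul,
          one_mul, integral_add_compl hDm (integrable_of_cont _ _)]
      have h5 := (he.2 k₁ k₁.2 k₂ k₂.2 ⟨_, _, ha', hb', hab, h4.symm⟩).1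
      have h6 := h1 (condP e D ρ) (by
        rw [ms_condP_apply hDm hD0]
        simp)
      rw [hk₁ l, h5] at h6
      linarith
  refine eq_dirac ?_
  have h7 : ({e}ᶜ : Set K) ⊆ ⋃₀ (range fun l : StrongDual ℝ E => {k : K | l e < l k}) := by
    intro k hk
    have hne : (e : E) ≠ k := fun h' => hk (Subtype.ext h'.symm)
    obtain ⟨l, hl⟩ := geometric_hahn_banach_point_point hne
    exact ⟨_, ⟨l, rfl⟩, hl⟩
  refine measure_mono_null h7 (sUnion_null ρ ?_ ?_)
  · rintro _ ⟨l, rfl⟩
    exact _root_.isOpen_lt continuous_const (l.continuous.comp continuous_subtype_val)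
  · rintro _ ⟨l, rfl⟩
    have h8 : {k : K | l e < l k} ⊆ ⋃ n : ℕ, {k : K | l e + 1 / ((n : ℝ) + 1) ≤ l k} := by
      intro k hk
      have hk : l e < l k := hk
      obtain ⟨n, hn⟩ := exists_nat_one_div_lt (sub_pos.mpr hk)
      refine mem_iUnion.mpr ⟨n, ?_⟩
      show l e + 1 / ((n : ℝ) + 1) ≤ l k
      linarith
    exact measure_mono_null h8 (measure_iUnion_null fun n => hD l n)

/-- extreme points of countable tightness of compact convex sets -/
theorem tightAt_dirac_of_extreme (hc : Convex ℝ K) {e : K}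
    (he : (e : E) ∈ K.extremePoints ℝ) (ht : TightAt e) : TightAt (dirac e) := by
  rw [tightAt_iff]
  intro F hF hδ
  -- barycenters of members of `F`
  have hR : OmegaClosed {p : P K × K | p.1 ∈ F ∧ Bar p.1 p.2} :=
    (hF.preimage continuous_fst).inter (omegaClosed_of_isClosed isClosed_bar)
  have hS : OmegaClosed (Prod.snd '' {p : P K × K | p.1 ∈ F ∧ Bar p.1 p.2}) :=
    hR.image continuous_snd.continuousOn
  have hcl : e ∈ closure (Prod.snd '' {p : P K × K | p.1 ∈ F ∧ Bar p.1 p.2}) := by
    set C := closure (Prod.snd '' {p : P K × K | p.1 ∈ F ∧ Bar p.1 p.2}) with hC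
    have h1 : IsClosed (Prod.fst '' ({p : P K × K | Bar p.1 p.2} ∩ (univ : Set (P K)) ×ˢ C)) :=
      ((isClosed_bar.inter (isClosed_univ.prod isClosed_closure)).isCompact.image
        continuous_fst).isClosed
    have h2 : F ⊆ Prod.fst '' ({p : P K × K | Bar p.1 p.2} ∩ (univ : Set (P K)) ×ˢ C) := by
      intro ρ hρ
      obtain ⟨k, hk⟩ := exists_bar hc ρ
      exact ⟨(ρ, k), ⟨hk, mem_univ _, subset_closure ⟨(ρ, k), ⟨hρ, hk⟩, rfl⟩⟩, rfl⟩
    obtain ⟨⟨ρ, k⟩, ⟨h3, -, h4⟩, h5⟩ := closure_minimal h2 h1 hδ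
    have h5' : ρ = dirac e := h5
    have h3' : Bar ρ k := h3
    have h6 : (k : E) = e := by
      refine eq_of_functionals fun l => ?_
      rw [← h3' l, h5']
      have h7 : ms (dirac e) = Measure.dirac e := rfl
      rw [h7, integral_dirac]
      rfl
    have h7 : k = e := Subtype.ext h6
    rw [h7] at h4
    exact h4
  obtain ⟨⟨ρ, k⟩, ⟨h1, h2⟩, h3⟩ := tightAt_iff.mp ht _ hS hcl
  have h3' : k = e := h3
  have h2' : Bar ρ k := h2
  rw [h3'] at h2'
  rw [← eq_dirac_of_bar hc he h2']
  exact h1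

end

section

variable {X : Type} [TopologicalSpace X] [CompactSpace X] [T2Space X]
  [MeasurableSpace X] [BorelSpace X]

/-- `P(X)` as a set of functionals -/
noncomputable def emb (μ : P X) : C(X, ℝ) → ℝ := fun f => ∫ y, f y ∂(ms μ)

theorem continuous_emb : Continuous (emb : P X → C(X, ℝ) → ℝ) :=
  continuous_pi fun f => continuous_int f

theorem emb_injective : Function.Injective (emb : P X → C(X, ℝ) → ℝ) := fun _ _ h =>
  P_ext_int fun f => congrFun h f

theorem convex_range_emb : Convex ℝ (range (emb : P X → C(X, ℝ) → ℝ)) := by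
  rintro _ ⟨μ, rfl⟩ _ ⟨ν, rfl⟩ a b ha hb hab
  have h1 : IsProbabilityMeasure (ENNReal.ofReal a • ms μ + ENNReal.ofReal b • ms ν) := by
    constructor
    rw [Measure.add_apply, Measure.smul_apply, Measure.smul_apply, measure_univ, measure_univ,
      smul_eq_mul, smul_eq_mul, mul_one, mul_one, ← ENNReal.ofReal_add ha hb, hab,
      ENNReal.ofReal_one]
  obtain ⟨σ, hσ⟩ := exists_regular (ENNReal.ofReal a • ms μ + ENNReal.ofReal b • ms ν)
  refine ⟨σ, ?_⟩
  ext f
  have h2 : Integrable (fun y => f y) (ENNReal.ofReal a • ms μ) :=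
    (integrable_of_cont f _).smul_measure ENNReal.ofReal_ne_top
  have h3 : Integrable (fun y => f y) (ENNReal.ofReal b • ms ν) :=
    (integrable_of_cont f _).smul_measure ENNReal.ofReal_ne_top
  show ∫ y, f y ∂(ms σ) = a * ∫ y, f y ∂(ms μ) + b * ∫ y, f y ∂(ms ν)
  rw [hσ f, integral_add_measure h2 h3, integral_smul_measure, integral_smul_measure,
    ENNReal.toReal_ofReal ha, ENNReal.toReal_ofReal hb, smul_eq_mul, smul_eq_mul]

theorem emb_dirac_extreme (x : X) :
    emb (dirac x) ∈ (range (emb : P X → C(X, ℝ) → ℝ)).extremePoints ℝ := by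
  have key : ∀ (μ ν : P X) (a b : ℝ), 0 < a → 0 < b → a + b = 1 →
      a • emb μ + b • emb ν = emb (dirac x) → emb μ = emb (dirac x) := by
    intro μ ν a b ha hb hab h
    have hδ : ∀ f : C(X, ℝ), emb (dirac x) f = f x := by
      intro f
      have h1 : ms (dirac x) = Measure.dirac x := rfl
      show ∫ y, f y ∂(ms (dirac x)) = f x
      rw [h1, integral_dirac]
    have hpos : ∀ f : C(X, ℝ), (∀ y, 0 ≤ f y) → f x = 0 → ∫ y, f y ∂(ms μ) = 0 := by
      intro f hf hfx
      have h1 := congrFun h f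
      rw [hδ f, hfx] at h1
      have h2 : a * ∫ y, f y ∂(ms μ) + b * ∫ y, f y ∂(ms ν) = 0 := h1
      have h3 : 0 ≤ ∫ y, f y ∂(ms μ) := integral_nonneg hf
      have h4 : 0 ≤ ∫ y, f y ∂(ms ν) := integral_nonneg hf
      nlinarith [mul_nonneg ha.le h3, mul_nonneg hb.le h4]
    ext f
    rw [hδ f]
    have h5 := hpos ⟨fun y => |f y - f x|, (f.continuous.sub continuous_const).abs⟩
      (fun y => abs_nonneg _) (by simp)
    have h5' : ∫ y, |f y - f x| ∂(ms μ) = 0 := h5
    have h6 : |∫ y, (f y - f x) ∂(ms μ)| ≤ ∫ y, |f y - f x| ∂(ms μ) := by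
      have := norm_integral_le_integral_norm (μ := ms μ) (fun y => f y - f x)
      simpa [Real.norm_eq_abs] using this
    rw [h5', integral_sub (integrable_of_cont f _) (integrable_const _), integral_const,
      probReal_univ, one_smul] at h6
    have h7 := abs_nonpos_iff.mp h6
    show ∫ y, f y ∂(ms μ) = f x
    linarith
  rw [mem_extremePoints]
  refine ⟨mem_range_self _, ?_⟩
  rintro _ ⟨μ, rfl⟩ _ ⟨ν, rfl⟩ ⟨a, b, ha, hb, hab, h⟩
  exact ⟨key μ ν a b ha hb hab h, key ν μ b a hb ha (by linarith) (by rw [add_comm]; exact h)⟩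

theorem exists_convex (x : X) (h : TightAt (dirac x)) :
    ∃ (g : X → C(X, ℝ) → ℝ), Continuous g ∧ Function.Injective g ∧
      (∀ y, g y ∈ range (emb : P X → C(X, ℝ) → ℝ)) ∧
      IsCompact (range (emb : P X → C(X, ℝ) → ℝ)) ∧
      g x ∈ (range (emb : P X → C(X, ℝ) → ℝ)).extremePoints ℝ ∧
      ∀ hx : g x ∈ range (emb : P X → C(X, ℝ) → ℝ),
        TightAt (⟨g x, hx⟩ : range (emb : P X → C(X, ℝ) → ℝ)) := by
  have hcomp : IsCompact (range (emb : P X → C(X, ℝ) → ℝ)) := isCompact_range continuous_emb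
  have hg : ∀ y : X, emb (dirac y) = fun f : C(X, ℝ) => f y := by
    intro y
    ext f
    have h1 : ms (dirac y) = Measure.dirac y := rfl
    show ∫ z, f z ∂(ms (dirac y)) = f y
    rw [h1, integral_dirac]
  refine ⟨fun y => emb (dirac y), ?_, ?_, fun y => mem_range_self _, hcomp, emb_dirac_extreme x, ?_⟩
  · simp only [hg]
    exact continuous_pi fun f => f.continuous
  · intro y z hyz
    have h1 := emb_injective hyz
    have h2 : ms (dirac y) {y} = 1 := ms_dirac_eq_one_iff.mpr rfl
    rw [h1, ms_dirac_apply (measurableSet_singleton y)] at h2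
    by_contra hne
    rw [indicator_of_notMem (fun h3 : z ∈ ({y} : Set X) => hne (h3 : z = y).symm)] at h2
    exact zero_ne_one h2
  · intro hx
    let e : P X → range (emb : P X → C(X, ℝ) → ℝ) := fun μ => ⟨emb μ, mem_range_self _⟩
    have he : Continuous e := continuous_emb.subtype_mk _
    have hbij : Function.Bijective e := by
      constructor
      · intro μ ν h1
        exact emb_injective (Subtype.ext_iff.mp h1)
      · rintro ⟨_, μ, rfl⟩
        exact ⟨μ, rfl⟩
    have hh : P X ≃ₜ range (emb : P X → C(X, ℝ) → ℝ) :=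
      (Continuous.homeoOfEquivCompactToT2 (f := Equiv.ofBijective e hbij) he)
    have h2 : TightAt (e (dirac x)) :=
      TightAt.homeo (Continuous.homeoOfEquivCompactToT2 (f := Equiv.ofBijective e hbij) he) h
    exact h2

end

/-- `P(X)` is countably tight at `δ_x` if and only if `X` embeds in a compact convex set so that `x`
becomes an extreme point at which the compact convex set has countable tightness. -/
theorem diracTight_iff_convex {X : Type} [TopologicalSpace X] [CompactSpace X] [T2Space X] (x : X) :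
    DiracTight X x ↔ ∃ (E : Type) (_ : AddCommGroup E) (_ : Module ℝ E) (_ : TopologicalSpace E)
      (_ : IsTopologicalAddGroup E) (_ : ContinuousSMul ℝ E) (_ : T2Space E)
      (_ : LocallyConvexSpace ℝ E) (K : Set E) (g : X → K), IsCompact K ∧ Convex ℝ K ∧
      Continuous g ∧ Function.Injective g ∧ (g x : E) ∈ K.extremePoints ℝ ∧ TightAt (g x) := by
  let _ : MeasurableSpace X := borel X
  have _ : BorelSpace X := ⟨rfl⟩
  constructor
  · intro h
    rw [diracTight_iff] at h
    obtain ⟨g, h1, h2, h3, h4, h5, h6⟩ := exists_convex x h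
    refine ⟨C(X, ℝ) → ℝ, inferInstance, inferInstance, inferInstance, inferInstance, inferInstance,
      inferInstance, inferInstance, range (emb : P X → C(X, ℝ) → ℝ), fun y => ⟨g y, h3 y⟩, h4,
      convex_range_emb, h1.subtype_mk _, ?_, h5, h6 (h3 x)⟩
    intro y z hyz
    exact h2 (Subtype.ext_iff.mp hyz)
  · rintro ⟨E, _, _, _, _, _, _, _, K, g, hK, hc, hg, hgi, he, ht⟩
    have _ : CompactSpace K := isCompact_iff_compactSpace.mp hK
    let _ : MeasurableSpace K := borel K
    have _ : BorelSpace K := ⟨rfl⟩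
    rw [diracTight_iff]
    exact tightAt_of_embed ⟨g, hg⟩ hgi (tightAt_dirac_of_extreme hc he ht)

end Pool.Agent.RadT
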