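import Mathlib
import Pool.Agent.RadT.Atom
import Pool.Agent.PolT.Index

/-!
# Reduction to compacta of weight at most `ℵ₁`
-/

open MeasureTheory Set Filter
open scoped Topology ENNReal Cardinal BoundedContinuousFunction CompactlySupported

namespace Pool.Agent.RadT

open Pool.Agent.PolT

variable {X : Type} [TopologicalSpace X] [CompactSpace X] [T2Space X]
  [MeasurableSpace X] [BorelSpace X] {x : X}

/-- separating `δ_x` from a closed set by one continuous function -/
theorem exists_sep {C : Set (P X)} (hC : IsClosed C) (hx : dirac x ∉ C) :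
    ∃ (f : C(X, ℝ)) (ε : ℝ), 0 < ε ∧ f x = 1 ∧ (∀ y, f y ≤ 1) ∧
      ∀ μ ∈ C, ∫ y, f y ∂(ms μ) ≤ 1 - ε := by
  classical
  -- for every `μ ∈ C` there is an open `U ∋ x` with `μ U < 1`
  have h1 : ∀ μ : C, ∃ (f : C(X, ℝ)), f x = 1 ∧ (∀ y, 0 ≤ f y) ∧ (∀ y, f y ≤ 1) ∧
      ∫ y, f y ∂(ms μ.1) < 1 := by
    intro μ
    have h2 : ms μ.1 {x} ≠ 1 := by
      intro h
      exact hx (by rw [← ms_dirac_eq_one_iff.mp h]; exact μ.2)
    have h3 : ms μ.1 {x} < 1 := lt_of_le_of_ne prob_le_one h2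
    obtain ⟨U, hxU, hU, hμU⟩ := Set.exists_isOpen_lt_of_lt {x} 1 h3
    obtain ⟨f, hf1, -, hf3, hf4⟩ := exists_continuousMap_one_of_isCompact_subset_isOpen
      (isCompact_singleton (x := x)) hU hxU
    refine ⟨f, hf1 rfl, fun y => (hf4 y).1, fun y => (hf4 y).2, ?_⟩
    have h4 : ∫ y, f y ∂(ms μ.1) ≤ (ms μ.1).real U := by
      rw [← integral_indicator_one hU.measurableSet]
      refine integral_mono (integrable_of_cont f _)
        ((integrable_const (1 : ℝ)).indicator hU.measurableSet) ?_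
      intro y
      by_cases hy : y ∈ U
      · simp [hy, (hf4 y).2]
      · have : y ∉ tsupport f := fun h' => hy (hf3 h')
        simp [hy, image_eq_zero_of_notMem_tsupport this]
    refine h4.trans_lt ?_
    rw [Measure.real, ← ENNReal.toReal_one, ENNReal.toReal_lt_toReal (measure_ne_top _ _)
      ENNReal.one_ne_top]
    exact hμU
  choose f hf1 hf0 hf2 hf3 using h1
  obtain ⟨t, ht⟩ := hC.isCompact.elim_finite_subcover
    (fun μ : C => {ν : P X | ∫ y, f μ y ∂(ms ν) < 1})
    (fun μ => _root_.isOpen_lt (continuous_int _) continuous_const)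
    (fun μ hμ => mem_iUnion.mpr ⟨⟨μ, hμ⟩, hf3 ⟨μ, hμ⟩⟩)
  -- the product of the functions
  let g : C(X, ℝ) := ∏ μ ∈ t, f μ
  have hg : ∀ y, g y = ∏ μ ∈ t, f μ y := fun y => by
    simp [g, ContinuousMap.prod_apply]
  have hg1 : g x = 1 := by
    rw [hg]
    exact Finset.prod_eq_one fun μ _ => hf1 μ
  have hg2 : ∀ y, g y ≤ 1 := fun y => by
    rw [hg]
    exact Finset.prod_le_one (fun μ _ => hf0 μ y) fun μ _ => hf2 μ y
  have hg3 : ∀ μ ∈ t, ∀ y, g y ≤ f μ y := by
    intro μ hμ y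
    rw [hg, ← Finset.mul_prod_erase t (fun μ => f μ y) hμ]
    exact mul_le_of_le_one_right (hf0 μ y) (Finset.prod_le_one (fun ν _ => hf0 ν y) fun ν _ => hf2 ν y)
  have hg4 : ∀ ν ∈ C, ∫ y, g y ∂(ms ν) < 1 := by
    intro ν hν
    obtain ⟨μ, hμt, hμ⟩ := mem_iUnion₂.mp (ht hν)
    refine lt_of_le_of_lt ?_ (show ∫ y, f μ y ∂(ms ν) < 1 from hμ)
    exact integral_mono (integrable_of_cont _ _) (integrable_of_cont _ _) (hg3 μ hμt)
  rcases C.eq_empty_or_nonempty with rfl | hne
  · exact ⟨g, 1, one_pos, hg1, hg2, fun μ hμ => absurd hμ (notMem_empty μ)⟩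
  · obtain ⟨ν₀, hν₀, hmax⟩ := hC.isCompact.exists_isMaxOn hne
      (f := fun ν : P X => ∫ y, g y ∂(ms ν)) (continuous_int g).continuousOn
    refine ⟨g, 1 - ∫ y, g y ∂(ms ν₀), by linarith [hg4 ν₀ hν₀], hg1, hg2, fun ν hν => ?_⟩
    have := hmax hν
    simp only [mem_ofPred_eq] at this
    linarith

/-- an `ω₁`-sequence of measures and functions -/
theorem exists_sequence (h : ¬ TightAt (dirac x)) : ∃ (M : W → P X) (F : W → C(X, ℝ))
    (ε : W → ℝ), (∀ a, 0 < ε a) ∧ (∀ a, F a x = 1) ∧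
    (∀ a b, b < a → ∫ y, F a y ∂(ms (M b)) ≤ 1 - ε a) ∧
    (∀ a b, b ≤ a → ms (M a) {y | F b y ≠ 1} = 0) := by
  classical
  obtain ⟨G, m, hL, hne⟩ := exists_limitAt h
  have := hL.prob
  have := hL.filt.ne
  have := hL.filt.cif
  obtain ⟨Y, hY, hYc, hYs⟩ := hL.filt.basis _ hne
  have hfull : ∀ f : C(X, ℝ), f x = 1 → ∀ᶠ μ in G, ms μ {y | f y ≠ 1} = 0 := by
    intro f hf
    have hm : m {y | f y ≠ 1} = 0 := by
      have h1 : {y | f y ≠ 1} ⊆ ⋃ n : ℕ, {y | 1 / ((n : ℝ) + 1) ≤ |f y - 1|} := by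
        intro y hy
        obtain ⟨n, hn⟩ := exists_nat_one_div_lt (abs_pos.mpr (sub_ne_zero.mpr hy))
        exact mem_iUnion.mpr ⟨n, hn.le⟩
      refine measure_mono_null h1 (measure_iUnion_null fun n => hL.far ?_)
      have hc : IsClosed {y | 1 / ((n : ℝ) + 1) ≤ |f y - 1|} :=
        isClosed_le continuous_const (f.continuous.sub continuous_const).abs
      rw [hc.closure_eq]
      intro hx
      have hx' : 1 / ((n : ℝ) + 1) ≤ |f x - 1| := hx
      rw [hf, sub_self, abs_zero] at hx'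
      have : (0 : ℝ) < 1 / ((n : ℝ) + 1) := by positivity
      linarith
    have hmeas : MeasurableSet {y | f y ≠ 1} :=
      (isClosed_eq f.continuous continuous_const).isOpen_compl.measurableSet
    have := hL.lim _ hmeas
    rwa [hm] at this
  -- one step
  let D := P X × C(X, ℝ) × ℝ
  have hstep : ∀ (a : W) (φ : ∀ b : W, b < a → D),
      (∀ b (hb : b < a), (φ b hb).1 ∈ Y ∧ (φ b hb).2.1 x = 1) →
      ∃ d : D, d.1 ∈ Y ∧ d.2.1 x = 1 ∧ 0 < d.2.2 ∧
        (∀ b (hb : b < a), ∫ y, d.2.1 y ∂(ms (φ b hb).1) ≤ 1 - d.2.2) ∧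
        (∀ b (hb : b < a), ms d.1 {y | (φ b hb).2.1 y ≠ 1} = 0) ∧
        ms d.1 {y | d.2.1 y ≠ 1} = 0 := by
    intro a φ hφ
    have : Countable (Iio a) := (countable_Iio a).to_subtype
    let B : Set (P X) := range fun b : Iio a => (φ b.1 b.2).1
    have hB : B ⊆ Y := by
      rintro _ ⟨b, rfl⟩
      exact (hφ b.1 b.2).1
    have hcl : closure B ⊆ Y := hYc B hB (countable_range _)
    have hx : dirac x ∉ closure B := fun hx => hYs (hcl hx) rfl
    obtain ⟨f, ε, hε, hfx, -, hf⟩ := exists_sep isClosed_closure hx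
    have h2 : ∀ᶠ μ in G, ∀ b : Iio a, ms μ {y | (φ b.1 b.2).2.1 y ≠ 1} = 0 :=
      eventually_countable_forall.mpr fun b => hfull _ (hφ b.1 b.2).2
    obtain ⟨μ, ⟨h3, h4⟩, h5⟩ := ((h2.and (hfull f hfx)).and
      (eventually_of_mem hY fun μ hμ => hμ)).exists
    refine ⟨(μ, f, ε), h5, hfx, hε, fun b hb => ?_, fun b hb => h3 ⟨b, hb⟩, h4⟩
    exact hf _ (subset_closure ⟨⟨b, hb⟩, rfl⟩)
  -- recursion
  have hwf : WellFounded (fun a b : W => a < b) := wellFounded_lt
  obtain ⟨μ₀, hμ₀⟩ := hL.filt.ne.nonempty_of_mem hY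
  let d₀ : D := (μ₀, ContinuousMap.const X 1, 1)
  let Φ : W → D := hwf.fix fun a φ =>
    if hφ : ∀ b (hb : b < a), (φ b hb).1 ∈ Y ∧ (φ b hb).2.1 x = 1 then
      Classical.choose (hstep a φ hφ) else d₀
  have hΦ : ∀ a, Φ a = if hφ : ∀ b (_ : b < a), (Φ b).1 ∈ Y ∧ (Φ b).2.1 x = 1 then
      Classical.choose (hstep a (fun b _ => Φ b) hφ) else d₀ := fun a => hwf.fix_eq _ a
  have hgood : ∀ a, (Φ a).1 ∈ Y ∧ (Φ a).2.1 x = 1 := by
    intro a
    induction a using hwf.induction with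
    | _ a ih =>
      rw [hΦ a, dif_pos ih]
      have := Classical.choose_spec (hstep a (fun b _ => Φ b) ih)
      exact ⟨this.1, this.2.1⟩
  have hspec : ∀ a, 0 < (Φ a).2.2 ∧
      (∀ b (_ : b < a), ∫ y, (Φ a).2.1 y ∂(ms (Φ b).1) ≤ 1 - (Φ a).2.2) ∧
      (∀ b (_ : b < a), ms (Φ a).1 {y | (Φ b).2.1 y ≠ 1} = 0) ∧
      ms (Φ a).1 {y | (Φ a).2.1 y ≠ 1} = 0 := by
    intro a
    have h1 := Classical.choose_spec (hstep a (fun b _ => Φ b) fun b _ => hgood b)
    rw [hΦ a, dif_pos fun b _ => hgood b]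
    exact h1.2.2
  refine ⟨fun a => (Φ a).1, fun a => (Φ a).2.1, fun a => (Φ a).2.2, fun a => (hspec a).1,
    fun a => (hgood a).2, fun a b hb => (hspec a).2.1 b hb, fun a b hb => ?_⟩
  rcases hb.lt_or_eq with hb | rfl
  · exact (hspec a).2.2.1 b hb
  · exact (hspec _).2.2.2

theorem le_finset (t : Finset W) : ∃ a : W, ∀ b ∈ t, b ≤ a := by
  obtain ⟨γ, hγ⟩ := exists_bound (S := (t : Set W)) t.countable_toSet
  exact ⟨γ, fun b hb => (hγ b hb).le⟩

end Pool.Agent.RadT

namespace Pool.Agent.RadT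

open Pool.Agent.PolT

/-- **Reduction to weight at most `ℵ₁`.** -/
theorem exists_image {X : Type} [TopologicalSpace X] [CompactSpace X] [T2Space X] {x : X}
    (h : ¬ DiracTight X x) : ∃ f : C(X, W → ℝ),
      ¬ DiracTight (range f) ⟨f x, mem_range_self x⟩ := by
  classical
  let _ : MeasurableSpace X := borel X
  have _ : BorelSpace X := ⟨rfl⟩
  rw [diracTight_iff] at h
  obtain ⟨M, F, ε, hε, hF1, hFM, hMF⟩ := exists_sequence h
  let f : C(X, W → ℝ) := ⟨fun y a => F a y, continuous_pi fun a => (F a).continuous⟩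
  have hc : CompactSpace (range f) := isCompact_iff_compactSpace.mp (isCompact_range f.continuous)
  let _ : MeasurableSpace (range f) := borel _
  have _ : BorelSpace (range f) := ⟨rfl⟩
  refine ⟨f, fun ht => ?_⟩
  rw [diracTight_iff] at ht
  set x' : range f := ⟨f x, mem_range_self x⟩ with hx'
  let q : C(X, range f) := ⟨fun y => ⟨f y, mem_range_self y⟩, f.continuous.subtype_mk _⟩
  have hqx : q x = x' := rfl
  let F' : W → C(range f, ℝ) := fun a =>
    ⟨fun z => z.1 a, (continuous_apply a).comp continuous_subtype_val⟩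
  have hF' : ∀ a y, F' a (q y) = F a y := fun a y => rfl
  -- the images of the measures accumulate at the Dirac measure
  have h1 : dirac x' ∈ closure (range fun a => mapP q (M a)) := by
    by_contra hno
    obtain ⟨g, e, he, hgx, hg1, hg⟩ := exists_sep isClosed_closure hno
    have h2 : IsCompact {y | g (q y) ≤ 1 - e / 2} :=
      (isClosed_le (g.continuous.comp q.continuous) continuous_const).isCompact
    obtain ⟨t, ht⟩ := h2.elim_finite_subcover (fun a : W => {y | F a y ≠ 1})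
      (fun a => (isClosed_eq (F a).continuous continuous_const).isOpen_compl) (by
        intro y hy
        by_contra hno'
        have h3 : ∀ a, F a y = 1 := by
          intro a
          by_contra hne
          exact hno' (mem_iUnion.mpr ⟨a, hne⟩)
        have h4 : q y = x' := by
          apply Subtype.ext
          funext a
          show F a y = F a x
          rw [h3, hF1]
        have hy' : g (q y) ≤ 1 - e / 2 := hy
        rw [h4, hgx] at hy'
        linarith)
    obtain ⟨a, ha⟩ := le_finset t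
    have h5 : ms (M a) {y | g (q y) ≤ 1 - e / 2} = 0 := by
      refine measure_mono_null ht ?_
      have h10 := (measure_biUnion_null_iff (μ := ms (M a)) (s := fun b => {y | F b y ≠ 1})
        t.countable_toSet).mpr fun b hb => hMF a b (ha b hb)
      exact h10
    have h6 : 1 - e / 2 ≤ ∫ z, g z ∂(ms (mapP q (M a))) := by
      rw [mapP_integral]
      have h7 : ∫ _y : X, (1 - e / 2) ∂(ms (M a)) ≤ ∫ y, g (q y) ∂(ms (M a)) := by
        refine integral_mono_ae (integrable_const _) (integrable_of_cont (g.comp q) _) ?_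
        have h8 : ∀ᵐ y ∂(ms (M a)), ¬ g (q y) ≤ 1 - e / 2 := by
          rw [ae_iff]
          simpa using h5
        filter_upwards [h8] with y hy
        push Not at hy
        exact hy.le
      rwa [integral_const, probReal_univ, one_smul] at h7
    have h9 := hg _ (subset_closure ⟨a, rfl⟩)
    linarith
  obtain ⟨B, hB, hBc, hxB⟩ := ht _ h1
  -- a bound
  have h2 : ∀ b : B, ∃ a, mapP q (M a) = b := fun b => hB b.2
  choose s hs using h2
  have : Countable B := hBc.to_subtype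
  obtain ⟨γ, hγ⟩ := exists_bound (countable_range s)
  have h3 : IsClosed {ν : P (range f) | ∫ z, F' γ z ∂(ms ν) ≤ 1 - ε γ} :=
    isClosed_le (continuous_int _) continuous_const
  have h4 : B ⊆ {ν : P (range f) | ∫ z, F' γ z ∂(ms ν) ≤ 1 - ε γ} := by
    intro b hb
    show ∫ z, F' γ z ∂(ms b) ≤ 1 - ε γ
    have h10 : mapP q (M (s ⟨b, hb⟩)) = b := hs ⟨b, hb⟩
    rw [← h10, mapP_integral]
    exact hFM γ (s ⟨b, hb⟩) (hγ _ (mem_range_self _))
  have h5 : ∫ z, F' γ z ∂(ms (dirac x')) ≤ 1 - ε γ := closure_minimal h4 h3 hxB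
  have h6 : ms (dirac x') = Measure.dirac x' := rfl
  rw [h6, integral_dirac] at h5
  have h7 : F' γ x' = 1 := hF1 γ
  rw [h7] at h5
  linarith [hε γ]

/-- Q1 is equivalent to its restriction to compact subsets of `ℝ ^ ω₁` -/
theorem q1_iff_weight :
    (∀ (X : Type) [TopologicalSpace X] [CompactSpace X] [T2Space X], (∀ y : X, TightAt y) →
      ∀ x : X, DiracTight X x) ↔
    ∀ S : Set (W → ℝ), IsCompact S → (∀ y : S, TightAt y) → ∀ x : S, DiracTight S x := by
  constructor
  · intro h S hS hy x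
    have := isCompact_iff_compactSpace.mp hS
    exact h S hy x
  · intro h X _ _ _ hX x
    by_contra hno
    obtain ⟨f, hf⟩ := exists_image hno
    refine hf (h (range f) (isCompact_range f.continuous) ?_ _)
    exact tightAt_image hX (f := fun y => (⟨f y, mem_range_self y⟩ : range f))
      (f.continuous.subtype_mk _) (by
        rintro ⟨_, y, rfl⟩
        exact ⟨y, rfl⟩)

end Pool.Agent.RadT
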