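import Mathlib
import Pool.Agent.RadT.Perm

/-!
# Weakly submetacompact and meta-Lindelöf pieces
-/

open MeasureTheory Set Filter
open scoped Topology ENNReal Cardinal

namespace Pool.Agent.RadT

open Pool.Agent.PolT

/-- `Z` is *weakly submetacompact* (weakly θ-refinable): every open cover has a refinement
`⋃ n, 𝓥 n` by open sets such that every point `z` belongs to at least one and at most finitely many
members of `𝓥 n`, for some `n` (depending on `z`). -/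
def WeaklySubmetacompact (Z : Type) [TopologicalSpace Z] : Prop :=
  ∀ 𝓤 : Set (Set Z), (∀ U ∈ 𝓤, IsOpen U) → ⋃₀ 𝓤 = univ →
    ∃ 𝓥 : ℕ → Set (Set Z), (∀ n, ∀ V ∈ 𝓥 n, IsOpen V ∧ ∃ U ∈ 𝓤, V ⊆ U) ∧
      ∀ z, ∃ n, {V ∈ 𝓥 n | z ∈ V}.Nonempty ∧ {V ∈ 𝓥 n | z ∈ V}.Finite

section

variable {X : Type} [TopologicalSpace X] [CompactSpace X] [T2Space X]
  [MeasurableSpace X] [BorelSpace X] {x : X}

theorem sUnion_farB {B : Set X} (hx : x ∉ B) :
    ⋃₀ {U : Set B | IsOpen U ∧ x ∉ closure (Subtype.val '' U)} = univ := by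
  rw [eq_univ_iff_forall]
  intro b
  obtain ⟨V, hV, hbV, hxV⟩ := exists_far (x := x) (b := b) fun h' => hx (h' ▸ b.2)
  exact ⟨Subtype.val ⁻¹' V, ⟨hV.preimage continuous_subtype_val,
    fun h => hxV (closure_mono (image_preimage_subset _ _) h)⟩, hbV⟩

omit [CompactSpace X] [T2Space X] [MeasurableSpace X] [BorelSpace X] in
theorem isOpen_order {ι : Type} {W : ι → Set X} (hW : ∀ i, IsOpen (W i)) (k : ℕ) :
    IsOpen {z | (k : ℕ∞) ≤ {i | z ∈ W i}.encard} := by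
  rw [isOpen_iff_mem_nhds]
  intro z hz
  obtain ⟨t, ht, htk⟩ := exists_subset_encard_eq (show (k : ℕ∞) ≤ {i | z ∈ W i}.encard from hz)
  have htf : t.Finite := finite_of_encard_eq_coe htk
  have h1 : (⋂ i ∈ t, W i) ∈ 𝓝 z := by
    rw [biInter_mem htf]
    exact fun i hi => (hW i).mem_nhds (ht hi)
  refine mem_of_superset h1 fun y hy => ?_
  show (k : ℕ∞) ≤ {i | y ∈ W i}.encard
  rw [← htk]
  exact encard_le_encard fun i hi => mem_iInter₂.mp hy i hi

/-- weakly submetacompact Borel pieces -/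
theorem SmallAt.wsubmeta {B : Set X} (hB : MeasurableSet B) (hx : x ∉ B)
    (h : WeaklySubmetacompact B) : SmallAt x B := by
  classical
  obtain ⟨𝓥, h1, h2⟩ := h _ (fun U hU => hU.1) (sUnion_farB hx)
  have hW : ∀ (n : ℕ) (V : 𝓥 n), ∃ O : Set X, IsOpen O ∧ Subtype.val ⁻¹' O = V.1 := fun n V =>
    isOpen_induced_iff.mp (h1 n V.1 V.2).1
  choose W hWo hWV using hW
  have hWB : ∀ n V, W n V ∩ B = Subtype.val '' V.1 := by
    intro n V
    rw [← hWV n V, image_preimage_eq_inter_range, Subtype.range_coe]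
  have hfar : ∀ n V, x ∉ closure (W n V ∩ B) := by
    intro n V
    obtain ⟨U, hU, hVU⟩ := (h1 n V.1 V.2).2
    rw [hWB]
    exact fun h' => hU.2 (closure_mono (image_mono hVU) h')
  let E : ℕ → ℕ → Set X := fun n k =>
    B \ {z | ((k + 1 : ℕ) : ℕ∞) ≤ {V : 𝓥 n | z ∈ W n V}.encard}
  have hE : ∀ n k, MeasurableSet (E n k) := fun n k =>
    hB.diff (isOpen_order (hWo n) (k + 1)).measurableSet
  have hEf : ∀ n k, ∀ z ∈ E n k, {V : 𝓥 n | z ∈ W n V}.Finite := by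
    intro n k z hz
    by_contra hinf
    apply hz.2
    show ((k + 1 : ℕ) : ℕ∞) ≤ {V : 𝓥 n | z ∈ W n V}.encard
    rw [Set.Infinite.encard_eq hinf]
    exact le_top
  refine SmallAt.mono _ (⋃ p : ℕ × ℕ, (⋃ V, W p.1 V) ∩ E p.1 p.2) ?_ (SmallAt.union' fun p => ?_)
  · intro z hz
    obtain ⟨n, ⟨V, hV, hzV⟩, hfin⟩ := h2 ⟨z, hz⟩
    have hmem : ∀ V : 𝓥 n, z ∈ W n V ↔ (⟨z, hz⟩ : B) ∈ V.1 := by
      intro V
      rw [← hWV n V]
      exact Iff.rfl
    have hfin' : {V : 𝓥 n | z ∈ W n V}.Finite := by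
      have h3 : (((Subtype.val : 𝓥 n → Set B) ⁻¹' {V ∈ 𝓥 n | (⟨z, hz⟩ : B) ∈ V}) :
          Set (𝓥 n)).Finite := hfin.preimage Subtype.val_injective.injOn
      refine h3.subset fun V hV => ?_
      exact (⟨V.2, (hmem V).mp hV⟩ : V.1 ∈ 𝓥 n ∧ (⟨z, hz⟩ : B) ∈ V.1)
    refine mem_iUnion.mpr ⟨(n, {V : 𝓥 n | z ∈ W n V}.ncard), mem_iUnion.mpr ⟨⟨V, hV⟩, ?_⟩, hz, ?_⟩
    · exact (hmem ⟨V, hV⟩).mpr hzV
    · intro hle
      have hle : (({V : 𝓥 n | z ∈ W n V}.ncard + 1 : ℕ) : ℕ∞) ≤ {V : 𝓥 n | z ∈ W n V}.encard := hle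
      rw [← hfin'.cast_ncard_eq] at hle
      have := Nat.cast_le.mp hle
      omega
  · refine SmallAt.family (E p.1 p.2) (𝓥 p.1) (W p.1) (hE _ _) (hWo _) (fun μ => ?_) fun V => ?_
    · refine countable_index_pointFinite μ (fun V => (hWo _ V).measurableSet.inter (hE _ _))
        fun z => ?_
      by_cases hz : z ∈ E p.1 p.2
      · exact (hEf _ _ z hz).subset fun V hV => hV.1
      · refine finite_empty.subset fun V hV => hz hV.2
    · refine SmallAt.mono _ _ ?_ (SmallAt.far _ (hfar p.1 V))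
      exact inter_subset_inter_right _ Set.sdiff_subset

/-- meta-Lindelöf Borel pieces, without a covering by `ℵ₁` null sets -/
theorem SmallAt.metaLindelof (hnc : ¬ NullCover) {B : Set X} (hB : MeasurableSet B) (hx : x ∉ B)
    (h : MetaLindelof B) : SmallAt x B := by
  classical
  obtain ⟨𝓥, h1, h2, h3⟩ := h _ (fun U hU => hU.1) (sUnion_farB hx)
  have hW : ∀ (V : 𝓥), ∃ O : Set X, IsOpen O ∧ Subtype.val ⁻¹' O = V.1 := fun V =>
    isOpen_induced_iff.mp (h1 V.1 V.2).1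
  choose W hWo hWV using hW
  have hWB : ∀ V, W V ∩ B = Subtype.val '' V.1 := by
    intro V
    rw [← hWV V, image_preimage_eq_inter_range, Subtype.range_coe]
  have hfar : ∀ V, x ∉ closure (W V ∩ B) := by
    intro V
    obtain ⟨U, hU, hVU⟩ := (h1 V.1 V.2).2
    rw [hWB]
    exact fun h' => hU.2 (closure_mono (image_mono hVU) h')
  refine SmallAt.mono _ ((⋃ V, W V) ∩ B) ?_ (SmallAt.family B 𝓥 W hB hWo (fun μ => ?_) fun V => ?_)
  · intro z hz
    have hz' : (⟨z, hz⟩ : B) ∈ ⋃₀ 𝓥 := by rw [h2]; trivial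
    obtain ⟨V, hV, hzV⟩ := hz'
    refine ⟨mem_iUnion.mpr ⟨⟨V, hV⟩, ?_⟩, hz⟩
    have h4 : (⟨z, hz⟩ : B) ∈ Subtype.val ⁻¹' W ⟨V, hV⟩ := by
      rw [hWV ⟨V, hV⟩]
      exact hzV
    exact h4
  · refine countable_index_pointCountable hnc μ (fun V => (hWo V).measurableSet.inter hB)
      fun z => ?_
    by_cases hz : z ∈ B
    · have h4 : (((Subtype.val : 𝓥 → Set B) ⁻¹' {V ∈ 𝓥 | (⟨z, hz⟩ : B) ∈ V}) :
          Set 𝓥).Countable := (h3 ⟨z, hz⟩).preimage Subtype.val_injective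
      refine h4.mono fun V hV => ?_
      have h5 : (⟨z, hz⟩ : B) ∈ V.1 := by
        rw [← hWV V]
        exact hV.1
      exact (⟨V.2, h5⟩ : V.1 ∈ 𝓥 ∧ (⟨z, hz⟩ : B) ∈ V.1)
    · exact countable_empty.mono fun V hV => hz hV.2
  · exact SmallAt.far _ (hfar V)

end

/-- in ZFC: countable Borel covers of the complement of `x` by weakly submetacompact pieces -/
theorem diracTight_of_wsubmeta {X : Type} [TopologicalSpace X] [CompactSpace X] [T2Space X] {x : X}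
    (B : ℕ → Set X) (hB : ∀ n, MeasurableSet[borel X] (B n)) (hU : ⋃ n, B n = {x}ᶜ)
    (h : ∀ n, WeaklySubmetacompact (B n)) : DiracTight X x := by
  let _ : MeasurableSpace X := borel X
  have _ : BorelSpace X := ⟨rfl⟩
  rw [diracTight_iff]
  refine tight_of_small ?_
  rw [← hU]
  refine SmallAt.union _ fun n => SmallAt.wsubmeta (hB n) (fun hx => ?_) (h n)
  have : x ∈ ({x}ᶜ : Set X) := by rw [← hU]; exact mem_iUnion.mpr ⟨n, hx⟩
  exact this rfl

theorem diracTight_of_metaLindelof (hnc : ¬ NullCover) {X : Type} [TopologicalSpace X]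
    [CompactSpace X] [T2Space X] {x : X}
    (B : ℕ → Set X) (hB : ∀ n, MeasurableSet[borel X] (B n)) (hU : ⋃ n, B n = {x}ᶜ)
    (h : ∀ n, MetaLindelof (B n)) : DiracTight X x := by
  let _ : MeasurableSpace X := borel X
  have _ : BorelSpace X := ⟨rfl⟩
  rw [diracTight_iff]
  refine tight_of_small ?_
  rw [← hU]
  refine SmallAt.union _ fun n => SmallAt.metaLindelof hnc (hB n) (fun hx => ?_) (h n)
  have : x ∈ ({x}ᶜ : Set X) := by rw [← hU]; exact mem_iUnion.mpr ⟨n, hx⟩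
  exact this rfl

end Pool.Agent.RadT
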